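import Pool.Agent.Helper21.HN.St

/-!
# MP_10ef18_an (Hector), project HS: bounded derivatives almost everywhere on the minimal set

Definitions. `T`, `Gr`, `Gens`, `Lam`, `Gap`, `len`, `act`, `Tot` are those of
`Pool.Agent.Helper82.HG.Defs`; `W`, `wt`, `sact`, `IsPair`, `span`, `mid`, `Orb2`, `pact` those of
`Pool.Agent.Helper82.HC.St`; `PG`, `sh`, `core`, `Nst`, `mu`, `Psi`, `Way`, `Sta`, `cst` those of
`Pool.Agent.Helper21.HN.Defs`.
-/

set_option autoImplicit false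

namespace Pool.Agent.Helper39.HS

open Set MeasureTheory Pool.Agent.Helper82.HG Pool.Agent.Helper82.HC Pool.Agent.Helper21.HN

/-- The standing situation of helper21's project HN, with the closed `h`-neighbourhood of `Λ` replaced
by a periodic measurable set `N` which contains the gaps of `G` and the cores of all states of cost
less than `25 L`; `m` bounds the measure of `N` modulo `1`. -/
structure Bse (K : ℝ) (S : Set (Equiv.Perm ℝ)) (Λ : Set ℝ) (G : Set (ℝ × ℝ)) (P : PG)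
    (L h m : ℝ) : Prop where
  K1 : 1 ≤ K
  gens : Gens K S
  lam : Lam S Λ
  L0 : 0 < L
  KL : 10000 * K * L ≤ 1
  h0 : 0 < h
  hL : 200 * h ≤ L
  mL : 200 * m ≤ L
  meas : ∃ N : Set ℝ, MeasurableSet N ∧ (∀ x, x ∈ N ↔ x + 1 ∈ N) ∧
    (volume (N ∩ Icc (0 : ℝ) 1)).toReal ≤ m ∧ (∀ V ∈ G, Ioo V.1 V.2 ⊆ N) ∧
    (∀ Q, Sta S P Q → cst S P Q < 25 * L → core Q ⊆ N)
  pair : IsPair Λ P
  mem1 : P.1 ∈ G
  mem2 : P.2 ∈ G
  gact : ∀ g ∈ Gr S, ∀ x ∈ G, sact g x ∈ G
  ggap : ∀ x ∈ G, Gap Λ x.1 x.2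
  psi : ∀ Q : PG, IsPair Λ Q → Q.1 ∈ G → Q.2 ∈ G → Psi S P ≤ Psi S Q + 1 / 1000
  sml : ∀ g c, Way S P g c → c ≤ 25 * L → span (pact g P) ≤ h

/-- A small extremal pair `P` in an invariant set `G` of gaps: it almost minimises `Psi`, the orbits of
the gaps of `G` have total length at most `th` (modulo integer translation), and all states reached by
ways of cost at most `1 / (400 K)` have span at most `h`. -/
structure Sys (K : ℝ) (S : Set (Equiv.Perm ℝ)) (Λ : Set ℝ) (G : Set (ℝ × ℝ)) (P : PG)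
    (h th : ℝ) : Prop where
  K1 : 1 ≤ K
  gens : Gens K S
  lam : Lam S Λ
  h0 : 0 < h
  pair : IsPair Λ P
  mem1 : P.1 ∈ G
  mem2 : P.2 ∈ G
  gact : ∀ g ∈ Gr S, ∀ x ∈ G, sact g x ∈ G
  ggap : ∀ x ∈ G, Gap Λ x.1 x.2
  glen : ∀ x ∈ G, x.2 - x.1 ≤ h
  tot : ∀ x ∈ G, Tot S x th
  psi : ∀ Q : PG, IsPair Λ Q → Q.1 ∈ G → Q.2 ∈ G → Psi S P ≤ Psi S Q + 1 / 1000
  sml : ∀ g c, Way S P g c → 400 * K * c ≤ 1 → span (pact g P) ≤ h

/-- the union of the cores of the states of cost less than `t` -/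
def Un (S : Set (Equiv.Perm ℝ)) (P : PG) (t : ℝ) : Set ℝ :=
  {x | ∃ Q, Sta S P Q ∧ cst S P Q < t ∧ x ∈ core Q}

/-- `A` is a part of the core of `P` which fills it up to the proportion `e`, such that elements of the
group between two of its points have derivative at most `13/10` -/
structure Iso (S : Set (Equiv.Perm ℝ)) (P : PG) (A : Set ℝ) (e : ℝ) : Prop where
  meas : MeasurableSet A
  sub : A ⊆ core P
  fill : (volume (core P \ A)).toReal ≤ e * mid P
  iso : ∀ y ∈ A, ∀ w ∈ Gr S, w y ∈ A → |deriv (⇑w) y| ≤ 13 / 10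

end Pool.Agent.Helper39.HS
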