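import Pool.Agent.Helper39.HS.St3

/-!
# MP_10ef18_an (Hector), project HS: module ABS
-/

set_option autoImplicit false

namespace Pool.Agent.Helper39.HS

open Set MeasureTheory Filter Topology Pool.Agent.Helper82.HG Pool.Agent.Helper82.HC
  Pool.Agent.Helper21.HN

private lemma mvt_ABS (k : ℝ → ℝ) (hk : Differentiable ℝ k) (y z : ℝ) (h : y < z) :
    ∃ ξ ∈ Ioo y z, k z - k y = deriv k ξ * (z - y) := by
  obtain ⟨ξ, hξ, h1⟩ := exists_deriv_eq_slope k h hk.continuous.continuousOn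
    (hk.differentiableOn)
  refine ⟨ξ, hξ, ?_⟩
  have : z - y ≠ 0 := by linarith
  rw [h1]; field_simp

private lemma log1_ABS : (1 : ℝ) ≤ Real.log (9 / 5) - Real.log (5 / 9) := by
  have h1 : Real.log (5 / 9 : ℝ) = - Real.log (9 / 5) := by
    rw [← Real.log_inv]; norm_num
  have h2 : (1 : ℝ) / 2 ≤ Real.log (9 / 5) := by
    rw [Real.le_log_iff_exp_le (by norm_num)]
    have h3 : Real.exp (1 / 2 : ℝ) ^ 2 = Real.exp 1 := by
      rw [← Real.exp_nat_mul]; norm_num
    have h4 := Real.exp_one_lt_d9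
    have h5 := Real.exp_pos (1 / 2 : ℝ)
    nlinarith
  rw [h1]; linarith

private lemma log2_ABS (a b : ℝ) (ha : 9 / 5 ≤ a) (hb0 : 0 < b) (hb : b ≤ 13 / 10) :
    5 / 18 ≤ Real.log a - Real.log b := by
  have h1 : Real.log (9 / 5 : ℝ) ≤ Real.log a := Real.log_le_log (by norm_num) ha
  have h2 : Real.log b ≤ Real.log (13 / 10 : ℝ) := Real.log_le_log hb0 hb
  have h3 : Real.log (9 / 5 : ℝ) - Real.log (13 / 10 : ℝ) = Real.log (18 / 13 : ℝ) := by
    rw [← Real.log_div (by norm_num) (by norm_num)]; norm_num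
  have h4 : 1 - (18 / 13 : ℝ)⁻¹ ≤ Real.log (18 / 13 : ℝ) := Real.one_sub_inv_le_log_of_pos (by norm_num)
  norm_num at h4
  linarith

private lemma n1_ABS (M C : ℝ) (hM : 1 ≤ M) (hC : 13 / 10 ≤ C) : C ≤ 2 * M * (1 + C) := by
  nlinarith

private lemma n2_ABS (M C δ m : ℝ) (hM : 1 ≤ M) (hC : 13 / 10 ≤ C) (hδ : 0 < δ)
    (hδe : 100 * M * C ^ 2 * δ = 1) (hm : 0 < m) :
    M * (1 + C) * ((1 + C) * (δ * m)) ≤ m / 2 := by
  have g1 : (1 + C) * (1 + C) ≤ 50 * C ^ 2 := by nlinarith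
  have g2 : (1 + C) * (1 + C) * (M * (δ * m)) ≤ 50 * C ^ 2 * (M * (δ * m)) :=
    mul_le_mul_of_nonneg_right g1 (by positivity)
  have g3 : 50 * C ^ 2 * (M * (δ * m)) = (100 * M * C ^ 2 * δ) * m / 2 := by ring
  rw [g3, hδe] at g2
  linarith

private lemma n3_ABS (M C δ m t : ℝ) (hM : 1 ≤ M) (hC : 13 / 10 ≤ C) (hδ : 0 < δ)
    (hδe : 100 * M * C ^ 2 * δ = 1) (ht : 0 < t) (hme : m ≤ 2 * M * (1 + C) * t) :
    4 * C * δ * m ≤ t := by
  have g1 : 4 * C * δ * m ≤ 4 * C * δ * (2 * M * (1 + C) * t) :=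
    mul_le_mul_of_nonneg_left hme (by positivity)
  have g2 : 8 * (1 + C) * C ≤ 100 * C ^ 2 := by nlinarith
  have g3 : 8 * (1 + C) * C * (M * δ * t) ≤ 100 * C ^ 2 * (M * δ * t) :=
    mul_le_mul_of_nonneg_right g2 (by positivity)
  have g4 : 100 * C ^ 2 * (M * δ * t) = (100 * M * C ^ 2 * δ) * t := by ring
  rw [g4, hδe] at g3
  have g5 : 4 * C * δ * (2 * M * (1 + C) * t) = 8 * (1 + C) * C * (M * δ * t) := by ring
  linarith

private lemma n4_ABS (M C δ m : ℝ) (hM : 1 ≤ M) (hC : 13 / 10 ≤ C) (hδ : 0 < δ)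
    (hδe : 100 * M * C ^ 2 * δ = 1) (hm : 0 < m) :
    M * ((1 + C) * (5 * C * (δ * m))) ≤ m / 10 := by
  have g3 : (1 + C) * (5 * C) ≤ 10 * C ^ 2 := by nlinarith
  have g4 : (1 + C) * (5 * C) * (M * (δ * m)) ≤ 10 * C ^ 2 * (M * (δ * m)) :=
    mul_le_mul_of_nonneg_right g3 (by positivity)
  have g5 : 10 * C ^ 2 * (M * (δ * m)) = (100 * M * C ^ 2 * δ) * m / 10 := by ring
  rw [g5, hδe] at g4
  linarith

private lemma n5_ABS (M C δ : ℝ) (hM : 1 ≤ M) (hC : 13 / 10 ≤ C) (hδ : 0 < δ)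
    (hδe : 100 * M * C ^ 2 * δ = 1) : δ ≤ 1 := by
  have h1 : 1 ≤ C ^ 2 := by nlinarith
  have h2 : 1 ≤ M * C ^ 2 := by nlinarith
  nlinarith

private lemma n6_ABS (C u s : ℝ) (hC : 13 / 10 ≤ C) (hu : 0 < u) (hs : s = 4 * C * u)
    (h : s ≤ u + C * u) : False := by
  nlinarith

private lemma n7_ABS (C u s t : ℝ) (hC : 13 / 10 ≤ C) (hu : 0 < u) (hs : s = 4 * C * u)
    (h : t ≤ s + u) : t ≤ 5 * C * u := by
  nlinarith

theorem tABS : StVOL → StABS := by
  intro hVOL M hM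
  obtain ⟨C, hC⟩ : ∃ C : ℝ, C = 13 / 10 * Real.exp M := ⟨_, rfl⟩
  have hexp : 1 ≤ Real.exp M := Real.one_le_exp (by linarith)
  have hC1 : 13 / 10 ≤ C := by rw [hC]; nlinarith
  have hC0 : 0 < C := by linarith
  have hlogC : Real.log C = Real.log (13 / 10) + M := by
    rw [hC, Real.log_mul (by norm_num) (Real.exp_ne_zero _), Real.log_exp]
  obtain ⟨δ, hδ⟩ : ∃ δ : ℝ, δ = 1 / (100 * M * C ^ 2) := ⟨_, rfl⟩
  have hδ0 : 0 < δ := by rw [hδ]; positivity
  have hδe : 100 * M * C ^ 2 * δ = 1 := by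
    rw [hδ]; field_simp
  refine ⟨δ, hδ0, n5_ABS M C δ hM hC1 hδ0 hδe, ?_⟩
  intro c₀ a₀ b₀ d₀ c₁ a₁ b₁ d₁ m l p q x k A₀ A₁ h1 h2 h3 h4 h5 h6 hm0 hm1 hml hmono hdiff hne hdis
    hA0 hA1 hA0s hA1s hv0 hv1 hiso hx hkx hp hpq hq hkp hkq hVm hVx hend
  have hmpos : 0 < m := by linarith
  have hlpos : 0 < l := by linarith
  have hcont : Continuous k := hdiff.continuous
  have hpos : ∀ y, 0 < deriv k y := fun y =>
    lt_of_le_of_ne hmono.monotone.deriv_nonneg (hne y).symm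
  have habs : ∀ y, |deriv k y| = deriv k y := fun y => abs_of_pos (hpos y)
  simp only [habs] at hdis hiso
  have hxI : x ∈ Icc c₀ d₀ := by
    have := hA0s hx
    exact ⟨by linarith [this.1], by linarith [this.2]⟩
  have hkxI : k x ∈ Icc c₁ d₁ := by
    have := hA1s hkx
    exact ⟨by linarith [this.1], by linarith [this.2]⟩
  obtain ⟨hx1, hx2⟩ := hiso x hx hkx
  have hlx1 : Real.log (deriv k x) ≤ Real.log (13 / 10) := Real.log_le_log (hpos x) hx2
  have hlx2 : - Real.log (13 / 10) ≤ Real.log (deriv k x) := by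
    have : Real.log (10 / 13) ≤ Real.log (deriv k x) := Real.log_le_log (by norm_num) hx1
    have h7 : Real.log (10 / 13 : ℝ) = - Real.log (13 / 10) := by
      rw [← Real.log_inv]; norm_num
    linarith
  -- (0)
  have hcr : ∀ y ∈ Icc c₀ d₀, k y ∈ Icc c₁ d₁ → deriv k y ≤ C ∧ 1 ≤ C * deriv k y := by
    intro y hy hky
    have h7 := abs_le.1 (hdis y hy x hxI hky hkxI).1
    constructor
    · rw [← Real.log_le_log_iff (hpos y) hC0, hlogC]
      linarith [h7.2]
    · have h8 : 0 ≤ Real.log (C * deriv k y) := by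
        rw [Real.log_mul hC0.ne' (hpos y).ne', hlogC]
        linarith [h7.1]
      by_contra hcon
      rw [not_le] at hcon
      have := Real.log_neg (mul_pos hC0 (hpos y)) hcon
      linarith
  -- Lipschitz bounds
  have hlip : ∀ y z, y < z → c₀ ≤ y → z ≤ d₀ → c₁ ≤ k y → k z ≤ d₁ →
      k z - k y ≤ C * (z - y) ∧ z - y ≤ C * (k z - k y) := by
    intro y z hyz hy hz hky hkz
    obtain ⟨ξ, hξ, he⟩ := mvt_ABS k hdiff y z hyz
    have hk1 : k y < k ξ := hmono hξ.1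
    have hk2 : k ξ < k z := hmono hξ.2
    obtain ⟨g1, g2⟩ := hcr ξ ⟨by linarith [hξ.1], by linarith [hξ.2]⟩ ⟨by linarith, by linarith⟩
    rw [he]
    have hzy : 0 < z - y := by linarith
    constructor
    · exact mul_le_mul_of_nonneg_right g1 hzy.le
    · have := mul_le_mul_of_nonneg_right g2 hzy.le
      linarith
  -- the expanding point
  obtain ⟨ξ, hξ, hξe⟩ := mvt_ABS k hdiff p q hpq
  rw [hkp, hkq] at hξe
  have hξ9 : 9 / 5 ≤ deriv k ξ := by
    have hqp : 0 < q - p := by linarith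
    by_contra hcon
    rw [not_le] at hcon
    have : deriv k ξ * (q - p) < 9 / 5 * (q - p) := mul_lt_mul_of_pos_right hcon hqp
    linarith
  have hkξ1 : c₁ < k ξ := by rw [← hkp]; exact hmono hξ.1
  have hkξ2 : k ξ < a₁ := by rw [← hkq]; exact hmono hξ.2
  have hξI : ξ ∈ Icc c₀ d₀ := ⟨by linarith [hξ.1], by linarith [hξ.2]⟩
  have hkξI : k ξ ∈ Icc c₁ d₁ := ⟨by linarith, by linarith⟩
  -- (1)
  have hkey : ∃ e, q < e ∧ e ≤ b₀ ∧ k e ≤ b₁ ∧ m ≤ 2 * M * (1 + C) * (e - q) := by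
    rcases hend with hend | ⟨hd1, hd2, hd3⟩
    · obtain ⟨e, he, hke⟩ := intermediate_value_Icc hq.le hcont.continuousOn
        (show b₁ ∈ Icc (k q) (k b₀) from ⟨by rw [hkq]; exact h5.le, hend⟩)
      have hqe : q < e := by
        rcases he.1.lt_or_eq with h | h
        · exact h
        · exfalso
          rw [← h, hkq] at hke
          linarith
      refine ⟨e, hqe, he.2, hke.le, ?_⟩
      have := (hlip q e hqe (by linarith) (by linarith [he.2]) (by rw [hkq]; exact h4.le)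
        (by rw [hke]; exact h6.le)).1
      rw [hke, hkq, hm1] at this
      have heq : 0 < e - q := by linarith
      have hCM : C ≤ 2 * M * (1 + C) := n1_ABS M C hM hC1
      exact this.trans (mul_le_mul_of_nonneg_right hCM heq.le)
    · refine ⟨b₀, hq, le_rfl, ?_, ?_⟩
      · have : k b₀ < k d₀ := hmono h3
        linarith
      · obtain ⟨ξ', hξ', hξe'⟩ := mvt_ABS k hdiff b₀ d₀ h3
        have hξ5 : deriv k ξ' ≤ 5 / 9 := by
          have hdb : 0 < d₀ - b₀ := by linarith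
          by_contra hcon
          rw [not_le] at hcon
          have := mul_lt_mul_of_pos_right hcon hdb
          linarith
        have hkb : a₁ < k b₀ := by rw [← hkq]; exact hmono hq
        have hkξ'1 : k b₀ < k ξ' := hmono hξ'.1
        have hkξ'2 : k ξ' < k d₀ := hmono hξ'.2
        have h7 := (hdis ξ hξI ξ' ⟨by linarith [hξ'.1], by linarith [hξ'.2]⟩ hkξI
          ⟨by linarith, by linarith⟩).2
        have h8 : 1 ≤ |Real.log (deriv k ξ) - Real.log (deriv k ξ')| := by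
          have g1 : Real.log (9 / 5 : ℝ) ≤ Real.log (deriv k ξ) :=
            Real.log_le_log (by norm_num) hξ9
          have g2 : Real.log (deriv k ξ') ≤ Real.log (5 / 9 : ℝ) :=
            Real.log_le_log (hpos ξ') hξ5
          have g3 := log1_ABS
          exact le_trans (by linarith) (le_abs_self _)
        have h9 : |ξ - ξ'| ≤ d₀ - p := by
          rw [abs_le]; exact ⟨by linarith [hξ.1, hξ'.2], by linarith [hξ.2, hξ'.1]⟩
        have h10 : |k ξ - k ξ'| ≤ k d₀ - k p := by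
          rw [abs_le, hkp]; exact ⟨by linarith, by linarith⟩
        have h11 := (hlip p d₀ (by linarith) (by linarith) le_rfl hkp.ge (by linarith)).1
        have h12 := (hlip b₀ d₀ h3 (by linarith) le_rfl (by linarith) (by linarith)).2
        have h13 : l ≤ M * (1 + C) * (d₀ - p) := by
          have g1 : l ≤ |Real.log (deriv k ξ) - Real.log (deriv k ξ')| * l :=
            le_mul_of_one_le_left hlpos.le h8
          have g2 : M * (|ξ - ξ'| + |k ξ - k ξ'|) ≤ M * ((d₀ - p) + C * (d₀ - p)) :=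
            mul_le_mul_of_nonneg_left (by linarith) (by linarith)
          have g3 : M * ((d₀ - p) + C * (d₀ - p)) = M * (1 + C) * (d₀ - p) := by ring
          exact (g1.trans h7).trans (g2.trans g3.le)
        have h14 : d₀ - b₀ ≤ C * (δ * m) :=
          h12.trans (mul_le_mul_of_nonneg_left hd2 hC0.le)
        have h15 : d₀ - p ≤ (b₀ - q) + (1 + C) * (δ * m) := by
          have g1 : (1 + C) * (δ * m) = δ * m + C * (δ * m) := by ring
          linarith
        have hMC1 : 0 ≤ M * (1 + C) := by positivity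
        have h16 : M * (1 + C) * (d₀ - p) ≤ M * (1 + C) * ((b₀ - q) + (1 + C) * (δ * m)) :=
          mul_le_mul_of_nonneg_left h15 hMC1
        have h17 : M * (1 + C) * ((1 + C) * (δ * m)) ≤ m / 2 :=
          n2_ABS M C δ m hM hC1 hδ0 hδe hmpos
        have h18 : M * (1 + C) * ((b₀ - q) + (1 + C) * (δ * m)) =
            M * (1 + C) * (b₀ - q) + M * (1 + C) * ((1 + C) * (δ * m)) := by ring
        have h19 : 2 * M * (1 + C) * (b₀ - q) = 2 * (M * (1 + C) * (b₀ - q)) := by ring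
        rw [h19]
        linarith
  obtain ⟨e, hqe, heb, hke, hme⟩ := hkey
  have heq : 0 < e - q := by linarith
  obtain ⟨s, hs⟩ : ∃ s : ℝ, s = 4 * C * δ * m := ⟨_, rfl⟩
  have hs0 : 0 < s := by rw [hs]; positivity
  have hse : s ≤ e - q := by
    rw [hs]
    exact n3_ABS M C δ m (e - q) hM hC1 hδ0 hδe heq hme
  -- (2)
  have hJ : ∀ y ∈ Ioo q (q + s), y ∈ Ioo a₀ b₀ ∧ k y ∈ Ioo a₁ b₁ := by
    intro y hy
    have g1 : k q < k y := hmono hy.1
    have g2 : k y < k e := hmono (by linarith [hy.2])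
    exact ⟨⟨by linarith [hy.1], by linarith [hy.2]⟩, ⟨by linarith, by linarith⟩⟩
  have hgood : ∃ y ∈ Ioo q (q + s), y ∈ A₀ ∧ k y ∈ A₁ := by
    by_contra hcon
    push Not at hcon
    let B : Set ℝ := Ioo q (q + s) \ k ⁻¹' A₁
    have hBm : MeasurableSet B := measurableSet_Ioo.diff (hcont.measurable hA1)
    have hBf : volume B ≠ ⊤ := by
      refine ne_top_of_le_ne_top ?_ (measure_mono (show B ⊆ Ioo q (q + s) from sdiff_subset))
      rw [Real.volume_Ioo]; exact ENNReal.ofReal_ne_top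
    obtain ⟨v1, v2, v3, -⟩ := hVOL k B (1 / C) C hBm hmono.injective.injOn (by positivity) (by
      intro y hy
      obtain ⟨g1, g2⟩ := hJ y hy.1
      obtain ⟨g3, g4⟩ := hcr y ⟨by linarith [g1.1], by linarith [g1.2]⟩
        ⟨by linarith [g2.1], by linarith [g2.2]⟩
      refine ⟨hdiff y, ?_, ?_⟩
      · rw [habs, div_le_iff₀ hC0]; linarith
      · rw [habs]; exact g3) hBf
    have hfin1 : volume (Ioo a₁ b₁ \ A₁) ≠ ⊤ := by
      refine ne_top_of_le_ne_top ?_ (measure_mono (show Ioo a₁ b₁ \ A₁ ⊆ Ioo a₁ b₁ from sdiff_subset))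
      rw [Real.volume_Ioo]; exact ENNReal.ofReal_ne_top
    have hfin0 : volume (Ioo a₀ b₀ \ A₀) ≠ ⊤ := by
      refine ne_top_of_le_ne_top ?_ (measure_mono (show Ioo a₀ b₀ \ A₀ ⊆ Ioo a₀ b₀ from sdiff_subset))
      rw [Real.volume_Ioo]; exact ENNReal.ofReal_ne_top
    have hkB : k '' B ⊆ Ioo a₁ b₁ \ A₁ := by
      rintro _ ⟨y, hy, rfl⟩
      exact ⟨(hJ y hy.1).2, hy.2⟩
    have hB1 : (volume (k '' B)).toReal ≤ δ * m :=
      (ENNReal.toReal_mono hfin1 (measure_mono hkB)).trans hv1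
    have hB2 : (volume B).toReal ≤ C * (δ * m) := by
      have := v3.trans hB1
      rw [div_mul_eq_mul_div, one_mul, div_le_iff₀ hC0] at this
      linarith
    have hcov : Ioo q (q + s) ⊆ (Ioo a₀ b₀ \ A₀) ∪ B := by
      intro y hy
      by_cases hyA : y ∈ A₀
      · exact Or.inr ⟨hy, hcon y hy hyA⟩
      · exact Or.inl ⟨(hJ y hy).1, hyA⟩
    have hle : volume (Ioo q (q + s)) ≤ volume (Ioo a₀ b₀ \ A₀) + volume B :=
      (measure_mono hcov).trans (measure_union_le _ _)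
    have hle2 := ENNReal.toReal_mono (ENNReal.add_ne_top.2 ⟨hfin0, hBf⟩) hle
    rw [Real.volume_Ioo, ENNReal.toReal_ofReal (by linarith), ENNReal.toReal_add hfin0 hBf] at hle2
    have hδm : 0 < δ * m := by positivity
    have : s = 4 * C * (δ * m) := by rw [hs]; ring
    exact n6_ABS C (δ * m) s hC1 hδm this (by linarith)
  obtain ⟨y, hy, hyA, hkyA⟩ := hgood
  obtain ⟨-, hy13⟩ := hiso y hyA hkyA
  obtain ⟨g1, g2⟩ := hJ y hy
  -- (3)
  have hyI : y ∈ Icc c₀ d₀ := ⟨by linarith [g1.1], by linarith [g1.2]⟩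
  have hkyI : k y ∈ Icc c₁ d₁ := ⟨by linarith [g2.1], by linarith [g2.2]⟩
  have h20 := (hdis ξ hξI y hyI hkξI hkyI).2
  have h21 := log2_ABS (deriv k ξ) (deriv k y) hξ9 (hpos y) hy13
  have h22 : 5 / 18 ≤ |Real.log (deriv k ξ) - Real.log (deriv k y)| := h21.trans (le_abs_self _)
  have hξy : ξ < y := by linarith [hξ.2, hy.1]
  have hδm : 0 < δ * m := by positivity
  have h23 : y - ξ ≤ 5 * C * (δ * m) := by
    have g3 : y - ξ ≤ s + (q - p) := by linarith [hy.2, hξ.1]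
    have g4 : s = 4 * C * (δ * m) := by rw [hs]; ring
    exact n7_ABS C (δ * m) s (y - ξ) hC1 hδm g4 (by linarith)
  have h24 := (hlip ξ y hξy hξI.1 hyI.2 hkξI.1 hkyI.2).1
  have hkξy : k ξ < k y := hmono hξy
  have h25 : |ξ - y| = y - ξ := by rw [abs_sub_comm]; exact abs_of_pos (by linarith)
  have h26 : |k ξ - k y| = k y - k ξ := by rw [abs_sub_comm]; exact abs_of_pos (by linarith)
  rw [h25, h26] at h20
  have h27 : 5 / 18 * l ≤ M * ((y - ξ) + (k y - k ξ)) :=
    (mul_le_mul_of_nonneg_right h22 hlpos.le).trans h20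
  have h28 : M * ((y - ξ) + (k y - k ξ)) ≤ M * ((1 + C) * (5 * C * (δ * m))) := by
    refine mul_le_mul_of_nonneg_left ?_ (by linarith)
    have g3 : C * (y - ξ) ≤ C * (5 * C * (δ * m)) := mul_le_mul_of_nonneg_left h23 hC0.le
    have g4 : (1 + C) * (5 * C * (δ * m)) = 5 * C * (δ * m) + C * (5 * C * (δ * m)) := by ring
    rw [g4]
    linarith
  have h29 : M * ((1 + C) * (5 * C * (δ * m))) ≤ m / 10 := n4_ABS M C δ m hM hC1 hδ0 hδe hmpos
  linarith

end Pool.Agent.Helper39.HS
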