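import Pool.Agent.Helper39.HS.St2

set_option autoImplicit false

namespace Pool.Agent.Helper39.HS

open Set MeasureTheory Pool.Agent.Helper82.HG Pool.Agent.Helper82.HC Pool.Agent.Helper21.HN

theorem tANC : StGEO → StCST → StLMN → StANC := by
  intro hGEO hCST hLMN K S Λ G P L h m hB t Q R hQ hR hQR
  obtain ⟨g1, g2, g3, g4, g5, g6⟩ := hGEO K S Λ hB.gens hB.lam
  obtain ⟨c1, c2, c3, c4, c5, c6, c7⟩ := hCST K S Λ hB.gens hB.lam P hB.pair
  have hLM : ∀ Q R, Sta S P Q → Sta S P R → cst S P Q < 25 * L → cst S P R < 25 * L →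
      Nst Q R → 8 * span Q ≤ 5 * span R := fun Q R hQ hR a b hn =>
    ((hLMN K S Λ G P L h m hB Q R hQ hR a b).2 hn).2
  have hQp : IsPair Λ Q := (c1 Q hQ).1
  have hspos : 0 < span Q := by
    have := g1 Q hQp
    linarith [this.1, this.2.1]
  constructor
  · intro ht hRt
    let A : Set ℝ := {x | ∃ R', Sta S P R' ∧ cst S P R' < t ∧ Nst Q R' ∧ x = span R'}
    have hne : A.Nonempty := ⟨span R, R, hR, hRt, hQR, rfl⟩
    have hlb : ∀ x ∈ A, span Q ≤ x := by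
      rintro x ⟨R', hR', _, hn, rfl⟩
      exact (g2 Q R' hQp (c1 R' hR').1 hn).2.2.2
    have hbdd : BddBelow A := ⟨span Q, hlb⟩
    have hσ : span Q ≤ sInf A := le_csInf hne hlb
    obtain ⟨x, hxA, hx⟩ : ∃ x ∈ A, x < 8 / 5 * sInf A :=
      exists_lt_of_csInf_lt hne (by linarith)
    obtain ⟨R', hR', hR't, hQR', rfl⟩ := hxA
    refine ⟨R', hR', hR't, hQR', ?_⟩
    intro D hD hDt hQD hDR'
    have h1 := hLM D R' hD hR' (by linarith) (by linarith) hDR'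
    have h2 : sInf A ≤ span D := csInf_le hbdd ⟨D, hD, hDt, hQD, rfl⟩
    linarith
  · intro ht hRt
    let A : Set ℝ := {x | ∃ R', Sta S P R' ∧ cst S P R' ≤ t ∧ Nst Q R' ∧ x = span R'}
    have hne : A.Nonempty := ⟨span R, R, hR, hRt, hQR, rfl⟩
    have hub : ∀ x ∈ A, x ≤ h := by
      rintro x ⟨R', hR', hc, hn, rfl⟩
      obtain ⟨g, c, hw, hlt, rfl⟩ := (c2 R' (25 * L) hR').1 (lt_of_le_of_lt hc ht)
      exact hB.sml g c hw hlt.le
    have hbdd : BddAbove A := ⟨h, hub⟩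
    have hRA : span R ∈ A := ⟨R, hR, hRt, hQR, rfl⟩
    have hσ : span R ≤ sSup A := le_csSup hbdd hRA
    have hσQ : span Q ≤ span R := (g2 Q R hQp (c1 R hR).1 hQR).2.2.2
    obtain ⟨x, hxA, hx⟩ : ∃ x ∈ A, 5 / 8 * sSup A < x :=
      exists_lt_of_lt_csSup hne (by linarith)
    obtain ⟨R', hR', hR't, hQR', rfl⟩ := hxA
    refine ⟨R', hR', hR't, hQR', ?_⟩
    intro D hD hDt hR'D
    have h1 := hLM R' D hR' hD (by linarith) (by linarith) hR'D
    have hn : Nst Q D := g4 Q R' D hQp (c1 R' hR').1 (c1 D hD).1 hQR' hR'D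
    have h2 : span D ≤ sSup A := le_csSup hbdd ⟨D, hD, hDt, hn, rfl⟩
    linarith

end Pool.Agent.Helper39.HS
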