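import Pool.Agent.Helper39.HS.St3

/-!
# Project HS, module BIG: the cheap states of a small system cover a set of definite measure
-/

set_option autoImplicit false

namespace Pool.Agent.Helper39.HS

open Set MeasureTheory Filter Topology Pool.Agent.Helper82.HG Pool.Agent.Helper82.HC
  Pool.Agent.Helper21.HN

private theorem add_one_BIG (S : Set (Equiv.Perm ℝ)) (Λ : Set ℝ)
    (h1 : ∀ g ∈ Gr S, ∀ x, g x ∈ Λ ↔ x ∈ Λ) (x : ℝ) : x + 1 ∈ Λ ↔ x ∈ Λ := by
  have hT : T ∈ Gr S := Subgroup.subset_closure (Set.mem_insert _ _)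
  have := h1 T hT x
  simpa [T] using this

private theorem shift_BIG (S : Set (Equiv.Perm ℝ)) (Λ : Set ℝ)
    (h1 : ∀ g ∈ Gr S, ∀ x, g x ∈ Λ ↔ x ∈ Λ) : (fun x : ℝ => x + 1) '' Λ = Λ := by
  ext y
  constructor
  · rintro ⟨x, hxm, rfl⟩
    exact (add_one_BIG S Λ h1 x).2 hxm
  · intro hy
    refine ⟨y - 1, ?_, by ring⟩
    apply (add_one_BIG S Λ h1 (y - 1)).1
    simpa using hy

private theorem per_BIG (S : Set (Equiv.Perm ℝ)) (Λ : Set ℝ) (h : ℝ)
    (h1 : ∀ g ∈ Gr S, ∀ x, g x ∈ Λ ↔ x ∈ Λ) (x : ℝ) :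
    x ∈ Metric.cthickening h Λ ↔ x + 1 ∈ Metric.cthickening h Λ := by
  have him := shift_BIG S Λ h1
  have hiso : Isometry (fun x : ℝ => x + 1) := isometry_add_right 1
  have h2 : Metric.infEDist (x + 1) Λ = Metric.infEDist x Λ := by
    have h3 := Metric.infEDist_image (x := x) (t := Λ) hiso
    rw [him] at h3
    exact h3
  rw [Metric.mem_cthickening_iff, Metric.mem_cthickening_iff, h2]

private theorem open_BIG (S : Set (Equiv.Perm ℝ)) (P : PG) (t : ℝ) : IsOpen (Un S P t) := by
  have : Un S P t = ⋃ Q ∈ {Q | Sta S P Q ∧ cst S P Q < t}, core Q := by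
    ext x
    simp only [Un, mem_ofPred_eq, mem_iUnion, exists_prop, and_assoc]
  rw [this]
  exact isOpen_biUnion fun Q _ => isOpen_Ioo

private theorem un_add_BIG {S : Set (Equiv.Perm ℝ)} {P : PG} {t : ℝ}
    (c4 : ∀ Q (m : ℤ), Sta S P Q → Sta S P (sh m Q) ∧ cst S P (sh m Q) = cst S P Q) (m : ℤ)
    {x : ℝ} (hx : x ∈ Un S P t) : x + m ∈ Un S P t := by
  obtain ⟨Q, hQ, hc, hxQ⟩ := hx
  obtain ⟨h1, h2⟩ := c4 Q m hQ
  refine ⟨sh m Q, h1, by rw [h2]; exact hc, ?_⟩
  obtain ⟨h3, h4⟩ := hxQ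
  exact ⟨by simp only [sh]; linarith, by simp only [sh]; linarith⟩

theorem tBIG : StLAM → StACT → StPAC → StCST → StFAR → StTHK → StFNL → StBIG := by
  intro hLAM _ _ hCST hFAR hTHK hFNL K S Λ hK hG hL L e hL0 hKL he
  obtain ⟨η, hη, hfar⟩ := hFAR K S Λ hG hL
  obtain ⟨r, hr, hthk⟩ := hTHK Λ hL.closed e he
  obtain ⟨h1, -⟩ := hLAM K S Λ hG hL
  refine ⟨min (η / 2) (min (L / 200) r), by positivity, ?_⟩
  intro G P h th hSys hh
  by_contra hcon
  have hcon' := not_le.1 hcon
  have hh1 : h ≤ η / 2 := hh.trans (min_le_left _ _)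
  have hh2 : h ≤ L / 200 := hh.trans ((min_le_right _ _).trans (min_le_left _ _))
  have hh3 : h ≤ r := hh.trans ((min_le_right _ _).trans (min_le_right _ _))
  obtain ⟨c1, c2, c3, c4, -⟩ := hCST K S Λ hG hL P hSys.pair
  have hB : Bse K S Λ G P L h (L / 200) := by
    refine ⟨hK, hG, hL, hL0, hKL, hSys.h0, by linarith, by linarith, ?_, hSys.pair, hSys.mem1,
      hSys.mem2, hSys.gact, hSys.ggap, hSys.psi, ?_⟩
    · refine ⟨Un S P (25 * L) ∪ (Metric.cthickening h Λ \ Λ), ?_, ?_, ?_, ?_, ?_⟩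
      · exact (open_BIG S P _).measurableSet.union
          (Metric.isClosed_cthickening.measurableSet.diff hL.closed.measurableSet)
      · intro x
        have e1 : x ∈ Un S P (25 * L) ↔ x + 1 ∈ Un S P (25 * L) := by
          constructor
          · intro hx
            have := un_add_BIG c4 1 hx
            simpa using this
          · intro hx
            have := un_add_BIG c4 (-1) hx
            simpa using this
        have e2 := per_BIG S Λ h h1 x
        have e3 := add_one_BIG S Λ h1 x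
        simp only [mem_union, Set.mem_sdiff, ← e1, ← e2, e3]
      · have hfin1 : volume (Un S P (25 * L) ∩ Icc (0 : ℝ) 1) ≠ ⊤ :=
          ((measure_mono inter_subset_right).trans_lt (by simp)).ne
        have hfin2 : volume ((Metric.cthickening h Λ \ Λ) ∩ Icc (0 : ℝ) 1) ≠ ⊤ :=
          ((measure_mono inter_subset_right).trans_lt (by simp)).ne
        rw [union_inter_distrib_right]
        have h5 := measure_union_le (μ := volume) (Un S P (25 * L) ∩ Icc (0 : ℝ) 1)
          ((Metric.cthickening h Λ \ Λ) ∩ Icc (0 : ℝ) 1)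
        have h6 := ENNReal.toReal_mono (ENNReal.add_ne_top.2 ⟨hfin1, hfin2⟩) h5
        rw [ENNReal.toReal_add hfin1 hfin2] at h6
        have h7 := hthk h hSys.h0 hh3
        linarith
      · intro V hV x hx
        right
        obtain ⟨g1, g2, g3, g4⟩ := hSys.ggap V hV
        refine ⟨?_, ?_⟩
        · apply Metric.mem_cthickening_of_dist_le x V.1 h Λ g2
          have := hSys.glen V hV
          rw [Real.dist_eq, abs_of_pos (by linarith [hx.1])]
          linarith [hx.2]
        · intro hxΛ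
          have : x ∈ Ioo V.1 V.2 ∩ Λ := ⟨hx, hxΛ⟩
          rw [g4] at this
          exact this
      · intro Q hQ hc x hx
        left
        exact ⟨Q, hQ, hc, hx⟩
    · intro g c hw hc
      apply hSys.sml g c hw
      have hK0 : 0 ≤ K := by linarith
      have := mul_le_mul_of_nonneg_left hc (show 0 ≤ 400 * K by linarith)
      linarith
  obtain ⟨g, hg, hgη⟩ := hfar P hSys.pair
  have := hFNL K S Λ G P L h (L / 200) hB g hg
  linarith

end Pool.Agent.Helper39.HS
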