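import Pool.Agent.Helper39.HS.St3

/-! # HS module CMP: the complement has definite mass in intervals of definite length -/

set_option autoImplicit false

namespace Pool.Agent.Helper39.HS

open Set MeasureTheory Filter Topology Pool.Agent.Helper82.HG Pool.Agent.Helper82.HC
  Pool.Agent.Helper21.HN

private lemma int_CMP (N : Set ℝ) (hN : ∀ x, x ∈ N ↔ x + 1 ∈ N) (n : ℤ) (x : ℝ) :
    x ∈ N ↔ x + n ∈ N := by
  induction n using Int.induction_on with
  | zero => simp
  | succ n ih =>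
    rw [ih, hN (x + ((n : ℤ) : ℝ))]
    push_cast
    rw [add_assoc]
  | pred n ih =>
    rw [ih, hN (x + ((-(n : ℤ) - 1 : ℤ) : ℝ))]
    push_cast
    rw [show x + (-(n : ℝ) - 1) + 1 = x + -(n : ℝ) by ring]

/-- the complement has mass at least `φ` in all intervals of length `r` -/
private lemma low_CMP (Λ : Set ℝ) (hc : IsClosed Λ) (hT : ∀ x, x ∈ Λ ↔ x + 1 ∈ Λ)
    (hint : interior Λ = ∅) (r : ℝ) (hr : 0 < r) :
    ∃ φ : ℝ, 0 < φ ∧ ∀ s : ℝ, φ ≤ (volume (Icc s (s + r) \ Λ)).toReal := by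
  obtain ⟨n, hn⟩ := exists_nat_gt (2 / r)
  have hn0 : (0 : ℝ) < n := lt_trans (by positivity) hn
  have hnr : 2 / (n : ℝ) < r := by
    rw [div_lt_iff₀ hr] at hn
    rw [div_lt_iff₀ hn0]
    linarith
  have hnpos : 0 < n := by exact_mod_cast hn0
  obtain ⟨I, hI⟩ : ∃ I : ℤ → Set ℝ, I = fun k : ℤ => Ioo ((k : ℝ) / n) (((k : ℝ) + 1) / n) := ⟨_, rfl⟩
  have hfin : ∀ k, volume (I k \ Λ) ≠ ⊤ := by
    intro k
    refine ne_top_of_le_ne_top ?_ (measure_mono sdiff_subset)
    rw [hI]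
    simp only [Real.volume_Ioo]
    exact ENNReal.ofReal_ne_top
  have hpos : ∀ k, 0 < (volume (I k \ Λ)).toReal := by
    intro k
    refine ENNReal.toReal_pos ?_ (hfin k)
    have ho : IsOpen (I k \ Λ) := by
      rw [hI]
      exact isOpen_Ioo.sdiff hc
    refine (ho.measure_pos volume ?_).ne'
    by_contra hcon
    rw [Set.not_nonempty_iff_eq_empty, Set.sdiff_eq_empty] at hcon
    have h1 : I k ⊆ interior Λ := interior_maximal hcon (by rw [hI]; exact isOpen_Ioo)
    rw [hint] at h1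
    have h2 : ((k : ℝ) / n + ((k : ℝ) + 1) / n) / 2 ∈ I k := by
      have h3 : (k : ℝ) / n < ((k : ℝ) + 1) / n := by
        gcongr
        linarith
      rw [hI]
      exact ⟨by linarith, by linarith⟩
    exact h1 h2
  have hne : (Finset.range n).Nonempty := Finset.nonempty_range_iff.2 hnpos.ne'
  refine ⟨(Finset.range n).inf' hne (fun j => (volume (I (j : ℤ) \ Λ)).toReal), ?_, ?_⟩
  · rw [Finset.lt_inf'_iff]
    intro j _
    exact hpos _
  · intro s
    obtain ⟨k, hk⟩ : ∃ k : ℤ, k = ⌈s * n⌉ := ⟨_, rfl⟩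
    have hk1 : s * n ≤ k := by rw [hk]; exact Int.le_ceil _
    have hk2 : (k : ℝ) < s * n + 1 := by rw [hk]; exact Int.ceil_lt_add_one _
    obtain ⟨j, hj⟩ : ∃ j : ℕ, (j : ℤ) = k % n :=
      ⟨(k % n).toNat, Int.toNat_of_nonneg (Int.emod_nonneg _ (by exact_mod_cast hnpos.ne'))⟩
    have hjn : j < n := by
      have := Int.emod_lt_of_pos k (show (0 : ℤ) < n by exact_mod_cast hnpos)
      rw [← hj] at this
      exact_mod_cast this
    obtain ⟨m, hm⟩ : ∃ m : ℤ, m = k / n := ⟨_, rfl⟩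
    have hkm : (k : ℝ) = j + n * m := by
      have h := Int.emod_add_mul_ediv k n
      rw [← hj, ← hm] at h
      exact_mod_cast h.symm
    have hsub : (fun x : ℝ => x + ((-m : ℤ) : ℝ)) ⁻¹' (I (j : ℤ) \ Λ) ⊆ Icc s (s + r) \ Λ := by
      rintro x ⟨hx1, hx2⟩
      refine ⟨?_, ?_⟩
      · rw [hI] at hx1
        obtain ⟨a1, a2⟩ := hx1
        simp only [Int.cast_natCast, Int.cast_neg] at a1 a2
        rw [div_lt_iff₀ hn0] at a1
        rw [lt_div_iff₀ hn0] at a2
        constructor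
        · have : s * n ≤ x * n := by nlinarith
          exact le_of_mul_le_mul_right this hn0
        · have h2 : x * n ≤ (s + 2 / n) * n := by
            rw [add_mul, div_mul_cancel₀ _ hn0.ne']
            nlinarith
          have := le_of_mul_le_mul_right h2 hn0
          linarith
      · intro hxL
        exact hx2 ((int_CMP Λ hT (-m) x).1 hxL)
    have hmeas : volume ((fun x : ℝ => x + ((-m : ℤ) : ℝ)) ⁻¹' (I (j : ℤ) \ Λ)) =
        volume (I (j : ℤ) \ Λ) := measure_preimage_add_right _ _ _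
    refine (Finset.inf'_le _ (Finset.mem_range.2 hjn)).trans ?_
    rw [← hmeas]
    refine ENNReal.toReal_mono ?_ (measure_mono hsub)
    refine ne_top_of_le_ne_top ?_ (measure_mono sdiff_subset)
    rw [Real.volume_Icc]
    exact ENNReal.ofReal_ne_top

theorem tCMP : StLAM → StCMP := by
  intro hLAM K S Λ hg hl r hr
  obtain ⟨hinv, hint, -, -, -, -, -, -⟩ := hLAM K S Λ hg hl
  have hT : ∀ x : ℝ, x ∈ Λ ↔ x + 1 ∈ Λ := by
    intro x
    have hTm : T ∈ Gr S := Subgroup.subset_closure (mem_insert _ _)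
    have := hinv T hTm x
    rw [← this]
    rfl
  obtain ⟨φ, hφ, hlow⟩ := low_CMP Λ hl.closed hT hint (r / 2) (by linarith)
  refine ⟨φ, hφ, fun s => (hlow (s + r / 4)).trans ?_⟩
  refine ENNReal.toReal_mono ?_ (measure_mono ?_)
  · refine ne_top_of_le_ne_top ?_ (measure_mono sdiff_subset)
    rw [Real.volume_Ioo]
    exact ENNReal.ofReal_ne_top
  · rintro x ⟨hx1, hx2⟩
    exact ⟨⟨by linarith [hx1.1], by linarith [hx1.2]⟩, hx2⟩

end Pool.Agent.Helper39.HS
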