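import Pool.Agent.Helper39.HS.St3

set_option autoImplicit false

namespace Pool.Agent.Helper39.HS

open Set MeasureTheory Filter Topology Pool.Agent.Helper82.HG Pool.Agent.Helper82.HC
  Pool.Agent.Helper21.HN

private lemma int_CNC (N : Set ℝ) (hN : ∀ x, x ∈ N ↔ x + 1 ∈ N) (n : ℤ) (x : ℝ) :
    x ∈ N ↔ x + n ∈ N := by
  induction n using Int.induction_on with
  | zero => simp
  | succ n ih =>
    rw [ih, hN (x + ((n : ℤ) : ℝ))]
    push_cast
    rw [add_assoc]
  | pred n ih =>
    rw [ih, hN (x + ((-(n : ℤ) - 1 : ℤ) : ℝ))]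
    push_cast
    rw [show x + (-(n : ℝ) - 1) + 1 = x + -(n : ℝ) by ring]

/-- the complement has mass at least `φ` in all intervals of length `r` -/
private lemma low_CNC (Λ : Set ℝ) (hc : IsClosed Λ) (hT : ∀ x, x ∈ Λ ↔ x + 1 ∈ Λ)
    (hint : interior Λ = ∅) (r : ℝ) (hr : 0 < r) :
    ∃ φ : ℝ, 0 < φ ∧ ∀ s : ℝ, φ ≤ (volume (Icc s (s + r) \ Λ)).toReal := by
  obtain ⟨n, hn⟩ := exists_nat_gt (2 / r)
  have hn0 : (0 : ℝ) < n := lt_trans (by positivity) hn
  have hnr : 2 / (n : ℝ) < r := by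
    rw [div_lt_iff₀ hr] at hn
    rw [div_lt_iff₀ hn0]
    linarith
  have hnpos : 0 < n := by exact_mod_cast hn0
  obtain ⟨I, hI⟩ : ∃ I : ℤ → Set ℝ, I = fun k : ℤ => Ioo ((k : ℝ) / n) (((k : ℝ) + 1) / n) := ⟨_, rfl⟩
  have hfin : ∀ k, volume (I k \ Λ) ≠ ⊤ := by
    intro k
    refine ne_top_of_le_ne_top ?_ (measure_mono sdiff_subset)
    rw [hI]
    simp only [Real.volume_Ioo]
    exact ENNReal.ofReal_ne_top
  have hpos : ∀ k, 0 < (volume (I k \ Λ)).toReal := by
    intro k
    refine ENNReal.toReal_pos ?_ (hfin k)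
    have ho : IsOpen (I k \ Λ) := by
      rw [hI]
      exact isOpen_Ioo.sdiff hc
    refine (ho.measure_pos volume ?_).ne'
    by_contra hcon
    rw [Set.not_nonempty_iff_eq_empty, Set.sdiff_eq_empty] at hcon
    have h1 : I k ⊆ interior Λ := interior_maximal hcon (by rw [hI]; exact isOpen_Ioo)
    rw [hint] at h1
    have h2 : ((k : ℝ) / n + ((k : ℝ) + 1) / n) / 2 ∈ I k := by
      have h3 : (k : ℝ) / n < ((k : ℝ) + 1) / n := by
        gcongr
        linarith
      rw [hI]
      exact ⟨by linarith, by linarith⟩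
    exact h1 h2
  have hne : (Finset.range n).Nonempty := Finset.nonempty_range_iff.2 hnpos.ne'
  refine ⟨(Finset.range n).inf' hne (fun j => (volume (I (j : ℤ) \ Λ)).toReal), ?_, ?_⟩
  · rw [Finset.lt_inf'_iff]
    intro j _
    exact hpos _
  · intro s
    obtain ⟨k, hk⟩ : ∃ k : ℤ, k = ⌈s * n⌉ := ⟨_, rfl⟩
    have hk1 : s * n ≤ k := by rw [hk]; exact Int.le_ceil _
    have hk2 : (k : ℝ) < s * n + 1 := by rw [hk]; exact Int.ceil_lt_add_one _
    obtain ⟨j, hj⟩ : ∃ j : ℕ, (j : ℤ) = k % n :=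
      ⟨(k % n).toNat, Int.toNat_of_nonneg (Int.emod_nonneg _ (by exact_mod_cast hnpos.ne'))⟩
    have hjn : j < n := by
      have := Int.emod_lt_of_pos k (show (0 : ℤ) < n by exact_mod_cast hnpos)
      rw [← hj] at this
      exact_mod_cast this
    obtain ⟨m, hm⟩ : ∃ m : ℤ, m = k / n := ⟨_, rfl⟩
    have hkm : (k : ℝ) = j + n * m := by
      have h := Int.emod_add_mul_ediv k n
      rw [← hj, ← hm] at h
      exact_mod_cast h.symm
    have hsub : (fun x : ℝ => x + ((-m : ℤ) : ℝ)) ⁻¹' (I (j : ℤ) \ Λ) ⊆ Icc s (s + r) \ Λ := by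
      rintro x ⟨hx1, hx2⟩
      refine ⟨?_, ?_⟩
      · rw [hI] at hx1
        obtain ⟨a1, a2⟩ := hx1
        simp only [Int.cast_natCast, Int.cast_neg] at a1 a2
        rw [div_lt_iff₀ hn0] at a1
        rw [lt_div_iff₀ hn0] at a2
        constructor
        · have : s * n ≤ x * n := by nlinarith
          exact le_of_mul_le_mul_right this hn0
        · have h2 : x * n ≤ (s + 2 / n) * n := by
            rw [add_mul, div_mul_cancel₀ _ hn0.ne']
            nlinarith
          have := le_of_mul_le_mul_right h2 hn0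
          linarith
      · intro hxL
        exact hx2 ((int_CNC Λ hT (-m) x).1 hxL)
    have hmeas : volume ((fun x : ℝ => x + ((-m : ℤ) : ℝ)) ⁻¹' (I (j : ℤ) \ Λ)) =
        volume (I (j : ℤ) \ Λ) := measure_preimage_add_right _ _ _
    refine (Finset.inf'_le _ (Finset.mem_range.2 hjn)).trans ?_
    rw [← hmeas]
    refine ENNReal.toReal_mono ?_ (measure_mono hsub)
    refine ne_top_of_le_ne_top ?_ (measure_mono sdiff_subset)
    rw [Real.volume_Icc]
    exact ENNReal.ofReal_ne_top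

theorem tCNC : StBAS → StLAM → StVOL → StCNC := by
  intro hBAS hLAM hVOL K S Λ hg hl
  obtain ⟨hinv, hint, -, -, -, -, -, -⟩ := hLAM K S Λ hg hl
  have hT : ∀ x : ℝ, x ∈ Λ ↔ x + 1 ∈ Λ := by
    intro x
    have hTm : T ∈ Gr S := Subgroup.subset_closure (mem_insert _ _)
    have := hinv T hTm x
    rw [← this]
    rfl
  have hae := IsUnifLocDoublingMeasure.ae_tendsto_measure_inter_div (volume : Measure ℝ) Λ 1
  filter_upwards [hae] with x hx
  rintro ⟨r, C, hr, hcon⟩
  obtain ⟨φ, hφ, hlow⟩ := low_CNC Λ hl.closed hT hint r hr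
  have hch : ∀ n : ℕ, ∃ g ∈ Gr S, ∃ p q : ℝ, p < x ∧ x < q ∧ q - p ≤ 1 / ((n : ℝ) + 2) ∧
      r ≤ |g q - g p| ∧ ∀ y ∈ Icc p q, ∀ z ∈ Icc p q, |deriv g y| ≤ C * |deriv g z| :=
    fun n => hcon _ (by positivity)
  choose g hgm p q hp hq hpq hrg hdis using hch
  have hδ0 : ∀ n, 0 < (q n - p n) / 2 := fun n => by linarith [hp n, hq n]
  have ht0 : Tendsto (fun n : ℕ => (q n - p n) / 2) atTop (𝓝[>] 0) := by
    refine tendsto_nhdsWithin_iff.2 ⟨?_, Eventually.of_forall fun n => hδ0 n⟩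
    refine squeeze_zero (fun n => (hδ0 n).le) (g := fun n : ℕ => 1 / ((n : ℝ) + 1)) ?_
      tendsto_one_div_add_atTop_nhds_zero_nat
    intro n
    have h1 := hpq n
    have h2 : 1 / ((n : ℝ) + 2) ≤ 1 / ((n : ℝ) + 1) := by
      gcongr
      linarith
    have := hδ0 n
    linarith
  have hball : ∀ n, Metric.closedBall ((p n + q n) / 2) ((q n - p n) / 2) = Icc (p n) (q n) := by
    intro n
    rw [Real.closedBall_eq_Icc]
    congr 1 <;> ring
  have htt := hx (fun n : ℕ => (p n + q n) / 2) (fun n : ℕ => (q n - p n) / 2) ht0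
    (Eventually.of_forall fun n => by
      rw [one_mul, hball]
      exact ⟨(hp n).le, (hq n).le⟩)
  have hC : 0 < C := by
    have hb := hBAS K S hg (g 0) (hgm 0)
    have h1 := hdis 0 x ⟨(hp 0).le, (hq 0).le⟩ x ⟨(hp 0).le, (hq 0).le⟩
    have h2 : 0 < |deriv (g 0) x| := abs_pos.2 (hb.2.1 x)
    by_contra hcc
    push Not at hcc
    have : C * |deriv (g 0) x| ≤ 0 := mul_nonpos_of_nonpos_of_nonneg hcc h2.le
    linarith
  obtain ⟨e, he⟩ : ∃ e : ℝ, e = min (1 / 2) (φ / (2 * C)) := ⟨_, rfl⟩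
  have he0 : 0 < e := by rw [he]; positivity
  have he1 : e ≤ 1 / 2 := by rw [he]; exact min_le_left _ _
  have heC : C * e < φ := by
    have h1 : e ≤ φ / (2 * C) := by rw [he]; exact min_le_right _ _
    calc C * e ≤ C * (φ / (2 * C)) := mul_le_mul_of_nonneg_left h1 hC.le
      _ = φ / 2 := by field_simp
      _ < φ := by linarith
  have hev : ∀ᶠ n in atTop, ENNReal.ofReal (1 - e) <
      volume (Λ ∩ Metric.closedBall ((p n + q n) / 2) ((q n - p n) / 2)) /
        volume (Metric.closedBall ((p n + q n) / 2) ((q n - p n) / 2)) := by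
    refine htt.eventually (lt_mem_nhds ?_)
    rw [ENNReal.ofReal_lt_one]
    linarith
  obtain ⟨n, hn⟩ := hev.exists
  rw [hball n] at hn
  have hd : 0 < q n - p n := by linarith [hp n, hq n]
  have hd1 : q n - p n < 1 := by
    have h1 := hpq n
    have h2 : 1 / ((n : ℝ) + 2) < 1 := by
      rw [div_lt_one (by positivity)]
      have : (0 : ℝ) ≤ n := Nat.cast_nonneg n
      linarith
    linarith
  have hvI : volume (Icc (p n) (q n)) = ENNReal.ofReal (q n - p n) := Real.volume_Icc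
  have hvfin : volume (Icc (p n) (q n)) ≠ ⊤ := by rw [hvI]; exact ENNReal.ofReal_ne_top
  have hLm : MeasurableSet Λ := hl.closed.measurableSet
  have hint1 : (1 - e) * (q n - p n) ≤ (volume (Λ ∩ Icc (p n) (q n))).toReal := by
    have h1 : ENNReal.ofReal (1 - e) * volume (Icc (p n) (q n)) ≤
        volume (Λ ∩ Icc (p n) (q n)) := by
      refine (ENNReal.le_div_iff_mul_le (Or.inl ?_) (Or.inl hvfin)).1 hn.le
      rw [hvI]
      exact (ENNReal.ofReal_pos.2 hd).ne'
    have h2 := ENNReal.toReal_mono (ne_top_of_le_ne_top hvfin (measure_mono inter_subset_right)) h1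
    rw [hvI, ← ENNReal.ofReal_mul (by linarith), ENNReal.toReal_ofReal (by
      apply mul_nonneg <;> linarith)] at h2
    exact h2
  have hsplit : (volume (Icc (p n) (q n) \ Λ)).toReal ≤ e * (q n - p n) := by
    have h1 := measure_inter_add_sdiff (μ := volume) (Icc (p n) (q n)) hLm
    have h2 : (volume (Icc (p n) (q n) ∩ Λ)).toReal + (volume (Icc (p n) (q n) \ Λ)).toReal =
        q n - p n := by
      rw [← ENNReal.toReal_add (ne_top_of_le_ne_top hvfin (measure_mono inter_subset_left))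
        (ne_top_of_le_ne_top hvfin (measure_mono sdiff_subset)), h1, hvI,
        ENNReal.toReal_ofReal hd.le]
    rw [inter_comm] at hint1
    linarith
  -- the image
  obtain ⟨hdiff, hder, hmono, d, hd', hdeg⟩ := hBAS K S hg (g n) (hgm n)
  have hone : |g n (q n) - g n (p n)| ≤ 1 := by
    have hlt : q n < p n + 1 := by linarith
    rcases hmono with hm | hm
    · have a1 := hm (show p n < q n by linarith)
      have a2 := hm hlt
      rw [hdeg] at a2
      rw [abs_of_pos (by linarith)]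
      rcases hd' with rfl | rfl <;> linarith
    · have a1 := hm (show p n < q n by linarith)
      have a2 := hm hlt
      rw [hdeg] at a2
      rw [abs_of_neg (by linarith)]
      rcases hd' with rfl | rfl <;> linarith
  obtain ⟨ξ, hξ, hξd⟩ := exists_deriv_eq_slope (⇑(g n)) (show p n < q n by linarith)
    hdiff.continuous.continuousOn hdiff.differentiableOn
  have hξ' : |deriv (⇑(g n)) ξ| = |g n (q n) - g n (p n)| / (q n - p n) := by
    rw [hξd, abs_div, abs_of_pos hd]
  obtain ⟨C', hC'⟩ : ∃ C' : ℝ, C' = C * (|g n (q n) - g n (p n)| / (q n - p n)) := ⟨_, rfl⟩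
  have hvol := hVOL (⇑(g n)) (Icc (p n) (q n) \ Λ) 0 C'
    (measurableSet_Icc.diff hLm) ((g n).injective.injOn) le_rfl (by
      rintro y ⟨hy, -⟩
      refine ⟨hdiff y, abs_nonneg _, ?_⟩
      rw [hC', ← hξ']
      exact hdis n y hy ξ ⟨hξ.1.le, hξ.2.le⟩)
    (ne_top_of_le_ne_top hvfin (measure_mono sdiff_subset))
  obtain ⟨-, hv2, -, hv4⟩ := hvol
  have hsub : Icc (min (g n (p n)) (g n (q n))) (min (g n (p n)) (g n (q n)) + r) \ Λ ⊆
      ⇑(g n) '' (Icc (p n) (q n) \ Λ) := by
    rintro z ⟨hz, hzL⟩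
    have hz' : z ∈ uIcc (g n (p n)) (g n (q n)) := by
      refine ⟨hz.1, hz.2.trans ?_⟩
      have h1 := hrg n
      have h2 : max (g n (p n)) (g n (q n)) - min (g n (p n)) (g n (q n)) =
          |g n (q n) - g n (p n)| := by
        rw [max_sub_min_eq_abs']
        exact abs_sub_comm _ _
      show _ ≤ max (g n (p n)) (g n (q n))
      linarith
    obtain ⟨y, hy, hyz⟩ := intermediate_value_uIcc (hdiff.continuous.continuousOn) hz'
    rw [uIcc_of_le (by linarith)] at hy
    refine ⟨y, ⟨hy, fun hyL => hzL ?_⟩, hyz⟩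
    rw [← hyz]
    exact (hinv (g n) (hgm n) y).2 hyL
  have hfin := hlow (min (g n (p n)) (g n (q n)))
  have h1 : (volume (Icc (min (g n (p n)) (g n (q n))) (min (g n (p n)) (g n (q n)) + r) \
      Λ)).toReal ≤ (volume (⇑(g n) '' (Icc (p n) (q n) \ Λ))).toReal :=
    ENNReal.toReal_mono hv2 (measure_mono hsub)
  have hC'0 : 0 ≤ C' := by rw [hC']; positivity
  have h2 : C' * (volume (Icc (p n) (q n) \ Λ)).toReal ≤ C * e := by
    calc C' * (volume (Icc (p n) (q n) \ Λ)).toReal ≤ C' * (e * (q n - p n)) :=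
          mul_le_mul_of_nonneg_left hsplit hC'0
      _ = C * e * |g n (q n) - g n (p n)| := by
          rw [hC']
          field_simp
      _ ≤ C * e * 1 := mul_le_mul_of_nonneg_left hone (by positivity)
      _ = C * e := mul_one _
  linarith

end Pool.Agent.Helper39.HS
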