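import Pool.Agent.Helper39.HS.St2

set_option autoImplicit false

namespace Pool.Agent.Helper39.HS

open Set MeasureTheory Pool.Agent.Helper82.HG Pool.Agent.Helper82.HC Pool.Agent.Helper21.HN

private lemma sh_sh_CON (k : ℤ) (X : PG) : sh k (sh (-k) X) = X := by
  obtain ⟨⟨c, a⟩, ⟨b, d⟩⟩ := X
  simp [sh]

private lemma sh_sh'_CON (k : ℤ) (X : PG) : sh (-k) (sh k X) = X := by
  obtain ⟨⟨c, a⟩, ⟨b, d⟩⟩ := X
  simp [sh]

private lemma nst_sh_CON (k : ℤ) (R X : PG) (h : Nst (sh k R) X) : Nst R (sh (-k) X) := by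
  obtain ⟨h1, h2, h3⟩ := h
  refine ⟨?_, ?_, fun e => h3 ?_⟩
  · have e1 : (sh k R).1.2 = R.1.2 + k := rfl
    have e2 : (sh (-k) X).1.2 = X.1.2 + ((-k : ℤ) : ℝ) := rfl
    rw [e1] at h1
    rw [e2]
    push_cast
    linarith
  · have e1 : (sh k R).2.1 = R.2.1 + k := rfl
    have e2 : (sh (-k) X).2.1 = X.2.1 + ((-k : ℤ) : ℝ) := rfl
    rw [e1] at h2
    rw [e2]
    push_cast
    linarith
  · rw [e, sh_sh_CON]

private lemma nst_sh'_CON (k : ℤ) (Q R : PG) (h : Nst Q (sh k R)) : Nst (sh (-k) Q) R := by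
  obtain ⟨h1, h2, h3⟩ := h
  refine ⟨?_, ?_, fun e => h3 ?_⟩
  · have e1 : (sh k R).1.2 = R.1.2 + k := rfl
    have e2 : (sh (-k) Q).1.2 = Q.1.2 + ((-k : ℤ) : ℝ) := rfl
    rw [e1] at h1
    rw [e2]
    push_cast
    linarith
  · have e1 : (sh k R).2.1 = R.2.1 + k := rfl
    have e2 : (sh (-k) Q).2.1 = Q.2.1 + ((-k : ℤ) : ℝ) := rfl
    rw [e1] at h2
    rw [e2]
    push_cast
    linarith
  · rw [← e, sh_sh_CON]

private lemma core_sh_CON (k : ℤ) (R : PG) :
    core (sh k R) = (fun x : ℝ => x + k) '' core R := by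
  unfold core
  rw [Set.image_add_const_Ioo]
  rfl

private lemma core_sub_CON (Q R : PG) (h : Nst Q R) : core Q ⊆ core R :=
  Ioo_subset_Ioo h.1 h.2.1

private lemma vol_core_CON (Q : PG) (h : 0 < mid Q) : (volume (core Q)).toReal = mid Q := by
  unfold core
  rw [Real.volume_Ioo, ENNReal.toReal_ofReal]
  · rfl
  · exact h.le

theorem tCON : StACT → StPAC → StGEO → StWAY → StNEA → StWTC → StCST → StCOV → StLMN →
    StREC → StMEA → StEGP → StLAB → StPRV → StCON := by
  intro hACT hPAC hGEO hWAY hNEA hWTC hCST hCOV hLMN hREC hMEA hEGP hLAB hPRV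
  intro K S Λ G P L h m B Q₀ hQ₀
  by_contra hcon
  rw [not_lt] at hcon
  have hL := B.L0
  have hP := B.pair
  obtain ⟨pac1, pac2, pac3, pac4, pac5, pac6, pac7⟩ := hPAC K S Λ B.gens B.lam
  obtain ⟨geo1, geo2, geo3, geo4, geo5, geo6⟩ := hGEO K S Λ B.gens B.lam
  obtain ⟨way1, way2, way3, way4⟩ := hWAY K S Λ B.gens B.lam P hP
  obtain ⟨cst1, cst2, cst3, cst4, cst5, cst6, cst7⟩ := hCST K S Λ B.gens B.lam P hP
  have hK := B.K1
  have hKL := B.KL
  -- labels
  obtain ⟨F, hF1, hF2, hF3⟩ := hLAB K S Λ G P L h m B ⟨Q₀, hQ₀, by linarith⟩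
  have hFpair : ∀ C ∈ F, IsPair Λ C := fun C hC => (cst1 C (hF1 C hC).1).1
  -- small spans
  have hspan : ∀ Q, Sta S P Q → 5 * cst S P Q < 4 * L → span Q ≤ h := by
    intro Q hQ hc
    obtain ⟨g, c, hw, hc', hQe⟩ := (cst2 Q (25 * L) hQ).1 (by linarith)
    rw [hQe]
    exact B.sml g c hw hc'.le
  -- covering
  have hcov := hCOV PG {Q | (0 ≤ Q.1.1 ∧ Q.1.1 < 1) ∧ Rcd S P L Q} (fun Q => cst S P Q)
    (fun Q => span Q) (2 / 5 * L) (4 / 5 * L) (by linarith)
    (by
      intro Q hQ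
      have h1 := geo1 Q (cst1 Q hQ.2.1).1
      linarith [h1.1, h1.2.1])
    (by
      intro t ht1 ht2
      obtain ⟨Q, hQ, h0, h1, hc1, hc2, hmax⟩ := hREC K S Λ G P L h m B t (by linarith)
        (by linarith) ⟨Q₀, hQ₀, by linarith⟩
      have hs := hspan Q hQ (by linarith)
      have hhL := B.hL
      refine ⟨Q, ⟨⟨h0, h1⟩, hQ, by linarith, by linarith, fun R hR hcR => hmax R hR (by linarith)⟩,
        hc1, hc2⟩)
  obtain ⟨s, hs1, hs2⟩ := hcov
  -- words
  have hword : ∀ Q ∈ s, ∃ g : Equiv.Perm ℝ, ∃ c : ℝ, Way S P g c ∧ 5 * c < 4 * L ∧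
      Q = pact g P := by
    intro Q hQ
    have hr := (hs1 Q hQ).2
    obtain ⟨g, c, hw, hc, he⟩ := (cst2 Q (4 / 5 * L) hr.1).1 (by linarith [hr.2.2.1])
    exact ⟨g, c, hw, by linarith, he⟩
  choose! u cc hu using hword
  have hsta : ∀ Q ∈ s, Sta S P Q := fun Q hQ => (hs1 Q hQ).2.1
  have hcheap : ∀ Q ∈ s, cst S P Q < 25 * L := fun Q hQ => by
    linarith [(hs1 Q hQ).2.2.2.1]
  have hgr : ∀ Q ∈ s, u Q ∈ Gr S := fun Q hQ => (way1 _ _ (hu Q hQ).1).1
  have hnst : ∀ Q ∈ s, ∀ C ∈ F, Nst (pact (u Q) C) Q := by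
    intro Q hQ C hC
    have h1 := pac5 (u Q) (hgr Q hQ) C P (hFpair C hC) hP (hF1 C hC).2.1
    rw [← (hu Q hQ).2.2] at h1
    exact h1
  -- the sets
  set U : PG → Set ℝ := fun Q => ⋃ C ∈ F, core (pact (u Q) C) with hU
  have hUmeas : ∀ Q, MeasurableSet (U Q) := by
    intro Q
    refine Finset.measurableSet_biUnion _ (fun C _ => ?_)
    exact measurableSet_Ioo
  have hUsub : ∀ Q ∈ s, U Q ⊆ core Q := by
    intro Q hQ
    exact Set.iUnion₂_subset (fun C hC => core_sub_CON _ _ (hnst Q hQ C hC))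
  -- records are invariant under translations
  have hrec : ∀ (k : ℤ) (R : PG), Rcd S P L R → Rcd S P L (sh k R) := by
    intro k R hR
    obtain ⟨h1, h2⟩ := cst4 R k hR.1
    refine ⟨h1, by rw [h2]; exact hR.2.1, by rw [h2]; exact hR.2.2.1, fun X hX hc hN => ?_⟩
    obtain ⟨h3, h4⟩ := cst4 X (-k) hX
    exact hR.2.2.2 (sh (-k) X) h3 (by rw [h4, ← h2]; exact hc) (nst_sh_CON k R X hN)
  -- the key disjointness inside a record
  have hkey : ∀ Q ∈ s, ∀ R, Rcd S P L R → Nst R Q → Disjoint (core R) (U Q) := by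
    intro Q hQ R hR hN
    rw [hU]
    simp only [Set.disjoint_iUnion_right]
    intro C hC
    exact hPRV K S Λ G P L h m B Q R C (u Q) (cc Q) (hs1 Q hQ).2 hR hN (hF1 C hC)
      (hu Q hQ).1 (hu Q hQ).2.1 (hu Q hQ).2.2
  have hmea := hMEA K S Λ G P L h m B s U
    (fun Q hQ => ⟨hsta Q hQ, hcheap Q hQ, hUmeas Q, hUsub Q hQ⟩)
    (by
      intro Q hQ R hR k hk
      have hUR : (fun x : ℝ => x + k) '' U R ⊆ core (sh k R) := by
        rw [core_sh_CON]
        exact Set.image_mono (hUsub R hR)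
      obtain ⟨hR1, hR2⟩ := cst4 R k (hsta R hR)
      by_cases hne : (core Q ∩ core (sh k R)).Nonempty
      · rcases (hLMN K S Λ G P L h m B Q (sh k R) (hsta Q hQ) hR1 (hcheap Q hQ)
          (by rw [hR2]; exact hcheap R hR)).1 hne with he | hN | hN
        · exfalso
          have e1 : Q.1.1 = R.1.1 + k := by rw [he]; rfl
          have hq := (hs1 Q hQ).1
          have hr := (hs1 R hR).1
          have hk1 : (k : ℝ) < 1 := by linarith [hq.2, hr.1]
          have hk2 : (-1 : ℝ) < k := by linarith [hq.1, hr.2]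
          have hk3 : k < 1 := by exact_mod_cast hk1
          have hk4 : -1 < k := by exact_mod_cast hk2
          have hk0 : k = 0 := by omega
          subst hk0
          have hQR : Q = R := by
            rw [he]
            obtain ⟨⟨c, a⟩, ⟨b, d⟩⟩ := R
            simp [sh]
          rcases hk with h1 | h1
          · exact h1 hQR
          · exact h1 rfl
        · -- Q nested in sh k R
          have hN' := nst_sh'_CON k Q R hN
          have hd := hkey R hR (sh (-k) Q) (hrec (-k) Q (hs1 Q hQ).2) hN'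
          have hd2 : Disjoint ((fun x : ℝ => x + k) '' core (sh (-k) Q))
              ((fun x : ℝ => x + k) '' U R) :=
            (Set.disjoint_image_iff (add_left_injective (k : ℝ))).2 hd
          rw [← core_sh_CON, sh_sh_CON] at hd2
          exact hd2.mono_left (hUsub Q hQ)
        · exact ((hkey Q hQ (sh k R) (hrec k R (hs1 R hR).2) hN).mono_left hUR).symm
      · have hd : Disjoint (core Q) (core (sh k R)) := by
          rw [Set.disjoint_iff_inter_eq_empty]
          exact Set.not_nonempty_iff_eq_empty.1 hne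
        exact hd.mono (hUsub Q hQ) hUR)
  -- the measure of `U Q`
  have hvol : ∀ Q ∈ s, mid Q ≤ 26 * (volume (U Q)).toReal := by
    intro Q hQ
    obtain ⟨hw, hc, hQe⟩ := hu Q hQ
    have hc0 : 0 ≤ cc Q := (way1 _ _ hw).2.1
    have hKc : 400 * K * cc Q ≤ 1 := by
      have h1 : K * cc Q ≤ K * L := mul_le_mul_of_nonneg_left (by linarith) (by linarith)
      nlinarith
    have hv : (volume (U Q)).toReal = ∑ C ∈ F, mid (pact (u Q) C) := by
      rw [hU]
      simp only
      rw [measure_biUnion_finset]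
      · rw [ENNReal.toReal_sum]
        · refine Finset.sum_congr rfl (fun C hC => ?_)
          exact vol_core_CON _ (geo1 _ (hACT K S Λ B.gens B.lam _ (hgr Q hQ) C (hFpair C hC)).1).1
        · intro C _
          unfold core
          rw [Real.volume_Ioo]
          exact ENNReal.ofReal_ne_top
      · intro C hC D hD hCD
        show Disjoint (core (pact (u Q) C)) (core (pact (u Q) D))
        rw [pac4 (u Q) (hgr Q hQ) C (hFpair C hC), pac4 (u Q) (hgr Q hQ) D (hFpair D hD)]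
        exact (Set.disjoint_image_iff (u Q).injective).2 (hF2 C hC D hD hCD)
      · intro C _
        exact measurableSet_Ioo
    have hspP : 0 < span P := by linarith [(geo1 P hP).1, (geo1 P hP).2.1]
    have hQpair := (cst1 Q (hsta Q hQ)).1
    have hspQ : 0 < span Q := by linarith [(geo1 Q hQpair).1, (geo1 Q hQpair).2.1]
    have hterm : ∀ C ∈ F, 100 * (span Q * mid C) ≤ 101 * (mid (pact (u Q) C) * span P) := by
      intro C hC
      have hCp := hFpair C hC
      have hn := geo2 C P hCp hP (hF1 C hC).2.1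
      have hg1 : C.1.1 < C.1.2 := hCp.1.1
      have hg2 : C.2.1 < C.2.2 := hCp.2.1.1
      have hg3 : C.1.2 ≤ C.2.1 := hCp.2.2.1
      have h1 := (hNEA K S Λ hK B.gens B.lam P (u Q) (cc Q) hP hw hKc C.2.1
        ⟨by linarith [hn.1], by linarith [hn.2.1]⟩ C.1.2
        ⟨by linarith [hn.1], by linarith [hn.2.1]⟩).2
      rw [← hQe] at h1
      have h2 := (hACT K S Λ B.gens B.lam _ (hgr Q hQ) C hCp).2.2.2.1
      have h3 : |C.2.1 - C.1.2| = mid C := by
        rw [abs_of_nonneg (by linarith)]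
        rfl
      rw [h2, ← h3]
      exact h1
    have hsum : 100 * (span Q * ∑ C ∈ F, mid C) ≤
        101 * ((volume (U Q)).toReal * span P) := by
      rw [hv, Finset.mul_sum, Finset.mul_sum, Finset.sum_mul, Finset.mul_sum]
      exact Finset.sum_le_sum (fun C hC => hterm C hC)
    have hwtc := ((hWTC K S Λ hK B.gens B.lam).2 P (u Q) (cc Q) hP hw hKc).1
    rw [← hQe] at hwtc
    -- combine
    have e1 : span Q * mid P ≤ 25 * (span Q * ∑ C ∈ F, mid C) := by
      have := mul_le_mul_of_nonneg_left hF3 hspQ.le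
      linarith
    have e2 : 4 * (span Q * mid P) ≤ 101 * ((volume (U Q)).toReal * span P) := by linarith
    have e3 : 400 * (mid Q * span P) ≤ 101 * 101 * ((volume (U Q)).toReal * span P) := by
      linarith
    have e4 : 0 ≤ (volume (U Q)).toReal := ENNReal.toReal_nonneg
    have e5 : (400 * mid Q) * span P ≤ (101 * 101 * (volume (U Q)).toReal) * span P := by
      linarith
    have e6 := le_of_mul_le_mul_right e5 hspP
    linarith
  have hegp := hEGP K S Λ G P L h m B s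
    (fun Q hQ => ⟨hsta Q hQ, hcheap Q hQ, (hs1 Q hQ).1.1, (hs1 Q hQ).1.2⟩)
  have hmid : ∑ Q ∈ s, mid Q ≤ 26 * ∑ Q ∈ s, (volume (U Q)).toReal := by
    rw [Finset.mul_sum]
    exact Finset.sum_le_sum (fun Q hQ => hvol Q hQ)
  have hsplit : ∑ Q ∈ s, span Q =
      ∑ Q ∈ s, mid Q + ∑ Q ∈ s, ((Q.1.2 - Q.1.1) + (Q.2.2 - Q.2.1)) := by
    rw [← Finset.sum_add_distrib]
    refine Finset.sum_congr rfl (fun Q _ => ?_)
    unfold span mid
    ring
  have hmL := B.mL
  rw [hsplit] at hs2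
  linarith

end Pool.Agent.Helper39.HS
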