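import Pool.Agent.Helper39.HS.St3

/-!
# MP_10ef18_an (Hector), project HS, module DEN: Lebesgue density on cores of states
-/

set_option autoImplicit false

namespace Pool.Agent.Helper39.HS

open Set MeasureTheory Filter Topology Pool.Agent.Helper82.HG Pool.Agent.Helper82.HC
  Pool.Agent.Helper21.HN

theorem tDEN (hGEO : StGEO) (hCST : StCST) : StDEN := by
  intro K S Λ hK hGens hLam G P h th t hSys hh ht Z hZ hZ0 hfr e N he
  have hK0 : 0 < K := by linarith
  obtain ⟨geo1, -⟩ := hGEO K S Λ hGens hLam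
  have key : ∀ n Q, Sta S (P n) Q → cst S (P n) Q < t → 0 < mid Q ∧ mid Q ≤ h n := by
    intro n Q hQ hc
    obtain ⟨c1, c2, -⟩ := hCST K S Λ hGens hLam (P n) (hSys n).pair
    obtain ⟨g1, g2, -⟩ := geo1 Q (c1 Q hQ).1
    obtain ⟨g, c, hw, hct, hQg⟩ := (c2 Q t hQ).1 hc
    have h3 : 400 * K * c ≤ 1 := by
      have : 400 * K * c ≤ 400 * K * t := by
        apply mul_le_mul_of_nonneg_left hct.le
        positivity
      linarith
    have h4 := (hSys n).sml g c hw h3
    rw [← hQg] at h4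
    exact ⟨g1, by linarith⟩
  have h1 := IsUnifLocDoublingMeasure.ae_tendsto_measure_inter_div (volume : Measure ℝ) Z 1
  have hne : ((volume : Measure ℝ).restrict Z) ≠ 0 := by
    rwa [Ne, Measure.restrict_eq_zero]
  haveI : (ae ((volume : Measure ℝ).restrict Z)).NeBot := ae_neBot.2 hne
  obtain ⟨x, hx, hxZ⟩ := (h1.and (ae_restrict_mem hZ)).exists
  have hex : ∀ n, ∃ Q : PG, x ∈ Un S (P n) t → (Sta S (P n) Q ∧ cst S (P n) Q < t ∧ x ∈ core Q) := by
    intro n
    by_cases hn : x ∈ Un S (P n) t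
    · obtain ⟨Q, hQ⟩ := hn
      exact ⟨Q, fun _ => hQ⟩
    · exact ⟨((0, 0), (0, 0)), fun h => absurd h hn⟩
  choose Q hQ using hex
  set U : Set ℕ := {n | x ∈ Un S (P n) t} with hU
  haveI hl : (atTop ⊓ 𝓟 U : Filter ℕ).NeBot := frequently_mem_iff_neBot.1 (hfr x hxZ)
  have hUl : ∀ᶠ n in (atTop ⊓ 𝓟 U : Filter ℕ), n ∈ U := mem_inf_of_right (mem_principal_self _)
  have hkey : ∀ n ∈ U, 0 < mid (Q n) ∧ mid (Q n) ≤ h n := fun n hn =>
    key n (Q n) (hQ n hn).1 (hQ n hn).2.1
  have hδ : Tendsto (fun n => mid (Q n) / 2) (atTop ⊓ 𝓟 U) (𝓝[>] 0) := by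
    rw [tendsto_nhdsWithin_iff]
    refine ⟨squeeze_zero' ?_ ?_ (hh.mono_left inf_le_left), ?_⟩
    · filter_upwards [hUl] with n hn
      have := (hkey n hn).1
      positivity
    · filter_upwards [hUl] with n hn
      have := hkey n hn
      linarith
    · filter_upwards [hUl] with n hn
      have := (hkey n hn).1
      exact half_pos this
  have hball : ∀ n ∈ U, core (Q n) ⊆
      Metric.closedBall (((Q n).1.2 + (Q n).2.1) / 2) (mid (Q n) / 2) := by
    intro n hn y hy
    rw [Real.closedBall_eq_Icc]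
    obtain ⟨y1, y2⟩ := hy
    constructor
    · show ((Q n).1.2 + (Q n).2.1) / 2 - mid (Q n) / 2 ≤ y
      unfold mid
      linarith
    · show y ≤ ((Q n).1.2 + (Q n).2.1) / 2 + mid (Q n) / 2
      unfold mid
      linarith
  have hT := hx (fun n => ((Q n).1.2 + (Q n).2.1) / 2) (fun n => mid (Q n) / 2) hδ (by
    filter_upwards [hUl] with n hn
    rw [one_mul]
    exact hball n hn (hQ n hn).2.2)
  have hlt : (1 : ENNReal) - ENNReal.ofReal e < 1 :=
    ENNReal.sub_lt_self ENNReal.one_ne_top one_ne_zero (ENNReal.ofReal_pos.2 he).ne'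
  have h2 := (tendsto_order.1 hT).1 _ hlt
  have h3 : ∀ᶠ n in (atTop ⊓ 𝓟 U : Filter ℕ), N ≤ n :=
    (eventually_ge_atTop N).filter_mono inf_le_left
  obtain ⟨n, hn1, hn2, hn3⟩ := (h2.and (h3.and hUl)).exists
  obtain ⟨hm0, hmh⟩ := hkey n hn3
  refine ⟨n, hn2, Q n, (hQ n hn3).1, (hQ n hn3).2.1, ?_⟩
  set B := Metric.closedBall (((Q n).1.2 + (Q n).2.1) / 2) (mid (Q n) / 2) with hB
  have hV : volume B = ENNReal.ofReal (mid (Q n)) := by
    rw [hB, Real.volume_closedBall]
    congr 1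
    ring
  have h5 := ENNReal.mul_lt_of_lt_div hn1
  have hVtop : volume B ≠ ⊤ := by rw [hV]; exact ENNReal.ofReal_ne_top
  have hItop : volume (Z ∩ B) ≠ ⊤ :=
    ne_top_of_le_ne_top hVtop (measure_mono inter_subset_right)
  have h6 : volume B ≤ volume (Z ∩ B) + ENNReal.ofReal e * volume B := by
    calc volume B = 1 * volume B := (one_mul _).symm
      _ ≤ (1 - ENNReal.ofReal e + ENNReal.ofReal e) * volume B := by
          gcongr
          exact le_tsub_add
      _ = (1 - ENNReal.ofReal e) * volume B + ENNReal.ofReal e * volume B := add_mul _ _ _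
      _ ≤ _ := by
          gcongr
  have h7 : volume (B ∩ Z) + volume (B \ Z) = volume B := measure_inter_add_diff B hZ
  rw [inter_comm B Z] at h7
  have h8 : volume (B \ Z) ≤ ENNReal.ofReal e * volume B := by
    rw [← h7] at h6
    rw [h7] at h6
    exact (ENNReal.add_le_add_iff_left hItop).1 (by rw [h7]; exact h6)
  have h9 : (volume (core (Q n) \ Z)).toReal ≤ (ENNReal.ofReal e * volume B).toReal := by
    apply ENNReal.toReal_mono (ENNReal.mul_ne_top ENNReal.ofReal_ne_top hVtop)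
    exact (measure_mono (diff_subset_diff_left (hball n hn3))).trans h8
  refine h9.trans (le_of_eq ?_)
  rw [hV, ENNReal.toReal_mul, ENNReal.toReal_ofReal he.le, ENNReal.toReal_ofReal hm0.le]

end Pool.Agent.Helper39.HS
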