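import Pool.Agent.Helper39.HS.St3

set_option autoImplicit false

namespace Pool.Agent.Helper39.HS

open Set MeasureTheory Filter Topology Pool.Agent.Helper82.HG Pool.Agent.Helper82.HC
  Pool.Agent.Helper21.HN

private def Rf_DJA (P : PG) (s c a b d : ℝ) : Prop :=
  (s = 1 ∧ c = P.1.1 ∧ a = P.1.2 ∧ b = P.2.1 ∧ d = P.2.2) ∨
    (s = -1 ∧ c = -P.2.2 ∧ a = -P.2.1 ∧ b = -P.1.2 ∧ d = -P.1.1)

private lemma rf_DJA (P : PG) (s c a b d : ℝ) (h : Rf_DJA P s c a b d) (h1 : P.1.1 < P.1.2)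
    (h2 : P.1.2 < P.2.1) (h3 : P.2.1 < P.2.2) :
    s * s = 1 ∧ |s| = 1 ∧ c < a ∧ a < b ∧ b < d ∧ b - a = mid P ∧
      (∀ y, y ∈ Icc c d → s * y ∈ Icc P.1.1 P.2.2) ∧ (∀ y, y ∈ Ioo a b ↔ s * y ∈ core P) := by
  rcases h with ⟨rfl, rfl, rfl, rfl, rfl⟩ | ⟨rfl, rfl, rfl, rfl, rfl⟩
  · refine ⟨by norm_num, by norm_num, h1, h2, h3, rfl, ?_, ?_⟩
    · intro y hy
      rw [one_mul]
      exact hy
    · intro y
      rw [one_mul]
      rfl
  · refine ⟨by norm_num, by norm_num, by linarith, by linarith, by linarith, ?_, ?_, ?_⟩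
    · rw [mid]; ring
    · intro y hy
      exact ⟨by linarith [hy.2], by linarith [hy.1]⟩
    · intro y
      constructor
      · intro hy
        exact ⟨by linarith [hy.2], by linarith [hy.1]⟩
      · intro hy
        exact ⟨by linarith [hy.2], by linarith [hy.1]⟩

private lemma rfm_DJA (P : PG) (s c a b d : ℝ) (h : Rf_DJA P s c a b d) (h1 : P.1.1 < P.1.2)
    (h2 : P.1.2 < P.2.1) (h3 : P.2.1 < P.2.2) (A : Set ℝ) (hA : MeasurableSet A)
    (hAs : A ⊆ core P) :
    MeasurableSet {y | s * y ∈ A} ∧ {y | s * y ∈ A} ⊆ Ioo a b ∧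
      volume (Ioo a b \ {y | s * y ∈ A}) = volume (core P \ A) := by
  obtain ⟨-, -, -, -, -, -, -, hc⟩ := rf_DJA P s c a b d h h1 h2 h3
  have hset : Ioo a b \ {y | s * y ∈ A} = (fun y => s * y) ⁻¹' (core P \ A) := by
    ext y
    constructor
    · rintro ⟨hy1, hy2⟩
      exact ⟨(hc y).1 hy1, hy2⟩
    · rintro ⟨hy1, hy2⟩
      exact ⟨(hc y).2 hy1, hy2⟩
  refine ⟨(measurable_const_mul s) hA, fun y hy => (hc y).2 (hAs hy), ?_⟩
  rw [hset]
  rcases h with ⟨rfl, -⟩ | ⟨rfl, -⟩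
  · simp
  · have h4 : (fun y : ℝ => (-1 : ℝ) * y) = fun y => -y := by
      funext y
      ring
    rw [h4]
    have hcm : MeasurableSet (core P \ A) := measurableSet_Ioo.diff hA
    exact (Measure.measurePreserving_neg (volume : Measure ℝ)).measure_preimage
      hcm.nullMeasurableSet

theorem tDJA : StBAS → StLAM → StACT → StPAC → StGEO → StWAY → StABS → StDST → StTNY →
    StDJA := by
  intro hBAS hLAM _ _ hGEO hWAY hABS hDST hTNY K hK1
  have hE1 : 1 ≤ Real.exp (12 * K) := Real.one_le_exp (by linarith)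
  have hM1 : 24 * K ≤ 24 * K * Real.exp (12 * K) := by
    have : 24 * K * 1 ≤ 24 * K * Real.exp (12 * K) := mul_le_mul_of_nonneg_left hE1 (by linarith)
    linarith
  obtain ⟨δ, hδ, hδ1, hD⟩ := hABS (24 * K * Real.exp (12 * K)) (by linarith)
  refine ⟨δ, hδ, hδ1, ?_⟩
  intro S Λ G P h th A sys hth iso u v c c' hu hv hc hc' x hx hkx X hX hin
  have hg := sys.gens
  have hl := sys.lam
  obtain ⟨hinv, -, -, -, -, -, hgp, hsep⟩ := hLAM K S Λ hg hl
  obtain ⟨hgeo1, -, -, -, -, -⟩ := hGEO K S Λ hg hl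
  obtain ⟨hmP, hmsP, -⟩ := hgeo1 P sys.pair
  obtain ⟨hway, -, -, -⟩ := hWAY K S Λ hg hl P sys.pair
  obtain ⟨hum, hc0, -⟩ := hway u c hu
  obtain ⟨hvm, hc0', -⟩ := hway v c' hv
  have hP1 : P.1.1 < P.1.2 := sys.pair.1.1
  have hP2 : P.2.1 < P.2.2 := sys.pair.2.1.1
  have hP3 : P.1.2 < P.2.1 := by
    have : 0 < P.2.1 - P.1.2 := hmP
    linarith
  obtain ⟨k, hk⟩ : ∃ k : Equiv.Perm ℝ, k = v⁻¹ * u := ⟨_, rfl⟩
  have hkm : k ∈ Gr S := by
    rw [hk]
    exact mul_mem (inv_mem hvm) hum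
  rw [← hk] at hkx hin
  obtain ⟨hkd, hk0, hkmono, -⟩ := hBAS K S hg k hkm
  obtain ⟨hud, hu0, -, -⟩ := hBAS K S hg u hum
  obtain ⟨hvd, hv0, -, -⟩ := hBAS K S hg v hvm
  obtain ⟨hid, hi0, -, -⟩ := hBAS K S hg k⁻¹ (inv_mem hkm)
  have hvk : ∀ y, v (k y) = u y := by
    intro y
    rw [hk]
    simp
  have hchain : ∀ y, deriv (⇑u) y = deriv (⇑v) (k y) * deriv (⇑k) y := by
    intro y
    have h1 : HasDerivAt (fun z => v (k z)) (deriv (⇑v) (k y) * deriv (⇑k) y) y :=
      (hvd (k y)).hasDerivAt.comp y (hkd y).hasDerivAt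
    have h2 : (fun z => v (k z)) = ⇑u := funext hvk
    rw [h2] at h1
    exact h1.deriv
  have hlog : ∀ y, Real.log (|deriv (⇑k) y|) = Real.log (|deriv (⇑u) y|) - Real.log (|deriv (⇑v) (k y)|) := by
    intro y
    rw [hchain y, abs_mul, Real.log_mul (abs_ne_zero.2 (hv0 _)) (abs_ne_zero.2 (hk0 _))]
    ring
  -- distortion of `k`
  have hdist : ∀ y ∈ Icc P.1.1 P.2.2, ∀ z ∈ Icc P.1.1 P.2.2, k y ∈ Icc P.1.1 P.2.2 →
      k z ∈ Icc P.1.1 P.2.2 →
      |Real.log (|deriv (⇑k) y|) - Real.log (|deriv (⇑k) z|)| ≤ 24 * K * Real.exp (12 * K) ∧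
      |Real.log (|deriv (⇑k) y|) - Real.log (|deriv (⇑k) z|)| * span P ≤
        24 * K * Real.exp (12 * K) * (|y - z| + |k y - k z|) := by
    intro y hy z hz hky hkz
    obtain ⟨u1, u2, -⟩ := hDST K S Λ hK1 hg hl P u c sys.pair hu y hy z hz
    obtain ⟨v1, v2, -⟩ := hDST K S Λ hK1 hg hl P v c' sys.pair hv (k y) hky (k z) hkz
    have e1 : Real.log (|deriv (⇑k) y|) - Real.log (|deriv (⇑k) z|) =
        (Real.log (|deriv (⇑u) y|) - Real.log (|deriv (⇑u) z|)) -
          (Real.log (|deriv (⇑v) (k y)|) - Real.log (|deriv (⇑v) (k z)|)) := by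
      rw [hlog y, hlog z]
      ring
    have e2 : |Real.log (|deriv (⇑k) y|) - Real.log (|deriv (⇑k) z|)| ≤
        |Real.log (|deriv (⇑u) y|) - Real.log (|deriv (⇑u) z|)| +
          |Real.log (|deriv (⇑v) (k y)|) - Real.log (|deriv (⇑v) (k z)|)| := by
      rw [e1]
      exact abs_sub _ _
    have Kc : K * c ≤ 12 * K := by nlinarith
    have Kc' : K * c' ≤ 12 * K := by nlinarith
    have hK0 : 0 < K := by linarith
    constructor
    · linarith
    · have w1 : K * c * Real.exp (K * c) * |y - z| ≤ 12 * K * Real.exp (12 * K) * |y - z| := by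
        refine mul_le_mul_of_nonneg_right ?_ (abs_nonneg _)
        exact mul_le_mul Kc (Real.exp_le_exp.2 Kc) (Real.exp_pos _).le (by positivity)
      have w2 : K * c' * Real.exp (K * c') * |k y - k z| ≤
          12 * K * Real.exp (12 * K) * |k y - k z| := by
        refine mul_le_mul_of_nonneg_right ?_ (abs_nonneg _)
        exact mul_le_mul Kc' (Real.exp_le_exp.2 Kc') (Real.exp_pos _).le (by positivity)
      have hs : 0 ≤ span P := (hmP.trans hmsP).le
      have w3 := mul_le_mul_of_nonneg_right e2 hs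
      rw [add_mul] at w3
      have w4 : 12 * K * Real.exp (12 * K) * |y - z| + 12 * K * Real.exp (12 * K) * |k y - k z| ≤
          24 * K * Real.exp (12 * K) * (|y - z| + |k y - k z|) := by
        have p0 : 0 ≤ K * Real.exp (12 * K) * (|y - z| + |k y - k z|) := by positivity
        nlinarith
      linarith
  -- derivatives between points of `A`
  have hder : ∀ y ∈ A, k y ∈ A → 10 / 13 ≤ |deriv (⇑k) y| ∧ |deriv (⇑k) y| ≤ 13 / 10 := by
    intro y hy hky
    refine ⟨?_, iso.iso y hy k hkm hky⟩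
    have h1 := iso.iso (k y) hky k⁻¹ (inv_mem hkm) (by simpa using hy)
    have h2 : HasDerivAt (fun z => k⁻¹ (k z)) (deriv (⇑k⁻¹) (k y) * deriv (⇑k) y) y :=
      (hid (k y)).hasDerivAt.comp y (hkd y).hasDerivAt
    have h3 : (fun z => k⁻¹ (k z)) = fun z => z := by
      funext z
      simp
    rw [h3] at h2
    have h4 : deriv (⇑k⁻¹) (k y) * deriv (⇑k) y = 1 := h2.unique (hasDerivAt_id y)
    have h5 : |deriv (⇑k⁻¹) (k y)| * |deriv (⇑k) y| = 1 := by
      rw [← abs_mul, h4, abs_one]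
    have h6 : 0 ≤ |deriv (⇑k) y| := abs_nonneg _
    nlinarith
  have hmain : ∀ σ τ c₀ a₀ b₀ d₀ c₁ a₁ b₁ d₁ : ℝ, Rf_DJA P σ c₀ a₀ b₀ d₀ →
      Rf_DJA P τ c₁ a₁ b₁ d₁ → StrictMono (fun y => τ * k (σ * y)) →
      ((X = P.1 ∧ τ = 1) ∨ (X = P.2 ∧ τ = -1)) → False := by
    intro σ τ c₀ a₀ b₀ d₀ c₁ a₁ b₁ d₁ hσ hτ hf hXτ
    obtain ⟨s1, s2, s3, s4, s5, s6, s7, s8⟩ := rf_DJA P σ c₀ a₀ b₀ d₀ hσ hP1 hP3 hP2
    obtain ⟨t1, t2, t3, t4, t5, t6, t7, t8⟩ := rf_DJA P τ c₁ a₁ b₁ d₁ hτ hP1 hP3 hP2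
    obtain ⟨m1, m2, m3⟩ := rfm_DJA P σ c₀ a₀ b₀ d₀ hσ hP1 hP3 hP2 A iso.meas iso.sub
    obtain ⟨n1, n2, n3⟩ := rfm_DJA P τ c₁ a₁ b₁ d₁ hτ hP1 hP3 hP2 A iso.meas iso.sub
    have ht7 : ∀ y, τ * k (σ * y) ∈ Icc c₁ d₁ → k (σ * y) ∈ Icc P.1.1 P.2.2 := by
      intro y hy
      have := t7 _ hy
      rwa [← mul_assoc, t1, one_mul] at this
    have hderf : ∀ y, HasDerivAt (fun y => τ * k (σ * y)) (τ * (deriv (⇑k) (σ * y) * σ)) y := by
      intro y
      have h1 : HasDerivAt (fun z => σ * z) σ y := by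
        simpa using (hasDerivAt_id y).const_mul σ
      exact ((hkd (σ * y)).hasDerivAt.comp y h1).const_mul τ
    have habs : ∀ y, |deriv (fun y => τ * k (σ * y)) y| = |deriv (⇑k) (σ * y)| := by
      intro y
      rw [(hderf y).deriv, abs_mul, abs_mul, t2, s2, one_mul, mul_one]
    -- the inner gap
    obtain ⟨p, hp⟩ : ∃ p, p = σ * k⁻¹ (τ * c₁) := ⟨_, rfl⟩
    obtain ⟨q, hq⟩ : ∃ q, q = σ * k⁻¹ (τ * a₁) := ⟨_, rfl⟩
    have hσp : σ * p = k⁻¹ (τ * c₁) := by rw [hp, ← mul_assoc, s1, one_mul]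
    have hσq : σ * q = k⁻¹ (τ * a₁) := by rw [hq, ← mul_assoc, s1, one_mul]
    have hfp : τ * k (σ * p) = c₁ := by
      rw [hσp, show k (k⁻¹ (τ * c₁)) = τ * c₁ from k.apply_symm_apply _, ← mul_assoc, t1, one_mul]
    have hfq : τ * k (σ * q) = a₁ := by
      rw [hσq, show k (k⁻¹ (τ * a₁)) = τ * a₁ from k.apply_symm_apply _, ← mul_assoc, t1, one_mul]
    have hpq : p < q := by
      refine hf.lt_iff_lt.1 ?_
      show τ * k (σ * p) < τ * k (σ * q)
      rw [hfp, hfq]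
      exact t3
    have hXe : (X.1 = τ * c₁ ∧ X.2 = τ * a₁) ∨ (X.1 = τ * a₁ ∧ X.2 = τ * c₁) := by
      rcases hXτ with ⟨hX', hτ'⟩ | ⟨hX', hτ'⟩
      · rcases hτ with ⟨-, e1, e2, -, -⟩ | ⟨e, -⟩
        · left
          rw [hX', hτ', e1, e2, one_mul, one_mul]
          exact ⟨rfl, rfl⟩
        · exfalso
          rw [hτ'] at e
          norm_num at e
      · rcases hτ with ⟨e, -⟩ | ⟨-, e1, e2, -, -⟩
        · exfalso
          rw [hτ'] at e
          norm_num at e
        · right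
          rw [hX', hτ', e1, e2]
          constructor <;> ring
    have hXlen : X.2 - X.1 = a₁ - c₁ := by
      rcases hXτ with ⟨hX', hτ'⟩ | ⟨hX', hτ'⟩
      · rcases hτ with ⟨-, e1, e2, -, -⟩ | ⟨e, -⟩
        · rw [hX', e1, e2]
        · exfalso
          rw [hτ'] at e
          norm_num at e
      · rcases hτ with ⟨e, -⟩ | ⟨-, e1, e2, -, -⟩
        · exfalso
          rw [hτ'] at e
          norm_num at e
        · rw [hX', e1, e2]
          ring
    have hs1 : (sact k⁻¹ X).1 = min (σ * p) (σ * q) := by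
      rcases hXe with ⟨e1, e2⟩ | ⟨e1, e2⟩
      · rw [sact, e1, e2, hσp, hσq]
      · rw [sact, e1, e2, hσp, hσq]
        exact min_comm _ _
    have hs2 : (sact k⁻¹ X).2 = max (σ * p) (σ * q) := by
      rcases hXe with ⟨e1, e2⟩ | ⟨e1, e2⟩
      · rw [sact, e1, e2, hσp, hσq]
      · rw [sact, e1, e2, hσp, hσq]
        exact max_comm _ _
    obtain ⟨tn1, tn2⟩ := hTNY K S Λ G P h th δ sys hδ hδ1 hth k⁻¹ (inv_mem hkm) X hX hin.1 hin.2
    have hlenpq : (sact k⁻¹ X).2 - (sact k⁻¹ X).1 = q - p := by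
      rw [hs1, hs2, max_sub_min_eq_abs', ← mul_sub, abs_mul, s2, one_mul, abs_sub_comm,
        abs_of_pos (by linarith)]
    rw [hlenpq] at tn1 tn2
    rw [hXlen] at tn1
    rw [hs1, hs2] at hin
    have hpin : p ∈ Ioo a₀ b₀ := by
      rw [s8]
      exact ⟨hin.1.trans_le (min_le_left _ _), (le_max_left _ _).trans_lt hin.2⟩
    have hqin : q ∈ Ioo a₀ b₀ := by
      rw [s8]
      exact ⟨hin.1.trans_le (min_le_right _ _), (le_max_right _ _).trans_lt hin.2⟩
    -- the last hypothesis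
    have hlast : b₁ ≤ τ * k (σ * b₀) ∨ (τ * k (σ * d₀) < b₁ ∧
        τ * k (σ * d₀) - τ * k (σ * b₀) ≤ δ * mid P ∧
        9 * (τ * k (σ * d₀) - τ * k (σ * b₀)) ≤ 5 * (d₀ - b₀)) := by
      by_cases hcase : b₁ ≤ τ * k (σ * b₀)
      · exact Or.inl hcase
      · right
        push Not at hcase
        have hbd : τ * k (σ * b₀) < τ * k (σ * d₀) := hf s5
        have hab : a₁ < τ * k (σ * b₀) := by
          rw [← hfq]
          exact hf hqin.2
        obtain ⟨Y, hY⟩ : ∃ Y : ℝ × ℝ, (Y = P.1 ∨ Y = P.2) ∧ Gap Λ Y.1 Y.2 ∧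
            Y.2 - Y.1 = d₀ - b₀ ∧ ((Y.1 = σ * b₀ ∧ Y.2 = σ * d₀) ∨
              (Y.1 = σ * d₀ ∧ Y.2 = σ * b₀)) := by
          rcases hσ with ⟨e0, -, -, e1, e2⟩ | ⟨e0, -, -, e1, e2⟩
          · refine ⟨P.2, Or.inr rfl, sys.pair.2.1, ?_, Or.inl ⟨?_, ?_⟩⟩
            · rw [e1, e2]
            · rw [e0, e1, one_mul]
            · rw [e0, e2, one_mul]
          · refine ⟨P.1, Or.inl rfl, sys.pair.1, ?_, Or.inr ⟨?_, ?_⟩⟩
            · rw [e1, e2]; ring
            · rw [e0, e2]; ring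
            · rw [e0, e1]; ring
        obtain ⟨hY1, hY2, hY3, hY4⟩ := hY
        have hgap := hgp Y.1 Y.2 hY2 k hkm
        have hy1 : min (k Y.1) (k Y.2) = min (k (σ * b₀)) (k (σ * d₀)) := by
          rcases hY4 with ⟨e1, e2⟩ | ⟨e1, e2⟩
          · rw [e1, e2]
          · rw [e1, e2]
            exact min_comm _ _
        have hy2 : max (k Y.1) (k Y.2) = max (k (σ * b₀)) (k (σ * d₀)) := by
          rcases hY4 with ⟨e1, e2⟩ | ⟨e1, e2⟩
          · rw [e1, e2]
          · rw [e1, e2]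
            exact max_comm _ _
        rw [hy1, hy2] at hgap
        -- the right end
        have hdb : τ * k (σ * d₀) < b₁ := by
          rcases hτ with ⟨e0, -, -, e1, e2⟩ | ⟨e0, -, -, e1, e2⟩
          · rw [e0, one_mul] at hcase
            rw [e0, one_mul, one_mul] at hbd
            rw [e0, one_mul]
            rw [min_eq_left hbd.le, max_eq_right hbd.le] at hgap
            have hne : (k (σ * b₀), k (σ * d₀)) ≠ (P.2.1, P.2.2) := by
              intro hh
              have := congrArg Prod.fst hh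
              rw [e1] at hcase
              exact hcase.ne this
            rcases hsep _ _ _ _ hgap sys.pair.2.1 hne with h1 | h1
            · rw [e1]
              exact h1
            · exfalso
              rw [e1] at hcase
              linarith
          · rw [e0] at hcase hbd
            rw [e0]
            have hbd' : k (σ * d₀) < k (σ * b₀) := by linarith
            rw [min_eq_right hbd'.le, max_eq_left hbd'.le] at hgap
            have hne : (k (σ * d₀), k (σ * b₀)) ≠ (P.1.1, P.1.2) := by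
              intro hh
              have := congrArg Prod.snd hh
              simp only at this
              rw [e1] at hcase
              linarith
            rcases hsep _ _ _ _ hgap sys.pair.1 hne with h1 | h1
            · exfalso
              rw [e1] at hcase
              linarith
            · rw [e1]
              linarith
        have hbin : k (σ * b₀) ∈ core P := by
          have := (t8 (τ * k (σ * b₀))).1 ⟨hab, hcase⟩
          rwa [← mul_assoc, t1, one_mul] at this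
        have hdin : k (σ * d₀) ∈ core P := by
          have := (t8 (τ * k (σ * d₀))).1 ⟨hab.trans hbd, hdb⟩
          rwa [← mul_assoc, t1, one_mul] at this
        have hlen : (sact k Y).2 - (sact k Y).1 = τ * k (σ * d₀) - τ * k (σ * b₀) := by
          rw [sact]
          show max (k Y.1) (k Y.2) - min (k Y.1) (k Y.2) = _
          rw [hy1, hy2, max_sub_min_eq_abs', ← mul_sub, ← abs_of_pos (show 0 <
            τ * (k (σ * d₀) - k (σ * b₀)) by rw [mul_sub]; linarith), abs_mul, t2, one_mul,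
            abs_sub_comm]
        obtain ⟨tn3, tn4⟩ := hTNY K S Λ G P h th δ sys hδ hδ1 hth k hkm Y hY1
          (by
            show P.1.2 < min (k Y.1) (k Y.2)
            rw [hy1]
            exact lt_min hbin.1 hdin.1)
          (by
            show max (k Y.1) (k Y.2) < P.2.1
            rw [hy2]
            exact max_lt hbin.2 hdin.2)
        rw [hlen] at tn3 tn4
        rw [hY3] at tn3
        exact ⟨hdb, tn4, tn3⟩
    refine hD c₀ a₀ b₀ d₀ c₁ a₁ b₁ d₁ (mid P) (span P) p q (σ * x) (fun y => τ * k (σ * y))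
      {y | σ * y ∈ A} {y | τ * y ∈ A} s3 s4 s5 t3 t4 t5 s6 t6 hmsP.le hf
      (fun y => (hderf y).differentiableAt) ?_ ?_ m1 n1 m2 n2 ?_ ?_ ?_ ?_ ?_ hpin.1 hpq hqin.2
      hfp hfq tn2 tn1 hlast
    · intro y
      have := habs y
      intro h0
      rw [h0, abs_zero] at this
      exact hk0 _ (abs_eq_zero.1 this.symm)
    · intro y hy z hz hfy hfz
      rw [habs y, habs z]
      have h1 := hdist (σ * y) (s7 y hy) (σ * z) (s7 z hz) (ht7 y hfy) (ht7 z hfz)
      have h2 : |σ * y - σ * z| = |y - z| := by rw [← mul_sub, abs_mul, s2, one_mul]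
      have h3 : |τ * k (σ * y) - τ * k (σ * z)| = |k (σ * y) - k (σ * z)| := by
        rw [← mul_sub, abs_mul, t2, one_mul]
      rw [h2] at h1
      show _ ∧ _ ≤ _ * (|y - z| + |τ * k (σ * y) - τ * k (σ * z)|)
      rw [h3]
      exact h1
    · rw [m3]
      exact iso.fill
    · rw [n3]
      exact iso.fill
    · intro y hy hfy
      rw [habs y]
      have h1 : τ * (τ * k (σ * y)) ∈ A := hfy
      rw [← mul_assoc, t1, one_mul] at h1
      exact hder (σ * y) hy h1
    · show σ * (σ * x) ∈ A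
      rw [← mul_assoc, s1, one_mul]
      exact hx
    · show τ * (τ * k (σ * (σ * x))) ∈ A
      rw [← mul_assoc, t1, one_mul, ← mul_assoc, s1, one_mul]
      exact hkx
  have r1 : Rf_DJA P 1 P.1.1 P.1.2 P.2.1 P.2.2 := Or.inl ⟨rfl, rfl, rfl, rfl, rfl⟩
  have r2 : Rf_DJA P (-1) (-P.2.2) (-P.2.1) (-P.1.2) (-P.1.1) :=
    Or.inr ⟨rfl, rfl, rfl, rfl, rfl⟩
  rcases hkmono with hm | hm
  · rcases hX with hX' | hX'
    · refine hmain 1 1 _ _ _ _ _ _ _ _ r1 r1 ?_ (Or.inl ⟨hX', rfl⟩)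
      intro y z hyz
      show 1 * k (1 * y) < 1 * k (1 * z)
      rw [one_mul, one_mul, one_mul, one_mul]
      exact hm hyz
    · refine hmain (-1) (-1) _ _ _ _ _ _ _ _ r2 r2 ?_ (Or.inr ⟨hX', rfl⟩)
      intro y z hyz
      have := hm (show -1 * z < -1 * y by linarith)
      show -1 * k (-1 * y) < -1 * k (-1 * z)
      linarith
  · rcases hX with hX' | hX'
    · refine hmain (-1) 1 _ _ _ _ _ _ _ _ r2 r1 ?_ (Or.inl ⟨hX', rfl⟩)
      intro y z hyz
      have := hm (show -1 * z < -1 * y by linarith)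
      show 1 * k (-1 * y) < 1 * k (-1 * z)
      linarith
    · refine hmain 1 (-1) _ _ _ _ _ _ _ _ r1 r2 ?_ (Or.inr ⟨hX', rfl⟩)
      intro y z hyz
      have := hm (show 1 * y < 1 * z by linarith)
      show -1 * k (1 * y) < -1 * k (1 * z)
      linarith

end Pool.Agent.Helper39.HS
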