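import Pool.Agent.Helper39.HS.St3

/-!
# MP_10ef18_an (Hector), project HS: module DJN
-/

set_option autoImplicit false

namespace Pool.Agent.Helper39.HS

open Set MeasureTheory Filter Topology Pool.Agent.Helper82.HG Pool.Agent.Helper82.HC
  Pool.Agent.Helper21.HN

theorem tDJN : StBAS → StLAM → StACT → StPAC → StGEO → StWAY → StDJA → StDJN := by
  intro _ _ hACT hPAC hGEO hWAY hDJA K hK
  obtain ⟨δ, hδ0, hδ1, H⟩ := hDJA K hK
  refine ⟨δ, hδ0, hδ1, ?_⟩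
  intro S Λ G P h th A hB hth hI u v c c' hu hv hc hc' hne
  have hact := hACT K S Λ hB.gens hB.lam
  obtain ⟨-, pac2, -, pac4, -, -, -⟩ := hPAC K S Λ hB.gens hB.lam
  obtain ⟨-, -, geo3, -, geo5, geo6⟩ := hGEO K S Λ hB.gens hB.lam
  have hway := (hWAY K S Λ hB.gens hB.lam P hB.pair).1
  have hum := (hway u c hu).1
  have hvm := (hway v c' hv).1
  rw [Set.disjoint_left]
  rintro z ⟨x, hx, hxz⟩ ⟨y, hy, hyz⟩
  obtain ⟨w, hw⟩ : ∃ w : Equiv.Perm ℝ, w = v⁻¹ * u := ⟨_, rfl⟩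
  have hwm : w ∈ Gr S := by rw [hw]; exact mul_mem (inv_mem hvm) hum
  have hwx : w x = y := by
    rw [hw, Equiv.Perm.mul_apply, hxz, ← hyz]
    exact Equiv.symm_apply_apply v y
  have hwy : w⁻¹ y = x := by
    rw [← hwx]
    exact Equiv.symm_apply_apply w x
  have hw2 : w⁻¹ = u⁻¹ * v := by rw [hw, mul_inv_rev, inv_inv]
  have hw3 : (u⁻¹ * v)⁻¹ = w := by rw [← hw2, inv_inv]
  have HA := H S Λ G P h th A hB hth hI u v c c' hu hv hc hc' x hx (by rw [← hw, hwx]; exact hy)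
  have HB := H S Λ G P h th A hB hth hI v u c' c hv hu hc' hc y hy (by rw [← hw2, hwy]; exact hx)
  rw [← hw] at HA
  rw [hw3] at HB
  have hR := hact w hwm P hB.pair
  have hRne : pact w P ≠ P := by
    intro h
    apply hne
    have : pact u P = pact v (pact w P) := by
      rw [← pac2 v hvm w hwm P hB.pair, hw, mul_inv_cancel_left]
    rw [this, h]
  have hxcore := hI.sub hx
  have hycore := hI.sub hy
  have hyR : y ∈ core (pact w P) := by
    rw [pac4 w hwm P hB.pair]; exact ⟨x, hxcore, hwx⟩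
  have m1 : (pact w P).1.2 < P.2.1 := lt_trans hyR.1 hycore.2
  have m2 : P.1.2 < (pact w P).2.1 := lt_trans hycore.1 hyR.2
  -- a gap of `P` inside the core of `pact w P`
  have inner : ∀ X : ℝ × ℝ, X = P.1 ∨ X = P.2 → X.1 < X.2 → (pact w P).1.2 < X.1 →
      X.2 < (pact w P).2.1 → False := by
    intro X hX h0 h1 h2
    have c1 : X.1 ∈ core (pact w P) := ⟨h1, by linarith⟩
    have c2 : X.2 ∈ core (pact w P) := ⟨by linarith, h2⟩
    rw [pac4 w hwm P hB.pair] at c1 c2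
    obtain ⟨t1, ht1, e1⟩ := c1
    obtain ⟨t2, ht2, e2⟩ := c2
    have f1 : w⁻¹ X.1 = t1 := by rw [← e1]; exact Equiv.symm_apply_apply w t1
    have f2 : w⁻¹ X.2 = t2 := by rw [← e2]; exact Equiv.symm_apply_apply w t2
    refine HA X hX ⟨?_, ?_⟩
    · show P.1.2 < min (w⁻¹ X.1) (w⁻¹ X.2)
      rw [f1, f2]; exact lt_min ht1.1 ht2.1
    · show max (w⁻¹ X.1) (w⁻¹ X.2) < P.2.1
      rw [f1, f2]; exact max_lt ht1.2 ht2.2
  have g1 := hB.pair.1.1
  have g2 := hB.pair.2.1.1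
  rcases lt_trichotomy P.1.2 (pact w P).1.2 with h1 | h1 | h1
  · have h2 := geo5 _ _ hR.1 hB.pair h1
    rcases hR.2.1 with ⟨e1, -⟩ | ⟨e1, -⟩
    · exact HB P.1 (Or.inl rfl) (by rw [← e1]; exact ⟨h2, m1⟩)
    · exact HB P.2 (Or.inr rfl) (by rw [← e1]; exact ⟨h2, m1⟩)
  · rcases lt_trichotomy (pact w P).2.1 P.2.1 with h3 | h3 | h3
    · have h2 := geo6 _ _ hR.1 hB.pair h3
      rcases hR.2.1 with ⟨-, e1⟩ | ⟨-, e1⟩
      · exact HB P.2 (Or.inr rfl) (by rw [← e1]; exact ⟨m2, h2⟩)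
      · exact HB P.1 (Or.inl rfl) (by rw [← e1]; exact ⟨m2, h2⟩)
    · exact hRne (geo3 _ _ hR.1 hB.pair h1.symm h3)
    · have h2 := geo6 _ _ hB.pair hR.1 h3
      exact inner P.2 (Or.inr rfl) g2 m1 h2
  · have h2 := geo5 _ _ hB.pair hR.1 h1
    exact inner P.1 (Or.inl rfl) g1 h2 m2

end Pool.Agent.Helper39.HS
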