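import Pool.Agent.Helper39.HS.St3

/-! # HS module DST: distortion along a way -/

set_option autoImplicit false

namespace Pool.Agent.Helper39.HS

open Set MeasureTheory Filter Topology Pool.Agent.Helper82.HG Pool.Agent.Helper82.HC
  Pool.Agent.Helper21.HN

private theorem T_app_DST (x : ℝ) : T x = x + 1 := rfl

private theorem Tinv_app_DST (x : ℝ) : T⁻¹ x = x - 1 := by
  have h : T (x - 1) = x := by rw [T_app_DST]; ring
  calc T⁻¹ x = T⁻¹ (T (x - 1)) := by rw [h]
    _ = x - 1 := Equiv.symm_apply_apply T (x - 1)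

private theorem Tz_app_DST (m : ℤ) : ∀ x : ℝ, (T ^ m) x = x + m := by
  induction m using Int.induction_on with
  | zero => intro x; simp
  | succ n ih =>
    intro x
    rw [zpow_add, zpow_one, Equiv.Perm.mul_apply, T_app_DST, ih]
    push_cast
    ring
  | pred n ih =>
    intro x
    rw [zpow_sub, zpow_one, Equiv.Perm.mul_apply, Tinv_app_DST, ih]
    push_cast
    ring

private theorem deriv_tr_DST (m : ℤ) (g : Equiv.Perm ℝ) (y : ℝ) :
    deriv (⇑(T ^ m * g)) y = deriv g y := by
  have h : ⇑(T ^ m * g) = fun x => g x + (m : ℝ) := by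
    funext x
    rw [Equiv.Perm.mul_apply, Tz_app_DST]
  rw [h, deriv_add_const]

private theorem deriv_mul_DST {s g : Equiv.Perm ℝ} (hs : Differentiable ℝ s)
    (hg : Differentiable ℝ g) (y : ℝ) :
    deriv (⇑(s * g)) y = deriv s (g y) * deriv g y := by
  have h : ⇑(s * g) = ⇑s ∘ ⇑g := rfl
  rw [h]
  exact deriv_comp y (hs (g y)) (hg y)

private theorem mvt_DST {h : ℝ → ℝ} (hd : Differentiable ℝ h) {a b : ℝ} (hab : a < b) :
    ∃ ξ ∈ Ioo a b, |h b - h a| = |deriv h ξ| * (b - a) := by
  obtain ⟨ξ, hξ, he⟩ := exists_deriv_eq_slope h hab hd.continuous.continuousOn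
    (hd.differentiableOn)
  refine ⟨ξ, hξ, ?_⟩
  have hpos : 0 < b - a := by linarith
  rw [he, abs_div, abs_of_pos hpos]
  field_simp

/-- values inside an interval -/
private theorem span_le_DST {g : Equiv.Perm ℝ} (hg : StrictMono g ∨ StrictAnti g) {p q y z : ℝ}
    (hy : y ∈ Icc p q) (hz : z ∈ Icc p q) : |g y - g z| ≤ |g q - g p| := by
  have hpq : p ≤ q := hy.1.trans hy.2
  rcases hg with hg | hg
  · have h1 := hg.monotone hy.1
    have h2 := hg.monotone hy.2
    have h3 := hg.monotone hz.1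
    have h4 := hg.monotone hz.2
    rw [abs_of_nonneg (show 0 ≤ g q - g p by linarith), abs_le]
    constructor <;> linarith
  · have h1 := hg.antitone hy.1
    have h2 := hg.antitone hy.2
    have h3 := hg.antitone hz.1
    have h4 := hg.antitone hz.2
    rw [abs_of_nonpos (show g q - g p ≤ 0 by linarith), abs_le]
    constructor <;> linarith

/-- comparison of two positive numbers with close logarithms -/
private theorem ratio_DST {a b t : ℝ} (ha : 0 < a) (hb : 0 < b)
    (h : |Real.log a - Real.log b| ≤ t) : a ≤ Real.exp t * b := by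
  have h1 : Real.log a ≤ t + Real.log b := by linarith [(abs_le.1 h).2]
  have h2 := Real.exp_le_exp.2 h1
  rwa [Real.exp_log ha, Real.exp_add, Real.exp_log hb] at h2

/-- consequences of the bound on the variation of `log |g'|` -/
private theorem cons_DST {g : Equiv.Perm ℝ} {p q σ t : ℝ} (hpq : p < q) (hd : Differentiable ℝ g)
    (hne : ∀ x, deriv g x ≠ 0) (hσ : σ = |g q - g p|)
    (hv : ∀ y ∈ Icc p q, ∀ z ∈ Icc p q, |Real.log (|deriv g y|) - Real.log (|deriv g z|)| ≤ t) :
    ∀ y ∈ Icc p q, ∀ z ∈ Icc p q,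
      |g y - g z| * (q - p) ≤ Real.exp t * (σ * |y - z|) ∧
      σ * |y - z| ≤ Real.exp t * (|g y - g z| * (q - p)) ∧
      |deriv g y| * (q - p) ≤ Real.exp t * σ ∧
      σ ≤ Real.exp t * (|deriv g y| * (q - p)) := by
  obtain ⟨ξ, hξ, he⟩ := mvt_DST hd hpq
  have hξI : ξ ∈ Icc p q := ⟨hξ.1.le, hξ.2.le⟩
  have hqp : 0 < q - p := by linarith
  rw [he] at hσ
  have hder : ∀ y ∈ Icc p q, |deriv g y| ≤ Real.exp t * |deriv g ξ| ∧
      |deriv g ξ| ≤ Real.exp t * |deriv g y| := by
    intro y hy
    exact ⟨ratio_DST (abs_pos.2 (hne y)) (abs_pos.2 (hne ξ)) (hv y hy ξ hξI),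
      ratio_DST (abs_pos.2 (hne ξ)) (abs_pos.2 (hne y)) (hv ξ hξI y hy)⟩
  have main : ∀ y z : ℝ, y < z → y ∈ Icc p q → z ∈ Icc p q →
      |g z - g y| * (q - p) ≤ Real.exp t * (σ * (z - y)) ∧
      σ * (z - y) ≤ Real.exp t * (|g z - g y| * (q - p)) := by
    intro y z hyz hy hz
    obtain ⟨η, hη, hη2⟩ := mvt_DST hd hyz
    have hηI : η ∈ Icc p q := ⟨by linarith [hη.1, hy.1], by linarith [hη.2, hz.2]⟩
    obtain ⟨r1, r2⟩ := hder η hηI
    have hw0 : 0 ≤ (z - y) * (q - p) := mul_nonneg (by linarith) hqp.le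
    have m1 := mul_le_mul_of_nonneg_right r1 hw0
    have m2 := mul_le_mul_of_nonneg_right r2 hw0
    rw [hη2, hσ]
    constructor
    · calc |deriv g η| * (z - y) * (q - p) = |deriv g η| * ((z - y) * (q - p)) := by ring
        _ ≤ Real.exp t * |deriv g ξ| * ((z - y) * (q - p)) := m1
        _ = _ := by ring
    · calc |deriv g ξ| * (q - p) * (z - y) = |deriv g ξ| * ((z - y) * (q - p)) := by ring
        _ ≤ Real.exp t * |deriv g η| * ((z - y) * (q - p)) := m2
        _ = _ := by ring
  intro y hy z hz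
  refine ⟨?_, ?_, ?_, ?_⟩
  · rcases lt_trichotomy y z with hyz | hyz | hyz
    · rw [abs_sub_comm (g y), abs_sub_comm y z, abs_of_pos (by linarith : 0 < z - y)]
      exact (main y z hyz hy hz).1
    · subst hyz; simp
    · rw [abs_of_pos (by linarith : 0 < y - z)]
      exact (main z y hyz hz hy).1
  · rcases lt_trichotomy y z with hyz | hyz | hyz
    · rw [abs_sub_comm (g y), abs_sub_comm y z, abs_of_pos (by linarith : 0 < z - y)]
      exact (main y z hyz hy hz).2
    · subst hyz; simp
    · rw [abs_of_pos (by linarith : 0 < y - z)]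
      exact (main z y hyz hz hy).2
  · rw [hσ]
    calc |deriv g y| * (q - p) ≤ Real.exp t * |deriv g ξ| * (q - p) :=
          mul_le_mul_of_nonneg_right (hder y hy).1 hqp.le
      _ = _ := by ring
  · rw [hσ]
    calc |deriv g ξ| * (q - p) ≤ Real.exp t * |deriv g y| * (q - p) :=
          mul_le_mul_of_nonneg_right (hder y hy).2 hqp.le
      _ = _ := by ring

theorem tDST : StBAS → StACT → StPAC → StWAY → StDST := by
  intro hB hA hP hW K S Λ hK hG hL P g c hPP hw
  have hlt : P.1.1 < P.2.2 := by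
    have h1 := hPP.1.1
    have h2 := hPP.2.1.1
    have h3 := hPP.2.2.1
    linarith
  have hway := (hW K S Λ hG hL P hPP).1
  have hdiff1 : ∀ s ∈ S, Differentiable ℝ s ∧ (∀ x, deriv s x ≠ 0) := fun s hs =>
    ⟨(hG.nice s hs).diff, (hG.nice s hs).ne⟩
  have hspan : ∀ g c, Way S P g c → span (pact g P) = |g P.2.2 - g P.1.1| := fun g c hw =>
    (hA K S Λ hG hL g (hway g c hw).1 P hPP).2.2.1
  -- first inequality
  have one : ∀ g c, Way S P g c → ∀ y ∈ Icc P.1.1 P.2.2, ∀ z ∈ Icc P.1.1 P.2.2,
      |Real.log (|deriv g y|) - Real.log (|deriv g z|)| ≤ K * c := by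
    intro g c hw
    induction hw with
    | nil =>
      intro y _ z _
      have h1 : ∀ x : ℝ, deriv (⇑(1 : Equiv.Perm ℝ)) x = 1 := by
        intro x
        have : ⇑(1 : Equiv.Perm ℝ) = id := rfl
        rw [this, deriv_id]
      rw [h1, h1]
      simp
    | tr m _ ih =>
      intro y hy z hz
      rw [deriv_tr_DST, deriv_tr_DST]
      exact ih y hy z hz
    | @step g c s hs hw' ih =>
      intro y hy z hz
      obtain ⟨hgG, hc0, -⟩ := hway g c hw'
      obtain ⟨hd, hne, hmo, -⟩ := hB K S hG g hgG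
      obtain ⟨hsd, hsne⟩ := hdiff1 s hs
      rw [deriv_mul_DST hsd hd, deriv_mul_DST hsd hd, abs_mul, abs_mul,
        Real.log_mul (abs_ne_zero.2 (hsne _)) (abs_ne_zero.2 (hne _)),
        Real.log_mul (abs_ne_zero.2 (hsne _)) (abs_ne_zero.2 (hne _))]
      have h1 := (hG.nice s hs).lip (g y) (g z)
      have h2 := span_le_DST hmo hy hz
      rw [← hspan g c hw'] at h2
      have h3 := ih y hy z hz
      have h4 : K * |g y - g z| ≤ K * span (pact g P) :=
        mul_le_mul_of_nonneg_left h2 (by linarith)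
      rw [abs_le] at h1 h3 ⊢
      constructor <;> linarith [h1.1, h1.2, h3.1, h3.2]
  have two : ∀ g c, Way S P g c → ∀ y ∈ Icc P.1.1 P.2.2, ∀ z ∈ Icc P.1.1 P.2.2,
      |g y - g z| * span P ≤ Real.exp (K * c) * (span (pact g P) * |y - z|) ∧
      span (pact g P) * |y - z| ≤ Real.exp (K * c) * (|g y - g z| * span P) ∧
      |deriv g y| * span P ≤ Real.exp (K * c) * span (pact g P) ∧
      span (pact g P) ≤ Real.exp (K * c) * (|deriv g y| * span P) := by
    intro g c hw
    obtain ⟨hgG, hc0, -⟩ := hway g c hw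
    obtain ⟨hd, hne, hmo, -⟩ := hB K S hG g hgG
    exact cons_DST hlt hd hne (hspan g c hw) (one g c hw)
  have three : ∀ g c, Way S P g c → ∀ y ∈ Icc P.1.1 P.2.2, ∀ z ∈ Icc P.1.1 P.2.2,
      |Real.log (|deriv g y|) - Real.log (|deriv g z|)| * span P ≤
        K * c * Real.exp (K * c) * |y - z| := by
    intro g c hw
    induction hw with
    | nil =>
      intro y _ z _
      have h1 : ∀ x : ℝ, deriv (⇑(1 : Equiv.Perm ℝ)) x = 1 := by
        intro x
        have : ⇑(1 : Equiv.Perm ℝ) = id := rfl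
        rw [this, deriv_id]
      rw [h1, h1]
      simp
    | tr m _ ih =>
      intro y hy z hz
      rw [deriv_tr_DST, deriv_tr_DST]
      exact ih y hy z hz
    | @step g c s hs hw' ih =>
      intro y hy z hz
      obtain ⟨hgG, hc0, -⟩ := hway g c hw'
      obtain ⟨hd, hne, hmo, -⟩ := hB K S hG g hgG
      obtain ⟨hsd, hsne⟩ := hdiff1 s hs
      have hs0 : 0 ≤ span P := by unfold span; linarith
      have hσ0 : 0 ≤ span (pact g P) := by rw [hspan g c hw']; exact abs_nonneg _
      have hK0 : 0 ≤ K := by linarith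
      rw [deriv_mul_DST hsd hd, deriv_mul_DST hsd hd, abs_mul, abs_mul,
        Real.log_mul (abs_ne_zero.2 (hsne _)) (abs_ne_zero.2 (hne _)),
        Real.log_mul (abs_ne_zero.2 (hsne _)) (abs_ne_zero.2 (hne _))]
      have h1 := (hG.nice s hs).lip (g y) (g z)
      have h3 := ih y hy z hz
      have h2 := (two g c hw' y hy z hz).1
      set u1 := Real.log (|deriv s (g y)|) with hu1
      set u2 := Real.log (|deriv s (g z)|) with hu2
      set v1 := Real.log (|deriv g y|) with hv1
      set v2 := Real.log (|deriv g z|) with hv2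
      have h5 : |u1 + v1 - (u2 + v2)| ≤ K * |g y - g z| + |v1 - v2| := by
        have h6 : u1 + v1 - (u2 + v2) = (u1 - u2) + (v1 - v2) := by ring
        rw [h6]
        exact (abs_add_le _ _).trans (add_le_add h1 le_rfl)
      have hexp : Real.exp (K * c) ≤ Real.exp (K * (c + span (pact g P))) := by
        apply Real.exp_le_exp.2
        exact mul_le_mul_of_nonneg_left (by linarith) hK0
      calc |u1 + v1 - (u2 + v2)| * span P ≤ (K * |g y - g z| + |v1 - v2|) * span P :=
            mul_le_mul_of_nonneg_right h5 hs0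
        _ = K * (|g y - g z| * span P) + |v1 - v2| * span P := by ring
        _ ≤ K * (Real.exp (K * c) * (span (pact g P) * |y - z|)) +
            K * c * Real.exp (K * c) * |y - z| :=
            add_le_add (mul_le_mul_of_nonneg_left h2 hK0) h3
        _ = (K * (c + span (pact g P)) * |y - z|) * Real.exp (K * c) := by ring
        _ ≤ (K * (c + span (pact g P)) * |y - z|) * Real.exp (K * (c + span (pact g P))) := by
            apply mul_le_mul_of_nonneg_left hexp
            exact mul_nonneg (mul_nonneg hK0 (by linarith)) (abs_nonneg _)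
        _ = _ := by ring
  intro y hy z hz
  exact ⟨one g c hw y hy z hz, three g c hw y hy z hz, two g c hw y hy z hz⟩

end Pool.Agent.Helper39.HS
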