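import Pool.Agent.Helper39.HS.St3

set_option autoImplicit false

namespace Pool.Agent.Helper39.HS

open Set MeasureTheory Pool.Agent.Helper82.HG Pool.Agent.Helper82.HC Pool.Agent.Helper21.HN

private lemma sactlen_EGS (g : Equiv.Perm ℝ) (u : ℝ × ℝ) :
    (sact g u).2 - (sact g u).1 = |g u.1 - g u.2| := by
  rw [sact]
  exact max_sub_min_eq_abs' _ _

private lemma shne_EGS (a b : ℤ) (Q R : PG) (hQ0 : 0 ≤ Q.1.1) (hQ1 : Q.1.1 < 1) (hR0 : 0 ≤ R.1.1)
    (hR1 : R.1.1 < 1) (h : sh a Q = sh b R) : Q = R := by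
  have h1 : Q.1.1 + (a : ℝ) = R.1.1 + b := congrArg (fun X : PG => X.1.1) h
  have h2 : Q.1.2 + (a : ℝ) = R.1.2 + b := congrArg (fun X : PG => X.1.2) h
  have h3 : Q.2.1 + (a : ℝ) = R.2.1 + b := congrArg (fun X : PG => X.2.1) h
  have h4 : Q.2.2 + (a : ℝ) = R.2.2 + b := congrArg (fun X : PG => X.2.2) h
  have hab : a = b := by
    have e1 : ((a - b : ℤ) : ℝ) < 1 := by push_cast; linarith
    have e2 : (-1 : ℝ) < ((a - b : ℤ) : ℝ) := by push_cast; linarith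
    have e3 : a - b < 1 := by exact_mod_cast e1
    have e4 : -1 < a - b := by exact_mod_cast e2
    omega
  subst hab
  refine Prod.ext (Prod.ext ?_ ?_) (Prod.ext ?_ ?_) <;> linarith

private lemma int_EGS (N : Set ℝ) (hN : ∀ x, x ∈ N ↔ x + 1 ∈ N) (n : ℤ) (x : ℝ) :
    x ∈ N ↔ x + n ∈ N := by
  induction n using Int.induction_on with
  | zero => simp
  | succ n ih =>
    rw [ih, hN (x + ((n : ℤ) : ℝ))]
    push_cast
    rw [add_assoc]
  | pred n ih =>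
    rw [ih, hN (x + ((-(n : ℤ) - 1 : ℤ) : ℝ))]
    push_cast
    rw [show x + (-(n : ℝ) - 1) + 1 = x + -(n : ℝ) by ring]

private lemma num_EGS (a spP spQ spR mP mQ mR v x : ℝ) (ha : 0 < a) (hP : 0 < spP) (hx : 0 < x)
    (hmP : 0 < mP) (h1 : v * spP ≤ a * (spQ * x)) (h2 : spR * x ≤ a * (v * spP))
    (h3 : mR * spP ≤ a * (spR * mP)) (h4 : spQ * mP ≤ a * (mQ * spP)) : mR ≤ a ^ 4 * mQ := by
  have e1 : spR ≤ a ^ 2 * spQ := by
    have : spR * x ≤ (a ^ 2 * spQ) * x := by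
      calc spR * x ≤ a * (v * spP) := h2
        _ ≤ a * (a * (spQ * x)) := mul_le_mul_of_nonneg_left h1 ha.le
        _ = (a ^ 2 * spQ) * x := by ring
    exact le_of_mul_le_mul_right this hx
  have e2 : mR * spP ≤ (a ^ 4 * mQ) * spP := by
    calc mR * spP ≤ a * (spR * mP) := h3
      _ ≤ a * ((a ^ 2 * spQ) * mP) :=
          mul_le_mul_of_nonneg_left (mul_le_mul_of_nonneg_right e1 hmP.le) ha.le
      _ = a ^ 3 * (spQ * mP) := by ring
      _ ≤ a ^ 3 * (a * (mQ * spP)) := mul_le_mul_of_nonneg_left h4 (by positivity)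
      _ = (a ^ 4 * mQ) * spP := by ring
  exact le_of_mul_le_mul_right e2 hP

private lemma two_EGS (hDST : StDST) (hFIL : StFIL) (hACT : StACT) (hWAY : StWAY) (hGEO : StGEO)
    (K : ℝ) (hK : 1 ≤ K) (S : Set (Equiv.Perm ℝ)) (Λ : Set ℝ) (hg : Gens K S) (hl : Lam S Λ)
    (P : PG) (hP : IsPair Λ P) (A : Set ℝ) (δ : ℝ) (hδ : δ ≤ Real.exp (-(72 * K)) / 4)
    (hAm : MeasurableSet A) (hAs : A ⊆ core P)
    (hAf : (volume (core P \ A)).toReal ≤ δ * mid P)
    (Q R : PG) (g : Equiv.Perm ℝ) (c : ℝ) (g' : Equiv.Perm ℝ) (c' : ℝ) (X : ℝ × ℝ)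
    (hw : Way S P g c) (hc : c < 12) (hQ : Q = pact g P) (hw' : Way S P g' c') (hc' : c' < 12)
    (hR : R = pact g' P) (hX1 : P.1.1 ≤ X.1) (hX : X.1 < X.2) (hX2 : X.2 ≤ P.2.2)
    (hV : sact g X = sact g' X) (hsub : core Q ⊆ core R) (hdj : Disjoint (⇑g '' A) (⇑g' '' A)) :
    False := by
  obtain ⟨hgeo1, -, -, -, -, -⟩ := hGEO K S Λ hg hl
  obtain ⟨hway, -, -, -⟩ := hWAY K S Λ hg hl P hP
  obtain ⟨hmP, hmsP, -⟩ := hgeo1 P hP
  have hsP : 0 < span P := hmP.trans hmsP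
  obtain ⟨hgm, hc0, -⟩ := hway g c hw
  obtain ⟨hgm', hc0', -⟩ := hway g' c' hw'
  obtain ⟨hQp, -, hQs, hQm, -⟩ := hACT K S Λ hg hl g hgm P hP
  obtain ⟨hRp, -, hRs, hRm, -⟩ := hACT K S Λ hg hl g' hgm' P hP
  rw [← hQ] at hQp hQs hQm
  rw [← hR] at hRp hRs hRm
  obtain ⟨hmQ, hmsQ, -⟩ := hgeo1 Q hQp
  obtain ⟨hmR, hmsR, -⟩ := hgeo1 R hRp
  have hP1 : P.1.1 < P.1.2 := hP.1.1
  have hP2 : P.2.1 < P.2.2 := hP.2.1.1
  have hP3 : P.1.2 < P.2.1 := by
    have : 0 < P.2.1 - P.1.2 := hmP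
    linarith
  have hx1 : X.1 ∈ Icc P.1.1 P.2.2 := ⟨hX1, by linarith⟩
  have hx2 : X.2 ∈ Icc P.1.1 P.2.2 := ⟨by linarith, hX2⟩
  have hp1 : P.1.2 ∈ Icc P.1.1 P.2.2 := ⟨hP1.le, by linarith⟩
  have hp2 : P.2.1 ∈ Icc P.1.1 P.2.2 := ⟨by linarith, hP2.le⟩
  obtain ⟨a, ha⟩ : ∃ a, a = Real.exp (12 * K) := ⟨_, rfl⟩
  have ha0 : 0 < a := by rw [ha]; exact Real.exp_pos _
  have hKc : Real.exp (K * c) ≤ a := by
    rw [ha]
    exact Real.exp_le_exp.2 (by nlinarith)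
  have hKc' : Real.exp (K * c') ≤ a := by
    rw [ha]
    exact Real.exp_le_exp.2 (by nlinarith)
  obtain ⟨-, -, d1, -, -, -⟩ := hDST K S Λ hK hg hl P g c hP hw X.1 hx1 X.2 hx2
  obtain ⟨-, -, -, d2, -, -⟩ := hDST K S Λ hK hg hl P g' c' hP hw' X.1 hx1 X.2 hx2
  obtain ⟨-, -, d3, -, -, -⟩ := hDST K S Λ hK hg hl P g' c' hP hw' P.2.1 hp2 P.1.2 hp1
  obtain ⟨-, -, -, d4, -, -⟩ := hDST K S Λ hK hg hl P g c hP hw P.2.1 hp2 P.1.2 hp1
  have hV1 : |g X.1 - g X.2| = |g' X.1 - g' X.2| := by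
    rw [← sactlen_EGS g X, ← sactlen_EGS g' X, hV]
  rw [← hV1, ← hR] at d2
  rw [← hQ] at d1
  rw [← hRm, ← hR] at d3
  rw [← hQm, ← hQ] at d4
  have hmidP : |P.2.1 - P.1.2| = mid P := abs_of_pos (by linarith)
  rw [hmidP] at d3 d4
  have hXabs : 0 < |X.1 - X.2| := abs_pos.2 (by linarith)
  have hspQ : 0 < span Q := hmQ.trans hmsQ
  have hspR : 0 < span R := hmR.trans hmsR
  have q1 : |g X.1 - g X.2| * span P ≤ a * (span Q * |X.1 - X.2|) :=
    d1.trans (mul_le_mul_of_nonneg_right hKc (by positivity))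
  have q2 : span R * |X.1 - X.2| ≤ a * (|g X.1 - g X.2| * span P) :=
    d2.trans (mul_le_mul_of_nonneg_right hKc' (by positivity))
  have q3 : mid R * span P ≤ a * (span R * mid P) :=
    d3.trans (mul_le_mul_of_nonneg_right hKc' (by positivity))
  have q4 : span Q * mid P ≤ a * (mid Q * span P) :=
    d4.trans (mul_le_mul_of_nonneg_right hKc (by positivity))
  have hRQ : mid R ≤ a ^ 4 * mid Q :=
    num_EGS a _ _ _ _ _ _ _ _ ha0 hsP hXabs hmP q1 q2 q3 q4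
  obtain ⟨m1, s1, f1⟩ := hFIL K S Λ hK hg hl P g c hP hw hc.le A δ hAm hAs hAf
  obtain ⟨m2, s2, f2⟩ := hFIL K S Λ hK hg hl P g' c' hP hw' hc'.le A δ hAm hAs hAf
  rw [← hQ] at s1 f1
  rw [← hR] at s2 f2
  have hδ0 : 0 ≤ δ := by
    by_contra hcon
    push Not at hcon
    have : δ * mid P < 0 := mul_neg_of_neg_of_pos hcon hmP
    linarith [ENNReal.toReal_nonneg (a := volume (core P \ A))]
  have hE24 : Real.exp (24 * K) = a ^ 2 := by
    rw [ha, ← Real.exp_nat_mul]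
    congr 1
    push_cast
    ring
  have hE72 : Real.exp (-(72 * K)) * a ^ 6 = 1 := by
    rw [ha, ← Real.exp_nat_mul, ← Real.exp_add]
    rw [show -(72 * K) + ((6 : ℕ) : ℝ) * (12 * K) = 0 by push_cast; ring, Real.exp_zero]
  have ha1 : 1 ≤ a := by
    rw [ha]
    exact Real.one_le_exp (by linarith)
  have hδ6 : a ^ 6 * δ ≤ 1 / 4 := by
    calc a ^ 6 * δ ≤ a ^ 6 * (Real.exp (-(72 * K)) / 4) :=
          mul_le_mul_of_nonneg_left hδ (by positivity)
      _ = (Real.exp (-(72 * K)) * a ^ 6) / 4 := by ring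
      _ = 1 / 4 := by rw [hE72]
  have hδ2 : a ^ 2 * δ ≤ 1 / 4 :=
    (mul_le_mul_of_nonneg_right (pow_le_pow_right₀ ha1 (by norm_num)) hδ0).trans hδ6
  rw [hE24] at f1 f2
  have g1 : (volume (core Q \ ⇑g '' A)).toReal ≤ 1 / 4 * mid Q :=
    f1.trans (mul_le_mul_of_nonneg_right hδ2 hmQ.le)
  have g2 : (volume (core R \ ⇑g' '' A)).toReal ≤ 1 / 4 * mid Q := by
    refine f2.trans ?_
    calc a ^ 2 * δ * mid R ≤ a ^ 2 * δ * (a ^ 4 * mid Q) :=
          mul_le_mul_of_nonneg_left hRQ (by positivity)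
      _ = (a ^ 6 * δ) * mid Q := by ring
      _ ≤ 1 / 4 * mid Q := mul_le_mul_of_nonneg_right hδ6 hmQ.le
  have hcov : core Q ⊆ (core Q \ ⇑g '' A) ∪ (core R \ ⇑g' '' A) := by
    intro z hz
    by_cases hzg : z ∈ ⇑g '' A
    · exact Or.inr ⟨hsub hz, fun h => Set.disjoint_left.1 hdj hzg h⟩
    · exact Or.inl ⟨hz, hzg⟩
  have hfin1 : volume (core Q \ ⇑g '' A) ≠ ⊤ := by
    refine ne_top_of_le_ne_top ?_ (measure_mono sdiff_subset)
    rw [core, Real.volume_Ioo]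
    exact ENNReal.ofReal_ne_top
  have hfin2 : volume (core R \ ⇑g' '' A) ≠ ⊤ := by
    refine ne_top_of_le_ne_top ?_ (measure_mono sdiff_subset)
    rw [core, Real.volume_Ioo]
    exact ENNReal.ofReal_ne_top
  have hvol : (volume (core Q)).toReal = mid Q := by
    rw [core, Real.volume_Ioo, ENNReal.toReal_ofReal]
    · rfl
    · exact hmQ.le
  have hfinal : mid Q ≤ 1 / 4 * mid Q + 1 / 4 * mid Q := by
    rw [← hvol]
    have t1 : volume (core Q) ≤ volume (core Q \ ⇑g '' A) + volume (core R \ ⇑g' '' A) :=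
      (measure_mono hcov).trans (measure_union_le _ _)
    have t2 := ENNReal.toReal_mono (ENNReal.add_ne_top.2 ⟨hfin1, hfin2⟩) t1
    rw [ENNReal.toReal_add hfin1 hfin2] at t2
    rw [hvol] at t2 ⊢
    linarith
  linarith

theorem tEGS : StBAS → StLAM → StACT → StPAC → StGEO → StWAY → StCST → StPER → StDST →
    StFIL → StDJN → StEGS := by
  intro _ hLAM hACT _ hGEO hWAY hCST hPER hDST hFIL hDJN K hK1
  obtain ⟨δ0, hδ0, hδ01, hD⟩ := hDJN K hK1
  refine ⟨min δ0 (Real.exp (-(72 * K)) / 4), lt_min hδ0 (by positivity),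
    (min_le_left _ _).trans hδ01, ?_⟩
  intro S Λ G P h th A b hth iso F hF
  obtain ⟨hinv, -, -, -, -, -, -, hsep⟩ := hLAM K S Λ b.gens b.lam
  have hact := hACT K S Λ b.gens b.lam
  obtain ⟨hgeo1, -, -, -, -, -⟩ := hGEO K S Λ b.gens b.lam
  obtain ⟨hc1, hc2, hc3, hc4, -, -, -⟩ := hCST K S Λ b.gens b.lam P b.pair
  obtain ⟨hway, -, -, -⟩ := hWAY K S Λ b.gens b.lam P b.pair
  have hmP : 0 < mid P := (hgeo1 P b.pair).1
  have iso0 : Iso S P A δ0 :=
    ⟨iso.meas, iso.sub, iso.fill.trans (mul_le_mul_of_nonneg_right (min_le_left _ _) hmP.le),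
      iso.iso⟩
  have hdis := hD S Λ G P h th A b (hth.trans (min_le_left _ _)) iso0
  have hT : ∀ x : ℝ, x ∈ Λ ↔ x + 1 ∈ Λ := by
    intro x
    have hTm : T ∈ Gr S := Subgroup.subset_closure (mem_insert _ _)
    have := hinv T hTm x
    rw [← this]
    rfl
  have hTn : ∀ (n : ℤ) (x : ℝ), x ∈ Λ ↔ x + n ∈ Λ := int_EGS Λ hT
  have hPgap1 : Gap Λ P.1.1 P.1.2 := b.pair.1
  have hPgap2 : Gap Λ P.2.1 P.2.2 := b.pair.2.1
  have hP3 : P.1.2 ≤ P.2.1 := b.pair.2.2.1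
  have hP1 : P.1.1 < P.1.2 := hPgap1.1
  have hP2 : P.2.1 < P.2.2 := hPgap2.1
  -- two states with the same end gap coming from the same gap of `P`
  have two : ∀ (Q R : PG) (g : Equiv.Perm ℝ) (c : ℝ) (g' : Equiv.Perm ℝ) (c' : ℝ) (X : ℝ × ℝ),
      Way S P g c → c < 12 → Q = pact g P → Way S P g' c' → c' < 12 → R = pact g' P →
      P.1.1 ≤ X.1 → X.1 < X.2 → X.2 ≤ P.2.2 → sact g X = sact g' X → core Q ⊆ core R → Q ≠ R →
      False := by
    intro Q R g c g' c' X hw hc hQ hw' hc' hR hX1 hX hX2 hV hsub hne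
    refine two_EGS hDST hFIL hACT hWAY hGEO K hK1 S Λ b.gens b.lam P b.pair A _ (min_le_right _ _)
      iso.meas iso.sub iso.fill Q R g c g' c' X hw hc hQ hw' hc' hR hX1 hX hX2 hV hsub ?_
    refine hdis g g' c c' hw hw' hc.le hc'.le ?_
    rw [← hQ, ← hR]
    exact hne
  -- states with the same end gap
  have key : ∀ e : PG → ℝ × ℝ, (e = Prod.fst ∨ e = Prod.snd) → ∀ Q R : PG, e Q = e R →
      (core Q ⊆ core R ∨ core R ⊆ core Q) := by
    intro e he Q R heq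
    rcases he with rfl | rfl
    · have h12 : Q.1.2 = R.1.2 := congrArg Prod.snd heq
      rcases le_total Q.2.1 R.2.1 with h1 | h1
      · exact Or.inl (Ioo_subset_Ioo h12.ge h1)
      · exact Or.inr (Ioo_subset_Ioo h12.le h1)
    · have h21 : Q.2.1 = R.2.1 := congrArg Prod.fst heq
      rcases le_total Q.1.2 R.1.2 with h1 | h1
      · exact Or.inr (Ioo_subset_Ioo h1 h21.ge)
      · exact Or.inl (Ioo_subset_Ioo h1 h21.le)
  -- at most two
  have three : ∀ e : PG → ℝ × ℝ, (e = Prod.fst ∨ e = Prod.snd) → ∀ X Y Z : PG,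
      (∀ Q ∈ ({X, Y, Z} : Set PG), Sta S P Q ∧ cst S P Q < 12) → e X = e Y → e Y = e Z →
      X ≠ Y → Y ≠ Z → X ≠ Z → False := by
    intro e he X Y Z hXYZ hXY hYZ n1 n2 n3
    obtain ⟨sX, cX⟩ := hXYZ X (by simp)
    obtain ⟨sY, cY⟩ := hXYZ Y (by simp)
    obtain ⟨sZ, cZ⟩ := hXYZ Z (by simp)
    have rep : ∀ Q, Sta S P Q → cst S P Q < 12 → ∃ g c, Way S P g c ∧ c < 12 ∧ Q = pact g P ∧
        (e Q = sact g P.1 ∨ e Q = sact g P.2) := by
      intro Q hQ hcQ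
      obtain ⟨g, c, hw, hc, hQe⟩ := (hc2 Q (12) hQ).1 hcQ
      refine ⟨g, c, hw, hc, hQe, ?_⟩
      have hgm := (hway g c hw).1
      have h2 := (hact g hgm P b.pair).2.1
      rw [← hQe] at h2
      rcases he with rfl | rfl
      · rcases h2 with h2 | h2
        · exact Or.inl h2.1
        · exact Or.inr h2.1
      · rcases h2 with h2 | h2
        · exact Or.inr h2.2
        · exact Or.inl h2.2
    obtain ⟨g1, c1, w1, l1, q1, r1⟩ := rep X sX cX
    obtain ⟨g2, c2, w2, l2, q2, r2⟩ := rep Y sY cY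
    obtain ⟨g3, c3, w3, l3, q3, r3⟩ := rep Z sZ cZ
    have fin : ∀ (Q R : PG) (g : Equiv.Perm ℝ) (c : ℝ) (g' : Equiv.Perm ℝ) (c' : ℝ) (W : ℝ × ℝ),
        Sta S P Q → Sta S P R → cst S P Q < 12 → cst S P R < 12 → e Q = e R → Q ≠ R →
        Way S P g c → c < 12 → Q = pact g P → Way S P g' c' → c' < 12 → R = pact g' P →
        (W = P.1 ∨ W = P.2) → e Q = sact g W → e R = sact g' W → False := by
      intro Q R g c g' c' W hQ hR hcQ hcR heq hne hw hc hQe hw' hc' hRe hW hg hg'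
      have hV : sact g W = sact g' W := by rw [← hg, ← hg', heq]
      have hW1 : P.1.1 ≤ W.1 ∧ W.1 < W.2 ∧ W.2 ≤ P.2.2 := by
        rcases hW with rfl | rfl
        · exact ⟨le_rfl, hP1, by linarith⟩
        · exact ⟨by linarith, hP2, le_rfl⟩
      rcases key e he Q R heq with h8 | h8
      · exact two Q R g c g' c' W hw hc hQe hw' hc' hRe hW1.1 hW1.2.1 hW1.2.2 hV h8 hne
      · exact two R Q g' c' g c W hw' hc' hRe hw hc hQe hW1.1 hW1.2.1 hW1.2.2 hV.symm h8 hne.symm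
    rcases r1 with r1 | r1 <;> rcases r2 with r2 | r2 <;> rcases r3 with r3 | r3
    · exact fin X Y g1 c1 g2 c2 P.1 sX sY cX cY hXY n1 w1 l1 q1 w2 l2 q2 (Or.inl rfl) r1 r2
    · exact fin X Y g1 c1 g2 c2 P.1 sX sY cX cY hXY n1 w1 l1 q1 w2 l2 q2 (Or.inl rfl) r1 r2
    · exact fin X Z g1 c1 g3 c3 P.1 sX sZ cX cZ (hXY.trans hYZ) n3 w1 l1 q1 w3 l3 q3 (Or.inl rfl) r1 r3
    · exact fin Y Z g2 c2 g3 c3 P.2 sY sZ cY cZ hYZ n2 w2 l2 q2 w3 l3 q3 (Or.inr rfl) r2 r3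
    · exact fin Y Z g2 c2 g3 c3 P.1 sY sZ cY cZ hYZ n2 w2 l2 q2 w3 l3 q3 (Or.inl rfl) r2 r3
    · exact fin X Z g1 c1 g3 c3 P.2 sX sZ cX cZ (hXY.trans hYZ) n3 w1 l1 q1 w3 l3 q3 (Or.inr rfl) r1 r3
    · exact fin X Y g1 c1 g2 c2 P.2 sX sY cX cY hXY n1 w1 l1 q1 w2 l2 q2 (Or.inr rfl) r1 r2
    · exact fin X Y g1 c1 g2 c2 P.2 sX sY cX cY hXY n1 w1 l1 q1 w2 l2 q2 (Or.inr rfl) r1 r2
  -- the sum for one side
  have side : ∀ e : PG → ℝ × ℝ, (e = Prod.fst ∨ e = Prod.snd) →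
      ∑ Q ∈ F, ((e Q).2 - (e Q).1) ≤ 2 := by
    classical
    intro e he
    set N : PG → ℝ × ℝ := fun Q => ((e Q).1 + (-⌊(e Q).1⌋ : ℤ), (e Q).2 + (-⌊(e Q).1⌋ : ℤ)) with hN
    have hesh : ∀ (k : ℤ) (Q : PG), e (sh k Q) = ((e Q).1 + k, (e Q).2 + k) := by
      intro k Q
      rcases he with rfl | rfl <;> rfl
    have hgap : ∀ Q ∈ F, Gap Λ (e Q).1 (e Q).2 := by
      intro Q hQ
      have := (hc1 Q (hF Q hQ).1).1
      rcases he with rfl | rfl
      · exact this.1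
      · exact this.2.1
    have hfib : ∀ w ∈ F.image N, ((F.filter (fun Q => N Q = w)).card : ℝ) ≤ 2 := by
      intro w _
      have : (F.filter (fun Q => N Q = w)).card ≤ 2 := by
        by_contra hcon
        rw [not_le] at hcon
        obtain ⟨X, hX, Y, hY, Z, hZ, hXY, hXZ, hYZ⟩ := Finset.two_lt_card.1 hcon
        rw [Finset.mem_filter] at hX hY hZ
        have tr : ∀ Q, Q ∈ F ∧ N Q = w → Sta S P (sh (-⌊(e Q).1⌋) Q) ∧
            cst S P (sh (-⌊(e Q).1⌋) Q) < 12 ∧ e (sh (-⌊(e Q).1⌋) Q) = w := by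
          intro Q hQ
          obtain ⟨sQ, cQ, -, -⟩ := hF Q hQ.1
          obtain ⟨a1, a2⟩ := hc4 Q (-⌊(e Q).1⌋) sQ
          exact ⟨a1, by rw [a2]; exact cQ, by rw [hesh, ← hQ.2]⟩
        obtain ⟨x1, x2, x3⟩ := tr X hX
        obtain ⟨y1, y2, y3⟩ := tr Y hY
        obtain ⟨z1, z2, z3⟩ := tr Z hZ
        have fX := (hF X hX.1).2.2
        have fY := (hF Y hY.1).2.2
        have fZ := (hF Z hZ.1).2.2
        refine three e he (sh (-⌊(e X).1⌋) X) (sh (-⌊(e Y).1⌋) Y) (sh (-⌊(e Z).1⌋) Z) ?_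
          (x3.trans y3.symm) (y3.trans z3.symm) ?_ ?_ ?_
        · rintro Q (rfl | rfl | rfl)
          · exact ⟨x1, x2⟩
          · exact ⟨y1, y2⟩
          · exact ⟨z1, z2⟩
        · exact fun hh => hXY (shne_EGS _ _ X Y fX.1 fX.2 fY.1 fY.2 hh)
        · exact fun hh => hYZ (shne_EGS _ _ Y Z fY.1 fY.2 fZ.1 fZ.2 hh)
        · exact fun hh => hXZ (shne_EGS _ _ X Z fX.1 fX.2 fZ.1 fZ.2 hh)
      exact_mod_cast this
    -- properties of the image
    have him : ∀ w ∈ F.image N, Gap Λ w.1 w.2 ∧ 0 ≤ w.1 ∧ w.1 < 1 := by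
      intro w hw
      obtain ⟨Q, hQ, rfl⟩ := Finset.mem_image.1 hw
      obtain ⟨g1, g2, g3, g4⟩ := hgap Q hQ
      refine ⟨⟨?_, ?_, ?_, ?_⟩, ?_, ?_⟩
      · show (e Q).1 + ((-⌊(e Q).1⌋ : ℤ) : ℝ) < (e Q).2 + ((-⌊(e Q).1⌋ : ℤ) : ℝ)
        linarith
      · exact (hTn _ _).1 g2
      · exact (hTn _ _).1 g3
      · ext x
        simp only [mem_inter_iff, mem_empty_iff_false, iff_false, not_and]
        intro hx hxL
        have h1 : x - ((-⌊(e Q).1⌋ : ℤ) : ℝ) ∈ Λ := by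
          rw [hTn (-⌊(e Q).1⌋)]
          simpa using hxL
        have h2 : x - ((-⌊(e Q).1⌋ : ℤ) : ℝ) ∈ Ioo (e Q).1 (e Q).2 := by
          have b1 : (e Q).1 + ((-⌊(e Q).1⌋ : ℤ) : ℝ) < x := hx.1
          have b2 : x < (e Q).2 + ((-⌊(e Q).1⌋ : ℤ) : ℝ) := hx.2
          exact ⟨by linarith, by linarith⟩
        have : x - ((-⌊(e Q).1⌋ : ℤ) : ℝ) ∈ Ioo (e Q).1 (e Q).2 ∩ Λ := ⟨h2, h1⟩
        rw [g4] at this
        exact this
      · show 0 ≤ (e Q).1 + ((-⌊(e Q).1⌋ : ℤ) : ℝ)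
        have := Int.floor_le (e Q).1
        push_cast
        linarith
      · show (e Q).1 + ((-⌊(e Q).1⌋ : ℤ) : ℝ) < 1
        have := Int.lt_floor_add_one (e Q).1
        push_cast
        linarith
    have hsum1 : ∑ Q ∈ F, ((e Q).2 - (e Q).1) ≤ 2 * ∑ w ∈ F.image N, (w.2 - w.1) := by
      rw [← Finset.sum_fiberwise_of_maps_to (g := N) (t := F.image N)
        (fun Q hQ => Finset.mem_image_of_mem N hQ), Finset.mul_sum]
      refine Finset.sum_le_sum fun w hw => ?_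
      have hw0 : 0 < w.2 - w.1 := by
        have := (him w hw).1.1
        linarith
      calc ∑ Q ∈ F.filter (fun Q => N Q = w), ((e Q).2 - (e Q).1)
          = ∑ _Q ∈ F.filter (fun Q => N Q = w), (w.2 - w.1) := by
            refine Finset.sum_congr rfl fun Q hQ => ?_
            rw [← (Finset.mem_filter.1 hQ).2]
            show _ = (e Q).2 + ((-⌊(e Q).1⌋ : ℤ) : ℝ) - ((e Q).1 + ((-⌊(e Q).1⌋ : ℤ) : ℝ))
            ring
        _ = ((F.filter (fun Q => N Q = w)).card : ℝ) * (w.2 - w.1) := by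
            rw [Finset.sum_const, nsmul_eq_mul]
        _ ≤ 2 * (w.2 - w.1) := mul_le_mul_of_nonneg_right (hfib w hw) hw0.le
    have hsum2 : ∑ w ∈ F.image N, (w.2 - w.1) ≤ 1 := by
      have hper := hPER univ MeasurableSet.univ (fun x => by simp) (ℝ × ℝ) (F.image N)
        (fun w => Ioo w.1 w.2) (fun w _ => ⟨measurableSet_Ioo, subset_univ _⟩) ?_
      · have hone : (volume (univ ∩ Icc (0 : ℝ) 1)).toReal = 1 := by
          rw [univ_inter, Real.volume_Icc, ENNReal.toReal_ofReal (by norm_num)]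
          norm_num
        rw [hone] at hper
        refine le_trans (le_of_eq ?_) hper
        refine Finset.sum_congr rfl fun w hw => ?_
        have := (him w hw).1.1
        rw [Real.volume_Ioo, ENNReal.toReal_ofReal (by linarith)]
      · intro w hw w' hw' k hne
        obtain ⟨g1, g3, g4⟩ := him w hw
        obtain ⟨g1', g3', g4'⟩ := him w' hw'
        have gs : Gap Λ (w'.1 + k) (w'.2 + k) := by
          obtain ⟨a1, a2, a3, a4⟩ := g1'
          refine ⟨by linarith, (hTn _ _).1 a2, (hTn _ _).1 a3, ?_⟩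
          ext x
          simp only [mem_inter_iff, mem_empty_iff_false, iff_false, not_and]
          intro hx hxL
          have h1 : x - (k : ℝ) ∈ Λ := by
            rw [hTn k]
            simpa using hxL
          have : x - (k : ℝ) ∈ Ioo w'.1 w'.2 ∩ Λ :=
            ⟨⟨by linarith [hx.1], by linarith [hx.2]⟩, h1⟩
          rw [a4] at this
          exact this
        have hdiff : (w.1, w.2) ≠ (w'.1 + (k : ℝ), w'.2 + (k : ℝ)) := by
          intro heq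
          have e1 : w.1 = w'.1 + k := congrArg Prod.fst heq
          have e2 : w.2 = w'.2 + k := congrArg Prod.snd heq
          have k0 : k = 0 := by
            have b1 : (k : ℝ) < 1 := by linarith
            have b2 : (-1 : ℝ) < k := by linarith
            have b3 : k < 1 := by exact_mod_cast b1
            have b4 : -1 < k := by exact_mod_cast b2
            omega
          rw [k0] at e1 e2
          rcases hne with hne | hne
          · refine hne (Prod.ext ?_ ?_)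
            · rw [e1]; simp
            · rw [e2]; simp
          · exact hne k0
        rw [Set.disjoint_left]
        rintro x hx ⟨y, hy, rfl⟩
        have y1 : w'.1 + k < y + k := by linarith [hy.1]
        have y2 : y + k < w'.2 + k := by linarith [hy.2]
        have x1 : w.1 < y + k := hx.1
        have x2 : y + k < w.2 := hx.2
        rcases hsep w.1 w.2 (w'.1 + k) (w'.2 + k) g1 gs hdiff with h1 | h1
        · linarith
        · linarith
    linarith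
  rw [Finset.sum_add_distrib]
  have s1 := side Prod.fst (Or.inl rfl)
  have s2 := side Prod.snd (Or.inr rfl)
  have s1' : ∑ Q ∈ F, (Q.1.2 - Q.1.1) ≤ 2 := s1
  have s2' : ∑ Q ∈ F, (Q.2.2 - Q.2.1) ≤ 2 := s2
  linarith

end Pool.Agent.Helper39.HS
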