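import Pool.Agent.Helper39.HS.St3

/-! # HS module FIL: good parts of images -/

set_option autoImplicit false

namespace Pool.Agent.Helper39.HS

open Set MeasureTheory Filter Topology Pool.Agent.Helper82.HG Pool.Agent.Helper82.HC
  Pool.Agent.Helper21.HN

theorem tFIL : StBAS → StACT → StPAC → StGEO → StWAY → StVOL → StDST → StFIL := by
  intro hB hA hP hGe hW hV hD K S Λ hK hG hL P g c hPP hw hc A e hAm hAs hAv
  obtain ⟨hgG, hc0, -⟩ := (hW K S Λ hG hL P hPP).1 g c hw
  obtain ⟨hd, hne, hmo, -⟩ := hB K S hG g hgG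
  have hinj : Function.Injective g := g.injective
  have hcore := (hP K S Λ hG hL).2.2.2.1 g hgG P hPP
  obtain ⟨hmid0, hms, -⟩ := (hGe K S Λ hG hL).1 P hPP
  have hspan0 : 0 < span P := by linarith
  obtain ⟨-, -, hspan, hmid, -⟩ := hA K S Λ hG hL g hgG P hPP
  have hσ0 : 0 ≤ span (pact g P) := by rw [hspan]; exact abs_nonneg _
  have h1 := hPP.1.1
  have h2 := hPP.2.1.1
  have h3 := hPP.2.2.1
  have hDS := hD K S Λ hK hG hL P g c hPP hw
  have hsub : core P ⊆ Icc P.1.1 P.2.2 := by
    intro x hx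
    unfold core at hx
    exact ⟨by linarith [hx.1], by linarith [hx.2]⟩
  set C : ℝ := Real.exp (K * c) * span (pact g P) / span P with hC
  have hC0 : 0 ≤ C := div_nonneg (mul_nonneg (Real.exp_pos _).le hσ0) hspan0.le
  have hder : ∀ x ∈ core P, DifferentiableAt ℝ g x ∧ 0 ≤ |deriv g x| ∧ |deriv g x| ≤ C := by
    intro x hx
    refine ⟨hd x, abs_nonneg _, ?_⟩
    rw [hC, le_div_iff₀ hspan0]
    exact (hDS x (hsub hx) x (hsub hx)).2.2.2.2.1
  have hcorev : volume (core P) ≠ ⊤ := by
    unfold core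
    rw [Real.volume_Ioo]
    exact ENNReal.ofReal_ne_top
  have hfin : ∀ s : Set ℝ, s ⊆ core P → volume s ≠ ⊤ := fun s hs =>
    ne_top_of_le_ne_top hcorev (measure_mono hs)
  have hAm' := (hV g A 0 C hAm hinj.injOn le_rfl (fun x hx => hder x (hAs hx)) (hfin A hAs)).1
  have hsm : MeasurableSet (core P \ A) := MeasurableSet.diff measurableSet_Ioo hAm
  have hvv := (hV g (core P \ A) 0 C hsm hinj.injOn le_rfl (fun x hx => hder x hx.1)
    (hfin _ sdiff_subset)).2.2.2
  refine ⟨hAm', ?_, ?_⟩
  · rw [hcore]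
    exact image_mono hAs
  · rw [hcore, ← image_sdiff hinj]
    have he0 : 0 ≤ e := by
      by_contra hcon
      push Not at hcon
      have h4 : e * mid P < 0 := mul_neg_of_neg_of_pos hcon hmid0
      have h5 : 0 ≤ (volume (core P \ A)).toReal := ENNReal.toReal_nonneg
      linarith
    have hy : P.2.1 ∈ Icc P.1.1 P.2.2 := ⟨by linarith, by linarith⟩
    have hz : P.1.2 ∈ Icc P.1.1 P.2.2 := ⟨by linarith, by linarith⟩
    have h6 := (hDS P.2.1 hy P.1.2 hz).2.2.2.1
    rw [← hmid, abs_of_nonneg (show 0 ≤ P.2.1 - P.1.2 by linarith)] at h6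
    change span (pact g P) * mid P ≤ _ at h6
    have hmid0' : 0 ≤ mid (pact g P) := by rw [hmid]; exact abs_nonneg _
    calc (volume (g '' (core P \ A))).toReal ≤ C * (volume (core P \ A)).toReal := hvv
      _ ≤ C * (e * mid P) := mul_le_mul_of_nonneg_left hAv hC0
      _ = Real.exp (K * c) * e * (span (pact g P) * mid P) / span P := by rw [hC]; ring
      _ ≤ Real.exp (K * c) * e * (Real.exp (K * c) * (mid (pact g P) * span P)) / span P := by
          apply div_le_div_of_nonneg_right _ hspan0.le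
          exact mul_le_mul_of_nonneg_left h6 (mul_nonneg (Real.exp_pos _).le he0)
      _ = (Real.exp (K * c) * Real.exp (K * c)) * (e * mid (pact g P)) := by
          field_simp
      _ ≤ Real.exp (24 * K) * (e * mid (pact g P)) := by
          apply mul_le_mul_of_nonneg_right _ (mul_nonneg he0 hmid0')
          rw [← Real.exp_add]
          apply Real.exp_le_exp.2
          nlinarith
      _ = Real.exp (24 * K) * e * mid (pact g P) := by ring

end Pool.Agent.Helper39.HS
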