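import Pool.Agent.Helper39.HS.St2

/-!
# MP_10ef18_an (Hector), project HN: module FNL (all states are small)
-/

set_option autoImplicit false

namespace Pool.Agent.Helper39.HS

open Set MeasureTheory Pool.Agent.Helper82.HG Pool.Agent.Helper82.HC Pool.Agent.Helper21.HN

theorem tFNL : StCST → StCON → StFNL := by
  intro hCST hCON K S Λ G P L h m hB g hg
  have hSta : Sta S P (pact g P) := ⟨g, hg, rfl⟩
  obtain ⟨-, h2, -⟩ := hCST K S Λ hB.gens hB.lam P hB.pair
  have hlt : cst S P (pact g P) < 4 / 5 * L := by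
    have := hCON K S Λ G P L h m hB (pact g P) hSta
    linarith
  obtain ⟨g', c, hw, hc, hQ⟩ := (h2 (pact g P) (4 / 5 * L) hSta).1 hlt
  have hL := hB.L0
  rw [hQ]
  exact hB.sml g' c hw (by linarith)

end Pool.Agent.Helper39.HS
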