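import Pool.Agent.Helper39.HS.St3

/-! # MP_10ef18_an, project HS, module FNS -/

set_option autoImplicit false

namespace Pool.Agent.Helper39.HS

open Set MeasureTheory Filter Topology Pool.Agent.Helper82.HG Pool.Agent.Helper82.HC
  Pool.Agent.Helper21.HN

private theorem iso_mono_FNS (S : Set (Equiv.Perm ℝ)) (P : PG) (A : Set ℝ) (e e' : ℝ)
    (hm : 0 < mid P) (he : e ≤ e') (h : Iso S P A e) : Iso S P A e' := by
  refine ⟨h.meas, h.sub, h.fill.trans ?_, h.iso⟩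
  exact mul_le_mul_of_nonneg_right he hm.le

private theorem all_FNS (hC : StCOV) (hX : StEXS) (K : ℝ) (S : Set (Equiv.Perm ℝ)) (Λ : Set ℝ)
    (hG : Gens K S) (hL : Lam S Λ) (P : PG) (hP : IsPair Λ P)
    (hsp : ∀ Q, Sta S P Q → 0 ≤ span Q)
    (h1 : ∀ F : Finset PG, (∀ Q ∈ F, Sta S P Q ∧ cst S P Q < 12 ∧ 0 ≤ Q.1.1 ∧ Q.1.1 < 1) →
      ∑ Q ∈ F, mid Q ≤ 10 / 9)
    (h2 : ∀ F : Finset PG, (∀ Q ∈ F, Sta S P Q ∧ cst S P Q < 12 ∧ 0 ≤ Q.1.1 ∧ Q.1.1 < 1) →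
      ∑ Q ∈ F, ((Q.1.2 - Q.1.1) + (Q.2.2 - Q.2.1)) ≤ 4) :
    ∀ Q, Sta S P Q → cst S P Q < 12 := by
  intro Q₀ hQ₀
  by_contra hn
  rw [not_lt] at hn
  obtain ⟨s, hs, hs2⟩ := hC PG {Q | Sta S P Q ∧ cst S P Q < 12 ∧ 0 ≤ Q.1.1 ∧ Q.1.1 < 1}
    (fun Q => cst S P Q) (fun Q => span Q) 0 12 (by norm_num) (fun x hx => hsp x hx.1) (by
      intro t ht0 ht1
      obtain ⟨Q, q1, q2, q3, q4, q5⟩ := hX K S Λ hG hL P hP t ht0 ⟨Q₀, hQ₀, lt_of_lt_of_le ht1 hn⟩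
      exact ⟨Q, ⟨q1, lt_of_le_of_lt q4 ht1, q2, q3⟩, q4, q5⟩)
  have e1 := h1 s (fun Q hQ => hs Q hQ)
  have e2 := h2 s (fun Q hQ => hs Q hQ)
  have e3 : ∑ Q ∈ s, span Q = ∑ Q ∈ s, mid Q + ∑ Q ∈ s, ((Q.1.2 - Q.1.1) + (Q.2.2 - Q.2.1)) := by
    rw [← Finset.sum_add_distrib]
    refine Finset.sum_congr rfl fun Q _ => ?_
    unfold span mid
    ring
  rw [e3] at hs2
  linarith

/-- A good small system does not exist. -/
theorem tFNS : StLAM → StACT → StPAC → StGEO → StWAY → StCST → StCOV → StFAR → StFIL → StMDS →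
    StEGS → StEXS → StCMP → StFNS := by
  intro hLAM hACT hPAC hGEO hWAY hCST hCOV hFAR hFIL hMDS hEGS hEXS hCMP K S Λ hK hG hL
  obtain ⟨δ₁, d1, d1', M1⟩ := hMDS K hK
  obtain ⟨δ₂, d2, d2', M2⟩ := hEGS K hK
  have hK0 : 0 < 1000 * K := by linarith
  have hd' : 0 < min δ₁ δ₂ := lt_min d1 d2
  obtain ⟨η, η0, hη⟩ := hFAR K S Λ hG hL
  obtain ⟨φ, φ0, hφ⟩ := hCMP K S Λ hG hL (η / 2) (by linarith)
  have hexp : 0 < Real.exp (24 * K) := Real.exp_pos _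
  obtain ⟨δ, hδ⟩ : ∃ δ : ℝ, δ = min (min (1 / 2) (min δ₁ δ₂ / (1000 * K)))
      (min (η / 4) (φ / (2 * Real.exp (24 * K)))) := ⟨_, rfl⟩
  have hδ0 : 0 < δ := by
    rw [hδ]
    exact lt_min (lt_min (by norm_num) (div_pos hd' hK0)) (lt_min (by linarith) (by positivity))
  have hδ2 : 1000 * K * δ ≤ min δ₁ δ₂ := by
    have : δ ≤ min δ₁ δ₂ / (1000 * K) := by
      rw [hδ]; exact (min_le_left _ _).trans (min_le_right _ _)
    rw [le_div_iff₀ hK0] at this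
    linarith
  have hδ3 : δ ≤ min δ₁ δ₂ := by nlinarith
  have hδ4 : δ ≤ η / 4 := by
    rw [hδ]; exact (min_le_right _ _).trans (min_le_left _ _)
  have hδ5 : Real.exp (24 * K) * δ ≤ φ / 2 := by
    have : δ ≤ φ / (2 * Real.exp (24 * K)) := by
      rw [hδ]; exact (min_le_right _ _).trans (min_le_right _ _)
    rw [le_div_iff₀ (by positivity)] at this
    linarith
  refine ⟨δ, hδ0, ?_⟩
  intro G P h A hh hSys hIso hAL
  have hP := hSys.pair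
  obtain ⟨c1, c2, c3, c4, c5, c6, c7⟩ := hCST K S Λ hG hL P hP
  have hgeo := (hGEO K S Λ hG hL).1
  have hmid := (hgeo P hP).1
  have hI1 : Iso S P A δ₁ := iso_mono_FNS S P A δ δ₁ hmid (hδ3.trans (min_le_left _ _)) hIso
  have hI2 : Iso S P A δ₂ := iso_mono_FNS S P A δ δ₂ hmid (hδ3.trans (min_le_right _ _)) hIso
  have hall := all_FNS hCOV hEXS K S Λ hG hL P hP
    (fun Q hQ => by
      obtain ⟨g1, g2, g3⟩ := hgeo Q (c1 Q hQ).1
      linarith)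
    (M1 S Λ G P h δ A hSys (hδ2.trans (min_le_left _ _)) hI1)
    (M2 S Λ G P h δ A hSys (hδ2.trans (min_le_right _ _)) hI2)
  obtain ⟨g, hg, hgη⟩ := hη P hP
  have hst : Sta S P (pact g P) := ⟨g, hg, rfl⟩
  obtain ⟨u, c, hw, hc, hug⟩ := (c2 (pact g P) 12 hst).1 (hall _ hst)
  have hu : u ∈ Gr S := ((hWAY K S Λ hG hL P hP).1 u c hw).1
  rw [hug] at hgη
  -- the end gaps of `Q` are short
  have hact := hACT K S Λ hG hL u hu P hP
  have hQp := hact.1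
  have hG1 : (pact u P).1 ∈ G ∧ (pact u P).2 ∈ G := by
    rcases hact.2.1 with ⟨e1, e2⟩ | ⟨e1, e2⟩
    · rw [e1, e2]
      exact ⟨hSys.gact u hu _ hSys.mem1, hSys.gact u hu _ hSys.mem2⟩
    · rw [e1, e2]
      exact ⟨hSys.gact u hu _ hSys.mem2, hSys.gact u hu _ hSys.mem1⟩
  have hl1 := hSys.glen _ hG1.1
  have hl2 := hSys.glen _ hG1.2
  have hmQ : η / 2 ≤ mid (pact u P) := by
    have h1 : span (pact u P) = mid (pact u P) + (((pact u P).1.2 - (pact u P).1.1) +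
        ((pact u P).2.2 - (pact u P).2.1)) := by
      unfold span mid; ring
    linarith
  obtain ⟨gQ1, gQ2, gQ3⟩ := hgeo _ hQp
  obtain ⟨f1, f2, f3⟩ := hFIL K S Λ hK hG hL P u c hP hw hc.le A δ hIso.meas hIso.sub hIso.fill
  have f4 : (volume (core (pact u P) \ ⇑u '' A)).toReal ≤ φ / 2 := by
    have h1 : Real.exp (24 * K) * δ * mid (pact u P) ≤ Real.exp (24 * K) * δ * 1 :=
      mul_le_mul_of_nonneg_left (by linarith) (by positivity)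
    linarith
  have huA : ⇑u '' A ⊆ Λ := by
    rintro _ ⟨y, hy, rfl⟩
    exact ((hLAM K S Λ hG hL).1 u hu y).2 (hAL hy)
  have f5 : Ioo (pact u P).1.2 ((pact u P).1.2 + η / 2) \ Λ ⊆ core (pact u P) \ ⇑u '' A := by
    rintro x ⟨hx1, hx2⟩
    refine ⟨⟨hx1.1, ?_⟩, fun hx => hx2 (huA hx)⟩
    have : mid (pact u P) = (pact u P).2.1 - (pact u P).1.2 := rfl
    linarith [hx1.2]
  have hfin : volume (core (pact u P) \ ⇑u '' A) ≠ ⊤ := by
    refine ne_top_of_le_ne_top ?_ (measure_mono sdiff_subset)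
    unfold core
    rw [Real.volume_Ioo]
    exact ENNReal.ofReal_ne_top
  have f6 := ENNReal.toReal_mono hfin (measure_mono f5)
  have f7 := hφ (pact u P).1.2
  linarith

end Pool.Agent.Helper39.HS
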