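import Pool.Agent.Helper39.HS.St2

set_option autoImplicit false

namespace Pool.Agent.Helper39.HS

open Set MeasureTheory Pool.Agent.Helper82.HG Pool.Agent.Helper82.HC Pool.Agent.Helper21.HN

theorem tIMP : StACT → StPAC → StGEO → StWAY → StTRB → StCST → StTOP → StIMP := by
  intro _ hPAC hGEO hWAY hTRB hCST hTOP K S Λ G P L h m hB Q R hQ hR hcQ hcR hQR
  obtain ⟨p1, p2, _, _, p5, _, _⟩ := hPAC K S Λ hB.gens hB.lam
  obtain ⟨g1, g2, _, _, _, _⟩ := hGEO K S Λ hB.gens hB.lam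
  obtain ⟨w1, w2, w3, _⟩ := hWAY K S Λ hB.gens hB.lam P hB.pair
  obtain ⟨c1, c2, _, _, _, _, _⟩ := hCST K S Λ hB.gens hB.lam P hB.pair
  have hQp : IsPair Λ Q := (c1 Q hQ).1
  have hRp : IsPair Λ R := (c1 R hR).1
  by_contra hcon
  rw [not_le] at hcon
  obtain ⟨u, c, hw, hcL, hQe⟩ := (c2 Q L hQ).1 hcQ
  obtain ⟨g', c', hw', hc'L, hRe⟩ := (c2 R L hR).1 hcR
  have hL := hB.L0
  have huG : u ∈ Gr S := (w1 u c hw).1
  have hg'G : g' ∈ Gr S := (w1 g' c' hw').1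
  obtain ⟨c₁, hc₁, hw₁⟩ := w3 u c hw
  have hspQ : span Q ≤ h := by rw [hQe]; exact hB.sml u c hw (by linarith)
  rw [← hQe] at hc₁ hw₁
  have hspQ0 : 0 < span Q := by
    have := g1 Q hQp
    linarith [this.1, this.2.1]
  have hspR0 : 0 < span R := by
    have := g1 R hRp
    linarith [this.1, this.2.1]
  have hn := g2 Q R hQp hRp hQR
  have hhL := hB.hL
  have hc₁L : 200 * c₁ ≤ 201 * L := by linarith
  have hK1 := hB.K1
  have hKL := hB.KL
  have hc₁0 : 0 ≤ c₁ := by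
    obtain ⟨q1, _, _, _⟩ := hWAY K S Λ hB.gens hB.lam Q hQp
    exact (q1 u⁻¹ c₁ hw₁).2.1
  have hcr : c₁ * span R ≤ 201 / 200 * L * (20 * span Q) :=
    mul_le_mul (by linarith) hcon.le hspR0.le (by positivity)
  have hyp : 400 * K * (101 * (c₁ * span R)) ≤ 100 * span Q := by
    have h1 : 400 * K * (101 * (c₁ * span R)) ≤
        400 * K * (101 * (201 / 200 * L * (20 * span Q))) :=
      mul_le_mul_of_nonneg_left (by linarith) (by linarith)
    have h2 : 400 * K * (101 * (201 / 200 * L * (20 * span Q))) =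
        (400 * 101 * (201 / 200) * 20 / 10000) * (10000 * K * L) * span Q := by ring
    have h3 : (400 * 101 * (201 / 200) * 20 / 10000) * (10000 * K * L) * span Q ≤
        (400 * 101 * (201 / 200) * 20 / 10000) * 1 * span Q := by
      apply mul_le_mul_of_nonneg_right _ hspQ0.le
      apply mul_le_mul_of_nonneg_left hKL
      norm_num
    nlinarith
  obtain ⟨c₂, hw₂, hc₂⟩ := hTRB K S Λ hK1 hB.gens hB.lam Q R u⁻¹ c₁ hQp hRp hn.1 hn.2.1 hw₁ hyp
  have hc₂L : c₂ ≤ 21 * L := by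
    by_contra hc
    rw [not_le] at hc
    have h1 : 21 * L * span Q < c₂ * span Q := mul_lt_mul_of_pos_right hc hspQ0
    nlinarith [mul_pos hL hspQ0]
  rw [hRe] at hw₂
  have hw₃ := w2 g' c' u⁻¹ c₂ hw' hw₂
  have hX : Sta S P (pact (u⁻¹ * g') P) :=
    ⟨u⁻¹ * g', (Gr S).mul_mem ((Gr S).inv_mem huG) hg'G, rfl⟩
  have hcX : cst S P (pact (u⁻¹ * g') P) < 25 * L :=
    (c2 _ (25 * L) hX).2 ⟨u⁻¹ * g', c' + c₂, hw₃, by linarith, rfl⟩
  have hNst := p5 u⁻¹ ((Gr S).inv_mem huG) Q R hQp hRp hQR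
  rw [hQe, ← p2 u⁻¹ ((Gr S).inv_mem huG) u huG P hB.pair, inv_mul_cancel, p1 P hB.pair,
    hRe, ← p2 u⁻¹ ((Gr S).inv_mem huG) g' hg'G P hB.pair] at hNst
  exact hTOP K S Λ G P L h m hB _ hX hcX hNst

end Pool.Agent.Helper39.HS
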