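import Pool.Agent.Helper39.HS.St3

/-!
# MP_10ef18_an (Hector), project HS: module INS
-/

set_option autoImplicit false

namespace Pool.Agent.Helper39.HS

open Set MeasureTheory Pool.Agent.Helper82.HG Pool.Agent.Helper82.HC Pool.Agent.Helper21.HN

private lemma log_INS : 11 / 10 * Real.log (9 / 5) + 1 / 1000 ≤ Real.log 2 := by
  have h1 : Real.log (9 / 5) = Real.log 2 + Real.log (9 / 10) := by
    rw [← Real.log_mul (by norm_num) (by norm_num)]
    norm_num
  have h2 : Real.log (9 / 10) ≤ 9 / 10 - 1 := Real.log_le_sub_one_of_pos (by norm_num)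
  have h3 := Real.log_two_lt_d9
  rw [h1]
  linarith

private lemma half_INS (p q mp mq : ℝ) (hp : 0 < p) (hq : 0 < q) (hmp : 0 < mp)
    (hm : 5 * mp ≤ 9 * mq)
    (h : Real.log p - 11 / 10 * Real.log mp ≤ Real.log q - 11 / 10 * Real.log mq + 1 / 1000) :
    p ≤ 2 * q := by
  have hmq : 0 < mq := by linarith
  have h1 : Real.log mp ≤ Real.log (9 / 5) + Real.log mq := by
    rw [← Real.log_mul (by norm_num) hmq.ne']
    apply Real.log_le_log hmp
    linarith
  have h2 := log_INS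
  have h3 : Real.log p ≤ Real.log (2 * q) := by
    rw [Real.log_mul (by norm_num) hq.ne']
    linarith
  exact (Real.log_le_log_iff hp (by linarith)).1 h3

theorem tINS : StLAM → StGEO → StWTC → StINS := by
  intro _ hGEO hWTC K S Λ G P h th b V hV h1 h2
  by_contra hcon
  rw [not_le] at hcon
  have hgV : Gap Λ V.1 V.2 := b.ggap V hV
  have hgP1 : Gap Λ P.1.1 P.1.2 := b.pair.1
  have hgP2 : Gap Λ P.2.1 P.2.2 := b.pair.2.1
  have hP4 : P.2.2 < P.1.1 + 1 := b.pair.2.2.2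
  have hV12 : V.1 < V.2 := hgV.1
  have hP1 : P.1.1 < P.1.2 := hgP1.1
  have hP2 : P.2.1 < P.2.2 := hgP2.1
  have hQ1 : IsPair Λ (P.1, V) := ⟨hgP1, hgV, h1.le, by show V.2 < P.1.1 + 1; linarith⟩
  have hQ2 : IsPair Λ (V, P.2) := ⟨hgV, hgP2, h2.le, by show P.2.2 < V.1 + 1; linarith⟩
  obtain ⟨hmu, -⟩ := hWTC K S Λ b.K1 b.gens b.lam
  obtain ⟨hgeo, -⟩ := hGEO K S Λ b.gens b.lam
  have hmP : 0 < mu S P := (hmu P b.pair).1
  have hdP := (hgeo P b.pair).1
  have hd1 := (hgeo _ hQ1).1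
  have hd2 := (hgeo _ hQ2).1
  have e1 : mu S P ≤ wt S P.1 := min_le_left _ _
  have e2 : mu S P ≤ wt S P.2 := min_le_right _ _
  have m1 : 5 * mu S P ≤ 9 * mu S (P.1, V) := by
    show 5 * mu S P ≤ 9 * min (wt S P.1) (wt S V)
    rcases le_total (wt S P.1) (wt S V) with h' | h'
    · rw [min_eq_left h']; linarith
    · rw [min_eq_right h']; linarith
  have m2 : 5 * mu S P ≤ 9 * mu S (V, P.2) := by
    show 5 * mu S P ≤ 9 * min (wt S V) (wt S P.2)
    rcases le_total (wt S V) (wt S P.2) with h' | h'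
    · rw [min_eq_left h']; linarith
    · rw [min_eq_right h']; linarith
  have p1 := b.psi _ hQ1 b.mem1 hV
  have p2 := b.psi _ hQ2 hV b.mem2
  have r1 := half_INS _ _ _ _ hdP hd1 hmP m1 p1
  have r2 := half_INS _ _ _ _ hdP hd2 hmP m2 p2
  have q1 : mid (P.1, V) = V.1 - P.1.2 := rfl
  have q2 : mid (V, P.2) = P.2.1 - V.2 := rfl
  have q3 : mid P = P.2.1 - P.1.2 := rfl
  rw [q1, q3] at r1
  rw [q2, q3] at r2
  linarith

end Pool.Agent.Helper39.HS
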