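import Pool.Agent.Helper39.HS.St2

/-!
# MP_10ef18_an (Hector), project HN, module LAB
-/

set_option autoImplicit false

namespace Pool.Agent.Helper39.HS

open Set MeasureTheory Pool.Agent.Helper82.HG Pool.Agent.Helper82.HC Pool.Agent.Helper21.HN

private theorem sh_zero_LAB (R : PG) : sh 0 R = R := by
  simp [sh]

private theorem img_LAB (R : PG) (k : ℤ) :
    (fun x : ℝ => x + k) '' core R = core (sh k R) := by
  simp [core, sh]

private theorem nst_sh_LAB (Q R : PG) (k : ℤ) (h : Nst (sh k R) Q) : Nst R (sh (-k) Q) := by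
  obtain ⟨h1, h2, h3⟩ := h
  refine ⟨?_, ?_, ?_⟩
  · simp only [sh, Int.cast_neg] at h1 ⊢
    linarith
  · simp only [sh, Int.cast_neg] at h2 ⊢
    linarith
  · intro h
    apply h3
    rw [h]
    simp [sh]

private theorem int_LAB (a : ℝ) (k : ℤ) (h0 : 0 ≤ a) (h1 : a < 1) (h2 : 0 ≤ a + k)
    (h3 : a + k < 1) : k = 0 := by
  have h4 : (k : ℝ) < 1 := by linarith
  have h5 : (-1 : ℝ) < k := by linarith
  have h6 : k < 1 := by exact_mod_cast h4
  have h7 : -1 < k := by exact_mod_cast h5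
  omega

private theorem vol_LAB (Q : PG) (h : 0 ≤ mid Q) : (volume (core Q)).toReal = mid Q := by
  rw [core, Real.volume_Ioo, ENNReal.toReal_ofReal]
  · rfl
  · exact h

private theorem span_LAB (Q : PG) :
    span Q = mid Q + ((Q.1.2 - Q.1.1) + (Q.2.2 - Q.2.1)) := by
  unfold span mid
  ring

theorem tLAB : StACT → StPAC → StGEO → StWAY → StWTC → StCST → StCOV → StLMN → StEXI →
    StMEA → StEGP → StLAC → StLAB := by
  intro _hACT _hPAC hGEO _hWAY hWTC hCST hCOV hLMN hEXI hMEA hEGP hLAC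
  intro K S Λ G P L h m hB hex
  obtain ⟨Q₀, hQ₀, hQ₀c⟩ := hex
  have hL := hB.L0
  have hK : 0 < K := lt_of_lt_of_le one_pos hB.K1
  obtain ⟨c1, c2, c3, c4, c5, c6, c7⟩ := hCST K S Λ hB.gens hB.lam P hB.pair
  obtain ⟨g1, g2, g3, g4, g5, g6⟩ := hGEO K S Λ hB.gens hB.lam
  have hP := g1 P hB.pair
  have hspP : 0 < span P := lt_trans hP.1 hP.2.1
  have hmid : ∀ Q, Sta S P Q → 0 < mid Q ∧ 0 < span Q := fun Q hQ => by
    have h1 := g1 Q (c1 Q hQ).1
    exact ⟨h1.1, lt_trans h1.1 h1.2.1⟩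
  let A0 : PG → Prop := fun Q => Sta S P Q ∧ 0 ≤ Q.1.1 ∧ Q.1.1 < 1 ∧ 4 * cst S P Q < L ∧
    ∀ R, Sta S P R → cst S P R < L → ¬ Nst Q R
  let X : Set (PG ⊕ PG) := {x | Sum.elim A0 (Lbl S P L) x}
  let b : PG ⊕ PG → ℝ := Sum.elim (fun Q => cst S P Q)
    (fun C => cst S P C - 104 / 100 * (span C / span P) * L)
  let l : PG ⊕ PG → ℝ := Sum.elim (fun Q => span Q) (fun C => 208 / 100 * (span C / span P) * L)
  have hl : ∀ x ∈ X, 0 ≤ l x := by
    intro x hx
    rcases x with Q | C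
    · have hx' : A0 Q := hx
      exact (hmid Q hx'.1).2.le
    · have hx' : Lbl S P L C := hx
      have h1 := (hmid C hx'.1).2
      have h2 : 0 < span C / span P := div_pos h1 hspP
      change 0 ≤ 208 / 100 * (span C / span P) * L
      positivity
  have hcov : ∀ t, (0 : ℝ) ≤ t → t < L / 4 → ∃ x ∈ X, b x ≤ t ∧ t < b x + l x := by
    intro t ht0 ht1
    obtain ⟨Q, q1, q2, q3, q4, q5⟩ := hEXI K S Λ G P L h m hB t ht0
      ⟨Q₀, hQ₀, lt_of_lt_of_le ht1 hQ₀c⟩
    by_cases hanc : ∃ R, Sta S P R ∧ cst S P R < L ∧ Nst Q R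
    · obtain ⟨R, r1, r2, r3⟩ := hanc
      obtain ⟨C, hC1, hC2, hC3⟩ := hLAC K S Λ G P L h m hB Q R q1 r1 (by linarith) r2 r3
      refine ⟨Sum.inr C, hC1, ?_, ?_⟩
      · change cst S P C - 104 / 100 * (span C / span P) * L ≤ t
        linarith
      · change t < cst S P C - 104 / 100 * (span C / span P) * L +
          208 / 100 * (span C / span P) * L
        linarith
    · refine ⟨Sum.inl Q, ?_, ?_, ?_⟩
      · change A0 Q
        refine ⟨q1, q2, q3, by linarith, ?_⟩
        intro R hR1 hR2 hR3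
        exact hanc ⟨R, hR1, hR2, hR3⟩
      · exact q4
      · exact q5
  obtain ⟨s, hs1, hs2⟩ := hCOV (PG ⊕ PG) X b l 0 (L / 4) (by linarith) hl hcov
  have hA : ∀ Q ∈ s.toLeft, A0 Q := by
    intro Q hQ
    rw [Finset.mem_toLeft] at hQ
    exact hs1 _ hQ
  have hBf : ∀ C ∈ s.toRight, Lbl S P L C := by
    intro C hC
    rw [Finset.mem_toRight] at hC
    exact hs1 _ hC
  have hsum : ∑ x ∈ s, l x = ∑ Q ∈ s.toLeft, span Q +
      ∑ C ∈ s.toRight, 208 / 100 * (span C / span P) * L := by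
    conv_lhs => rw [← Finset.toLeft_disjSum_toRight (u := s)]
    rw [Finset.sum_disjSum]
    rfl
  -- the part of the maximal states
  have hmea : ∑ Q ∈ s.toLeft, mid Q ≤ m := by
    have h1 := hMEA K S Λ G P L h m hB s.toLeft core
      (fun Q hQ => ⟨(hA Q hQ).1, by have := (hA Q hQ).2.2.2.1; linarith, measurableSet_Ioo,
        subset_rfl⟩)
      (by
        intro Q hQ R hR k hk
        rw [img_LAB]
        rw [Set.disjoint_iff_inter_eq_empty]
        by_contra hne
        have hne' : (core Q ∩ core (sh k R)).Nonempty := Set.nonempty_iff_ne_empty.mpr hne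
        obtain ⟨a1, a2, a3, a4, a5⟩ := hA Q hQ
        obtain ⟨b1, b2, b3, b4, b5⟩ := hA R hR
        obtain ⟨d1, d2⟩ := c4 R k b1
        rcases (hLMN K S Λ G P L h m hB Q (sh k R) a1 d1 (by linarith) (by rw [d2]; linarith)).1
          hne' with e | e | e
        · have e1 : Q.1.1 = R.1.1 + k := by rw [e]; rfl
          have hk0 : k = 0 := int_LAB R.1.1 k b2 b3 (by rw [← e1]; exact a2)
            (by rw [← e1]; exact a3)
          rcases hk with hk | hk
          · apply hk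
            rw [e, hk0, sh_zero_LAB]
          · exact hk hk0
        · exact a5 _ d1 (by rw [d2]; linarith) e
        · obtain ⟨f1, f2⟩ := c4 Q (-k) a1
          exact b5 _ f1 (by rw [f2]; linarith) (nst_sh_LAB Q R k e))
    refine le_trans (le_of_eq ?_) h1
    refine Finset.sum_congr rfl fun Q hQ => ?_
    rw [vol_LAB Q (hmid Q (hA Q hQ).1).1.le]
  have hegp : ∑ Q ∈ s.toLeft, ((Q.1.2 - Q.1.1) + (Q.2.2 - Q.2.1)) ≤ 4 * m :=
    hEGP K S Λ G P L h m hB s.toLeft
      (fun Q hQ => ⟨(hA Q hQ).1, by have := (hA Q hQ).2.2.2.1; linarith, (hA Q hQ).2.1,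
        (hA Q hQ).2.2.1⟩)
  have hsA : ∑ Q ∈ s.toLeft, span Q ≤ 5 * m := by
    have h1 : ∑ Q ∈ s.toLeft, span Q = ∑ Q ∈ s.toLeft, mid Q +
        ∑ Q ∈ s.toLeft, ((Q.1.2 - Q.1.1) + (Q.2.2 - Q.2.1)) := by
      rw [← Finset.sum_add_distrib]
      exact Finset.sum_congr rfl fun Q _ => span_LAB Q
    linarith
  have hBsum : ∑ C ∈ s.toRight, 208 / 100 * (span C / span P) * L =
      208 / 100 * (∑ C ∈ s.toRight, span C / span P) * L := by
    rw [Finset.mul_sum, Finset.sum_mul]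
  have hlam : 20 ≤ 416 * ∑ C ∈ s.toRight, span C / span P := by
    have h1 := hB.mL
    rw [hsum, hBsum] at hs2
    have h2 : 20 * L ≤ (416 * ∑ C ∈ s.toRight, span C / span P) * L := by
      linarith
    exact le_of_mul_le_mul_right h2 hL
  -- comparison of spans and cores
  have hcmp : ∀ C ∈ s.toRight, 100 * (span C / span P * mid P) ≤ 101 * mid C := by
    intro C hC
    obtain ⟨l1, l2, l3, l4⟩ := hBf C hC
    obtain ⟨g, c, w1, w2, w3⟩ := (c2 C (25 * L) l1).1 (by linarith)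
    have h1 : 400 * K * c ≤ 1 := by
      have h2 : 400 * K * c ≤ 400 * K * (25 * L) :=
        mul_le_mul_of_nonneg_left w2.le (by positivity)
      have h3 := hB.KL
      linarith
    have h4 := ((hWTC K S Λ hB.K1 hB.gens hB.lam).2 P g c hB.pair w1 h1).2.1
    rw [← w3] at h4
    have h5 : span C / span P * mid P = span C * mid P / span P := by ring
    rw [h5, ← mul_div_assoc, div_le_iff₀ hspP]
    linarith
  have hsumcmp : 100 * ((∑ C ∈ s.toRight, span C / span P) * mid P) ≤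
      101 * ∑ C ∈ s.toRight, mid C := by
    rw [Finset.sum_mul, Finset.mul_sum, Finset.mul_sum]
    exact Finset.sum_le_sum hcmp
  have hmpos : 0 ≤ ∑ C ∈ s.toRight, mid C :=
    Finset.sum_nonneg fun C hC => (hmid C (hBf C hC).1).1.le
  refine ⟨s.toRight, hBf, ?_, ?_⟩
  · intro C hC D hD hne
    obtain ⟨l1, l2, l3, l4⟩ := hBf C hC
    obtain ⟨n1, n2, n3, n4⟩ := hBf D hD
    rw [Set.disjoint_iff_inter_eq_empty]
    by_contra hne'
    have hne'' : (core C ∩ core D).Nonempty := Set.nonempty_iff_ne_empty.mpr hne'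
    rcases (hLMN K S Λ G P L h m hB C D l1 n1 (by linarith) (by linarith)).1 hne'' with e | e | e
    · exact hne e
    · exact l4 D n1 (by linarith) e n2
    · exact n4 C l1 (by linarith) e l2
  · have h1 : 20 * mid P ≤ 416 * (∑ C ∈ s.toRight, span C / span P) * mid P :=
      mul_le_mul_of_nonneg_right hlam hP.1.le
    linarith

end Pool.Agent.Helper39.HS
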