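import Pool.Agent.Helper39.HS.St2

set_option autoImplicit false

namespace Pool.Agent.Helper39.HS

open Set MeasureTheory Pool.Agent.Helper82.HG Pool.Agent.Helper82.HC Pool.Agent.Helper21.HN

theorem tLAC : StACT → StPAC → StGEO → StWAY → StCST → StIMP → StLBA → StANC → StLAC := by
  intro _hACT hPAC hGEO hWAY hCST hIMP hLBA hANC K S Λ G P L h m hB Q R hQ hR h4 hRc hN
  have hL0 := hB.L0
  have hh0 := hB.h0
  have hhL := hB.hL
  have hP := hB.pair
  obtain ⟨p1, pmul, _psh, _pcore, pnst, _pshm, _pT⟩ := hPAC K S Λ hB.gens hB.lam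
  obtain ⟨g1, _g2, _g3, _g4, _g5, _g6⟩ := hGEO K S Λ hB.gens hB.lam
  obtain ⟨c1, c2, c3, _c4, c5, _c6, _c7⟩ := hCST K S Λ hB.gens hB.lam P hP
  obtain ⟨w1, _w2, _w3, _w4⟩ := hWAY K S Λ hB.gens hB.lam P hP
  have hspP : 0 < span P := by
    obtain ⟨a, b, _⟩ := g1 P hP
    linarith
  have hQ0 := (c1 Q hQ).2
  have hQL : cst S P Q < L := by linarith
  obtain ⟨R', hR', hR'c, hN', hmin⟩ := (hANC K S Λ G P L h m hB L Q R hQ hR hN).1
    (by linarith) hRc
  obtain ⟨u, c, hW, hcL, hRu⟩ := (c2 R' L hR').1 hR'c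
  have hug : u ∈ Gr S := (w1 u c hW).1
  have hc0 : 0 ≤ c := (w1 u c hW).2.1
  have hui : u⁻¹ ∈ Gr S := (Gr S).inv_mem hug
  have hQp := (c1 Q hQ).1
  have hR'p := (c1 R' hR').1
  set C : PG := pact u⁻¹ Q with hC
  have hCs : Sta S P C := c5 Q u⁻¹ hQ hui
  have hCp := (c1 C hCs).1
  have hCQ : pact u C = Q := by
    rw [hC, ← pmul u hug u⁻¹ hui Q hQp, mul_inv_cancel, p1 Q hQp]
  have hPR : pact u⁻¹ R' = P := by
    rw [hRu, ← pmul u⁻¹ hui u hug P hP, inv_mul_cancel, p1 P hP]
  have hCP : Nst C P := by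
    have := pnst u⁻¹ hui Q R' hQp hR'p hN'
    rwa [hPR] at this
  obtain ⟨i1, i2, i3, i4⟩ := hLBA K S Λ G P L h m hB u c C hW hcL hCs hCP
  rw [hCQ] at i1 i2 i3 i4
  rw [← hRu] at i3 i4
  have hspR : span R' ≤ h := by
    rw [hRu]
    exact hB.sml u c hW (by linarith)
  have hspR0 : 0 < span R' := by
    obtain ⟨a, b, _⟩ := g1 R' hR'p
    linarith
  have hspC0 : 0 < span C := by
    obtain ⟨a, b, _⟩ := g1 C hCp
    linarith
  have h20 := hIMP K S Λ G P L h m hB Q R' hQ hR' hQL hR'c hN'
  have hlam : span C / span P ≤ 101 / 2000 := by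
    rw [div_le_iff₀ hspP]
    have e1 : 100 * (span R' * span C) ≤ 101 * (span Q * span P) := i4
    have e2 : 101 * (span Q * span P) ≤ 101 * (span R' / 20 * span P) := by
      have : span Q ≤ span R' / 20 := by linarith
      have := mul_le_mul_of_nonneg_right this hspP.le
      linarith
    have e3 : span R' * (100 * span C) ≤ span R' * (101 / 20 * span P) := by nlinarith
    have e4 := le_of_mul_le_mul_left e3 hspR0
    linarith
  have hlam0 : 0 ≤ span C / span P := by positivity
  have hQsp : span Q ≤ 101 / 100 * (span C / span P) * span R' := by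
    have : 101 / 100 * (span C / span P) * span R' = 101 / 100 * (span R' * span C) / span P := by
      field_simp
    rw [this, le_div_iff₀ hspP]
    linarith
  refine ⟨C, ⟨hCs, hCP, ?_, ?_⟩, ?_, ?_⟩
  · have e1 : span C / span P * (c + h) ≤ 101 / 2000 * (201 / 200 * L) := by
      apply mul_le_mul hlam (by linarith) (by linarith) (by norm_num)
    nlinarith
  · intro D hD hDc hCD hDP
    have hD0 := (c1 D hD).2
    have hDp := (c1 D hD).1
    have h20D := hIMP K S Λ G P L h m hB D P hD c3.1 (by linarith) (by rw [c3.2]; exact hL0) hDP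
    obtain ⟨j1, _⟩ := hLBA K S Λ G P L h m hB u c D hW hcL hD hDP
    have hlD : span D / span P ≤ 1 / 20 := by
      rw [div_le_iff₀ hspP]; linarith
    have hlc : span D / span P * c ≤ 1 / 20 * L :=
      mul_le_mul hlD hcL.le hc0 (by norm_num)
    have hsD : Sta S P (pact u D) := c5 D u hD hug
    have hcD : cst S P (pact u D) < L := by
      have : 101 / 100 * (span D / span P) * c = 101 / 100 * (span D / span P * c) := by ring
      rw [this] at j1
      linarith
    have n1 : Nst Q (pact u D) := by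
      have := pnst u hug C D hCp hDp hCD
      rwa [hCQ] at this
    have n2 : Nst (pact u D) R' := by
      have := pnst u hug D P hDp hP hDP
      rwa [← hRu] at this
    exact hmin (pact u D) hsD hcD n1 n2
  · have e1 : span C / span P * (c + h) ≤ span C / span P * (201 / 200 * L) :=
      mul_le_mul_of_nonneg_left (by linarith) hlam0
    have e2 : 0 ≤ span C / span P * L := by positivity
    nlinarith
  · have e1 : span C / span P * c ≤ span C / span P * L :=
      mul_le_mul_of_nonneg_left hcL.le hlam0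
    have e3 : span C / span P * span R' ≤ span C / span P * (L / 200) :=
      mul_le_mul_of_nonneg_left (by linarith) hlam0
    have e2 : 0 ≤ span C / span P * L := by positivity
    nlinarith

end Pool.Agent.Helper39.HS
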