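import Pool.Agent.Helper39.HS.St3

/-!
# MP_10ef18_an (Hector), project HS, module LIM: the limit superior of the covered sets
-/

set_option autoImplicit false

namespace Pool.Agent.Helper39.HS

open Set MeasureTheory Filter Topology Pool.Agent.Helper82.HG Pool.Agent.Helper82.HC
  Pool.Agent.Helper21.HN

theorem Un_open_LIM (S : Set (Equiv.Perm ℝ)) (P : PG) (t : ℝ) : IsOpen (Un S P t) := by
  have : Un S P t = ⋃ Q ∈ {Q : PG | Sta S P Q ∧ cst S P Q < t}, core Q := by
    ext x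
    simp only [Un, mem_setOf_eq, mem_iUnion, exists_prop]
    constructor
    · rintro ⟨Q, h1, h2, h3⟩
      exact ⟨Q, ⟨h1, h2⟩, h3⟩
    · rintro ⟨Q, ⟨h1, h2⟩, h3⟩
      exact ⟨Q, h1, h2, h3⟩
  rw [this]
  exact isOpen_biUnion fun Q _ => isOpen_Ioo

theorem tLIM (hGEO : StGEO) (hCST : StCST) : StLIM := by
  intro K S Λ hK hGens hLam G P h th t b hSys hh hb ht hbV
  have hK0 : 0 < K := by linarith
  obtain ⟨geo1, -⟩ := hGEO K S Λ hGens hLam
  set A : ℕ → Set ℝ := fun n => Un S (P n) t ∩ Icc (0 : ℝ) 1 with hA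
  have hAm : ∀ n, MeasurableSet (A n) := fun n =>
    (Un_open_LIM S (P n) t).measurableSet.inter measurableSet_Icc
  set V : ℕ → Set ℝ := fun n => ⋃ m ≥ n, A m with hV
  have hVm : ∀ n, MeasurableSet (V n) := fun n =>
    MeasurableSet.iUnion fun m => MeasurableSet.iUnion fun _ => hAm m
  have hVanti : Antitone V := by
    intro a c hac x hx
    simp only [hV, mem_iUnion, exists_prop] at hx ⊢
    obtain ⟨m, hm, hxm⟩ := hx
    exact ⟨m, le_trans hac hm, hxm⟩
  have hVI : ∀ n, V n ⊆ Icc (0 : ℝ) 1 := by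
    intro n x hx
    simp only [hV, mem_iUnion, exists_prop] at hx
    obtain ⟨m, -, hxm⟩ := hx
    exact hxm.2
  have hVfin : ∀ n, volume (V n) ≠ ⊤ := by
    intro n
    refine ne_top_of_le_ne_top ?_ (measure_mono (hVI n))
    rw [Real.volume_Icc]
    exact ENNReal.ofReal_ne_top
  have hfreq : ∀ x ∈ ⋂ n, V n, ∃ᶠ n in atTop, x ∈ Un S (P n) t := by
    intro x hx
    rw [frequently_atTop]
    intro n
    have h1 := mem_iInter.1 hx n
    simp only [hV, mem_iUnion, exists_prop] at h1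
    obtain ⟨m, hm, hxm⟩ := h1
    exact ⟨m, hm, hxm.1⟩
  refine ⟨⋂ n, V n, MeasurableSet.iInter hVm, ?_, ?_, hfreq⟩
  · intro x hx
    refine ⟨?_, hVI 0 (mem_iInter.1 hx 0)⟩
    rw [← hLam.closed.closure_eq, Metric.mem_closure_iff]
    intro ε hε
    have h1 : ∀ᶠ n in atTop, h n < ε := (tendsto_order.1 hh).2 _ hε
    obtain ⟨n, hn1, hn2⟩ := ((hfreq x hx).and_eventually h1).exists
    obtain ⟨Q, hQ1, hQ2, hQ3⟩ := hn1
    obtain ⟨c1, c2, -⟩ := hCST K S Λ hGens hLam (P n) (hSys n).pair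
    have hpair := (c1 Q hQ1).1
    obtain ⟨g1, g2, -⟩ := geo1 Q hpair
    obtain ⟨g, c, hw, hct, hQg⟩ := (c2 Q t hQ1).1 hQ2
    have h3 : 400 * K * c ≤ 1 := by
      have : 400 * K * c ≤ 400 * K * t := by
        apply mul_le_mul_of_nonneg_left hct.le
        positivity
      linarith
    have h4 := (hSys n).sml g c hw h3
    rw [← hQg] at h4
    refine ⟨Q.1.2, hpair.1.2.2.1, ?_⟩
    obtain ⟨y1, y2⟩ := hQ3
    rw [Real.dist_eq, abs_of_pos (by linarith)]
    unfold mid at g2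
    linarith
  · rw [hVanti.measure_iInter (fun n => (hVm n).nullMeasurableSet) ⟨0, hVfin 0⟩]
    refine le_iInf fun n => ?_
    refine (ENNReal.ofReal_le_of_le_toReal (hbV n)).trans (measure_mono ?_)
    intro x hx
    simp only [hV, mem_iUnion, exists_prop]
    exact ⟨n, le_refl n, hx⟩

end Pool.Agent.Helper39.HS
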