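import Pool.Agent.Helper39.HS.St2

/-!
# MP_10ef18_an, project HN: module LMN
-/

set_option autoImplicit false

namespace Pool.Agent.Helper39.HS

open Set MeasureTheory Pool.Agent.Helper82.HG Pool.Agent.Helper82.HC Pool.Agent.Helper21.HN

private theorem mem_LMN (hACT : StACT) {K : ℝ} {S : Set (Equiv.Perm ℝ)} {Λ : Set ℝ}
    {G : Set (ℝ × ℝ)} {P : PG} {L h m : ℝ} (B : Bse K S Λ G P L h m) {Q : PG} (hQ : Sta S P Q) :
    Q.1 ∈ G ∧ Q.2 ∈ G := by
  obtain ⟨g, hg, rfl⟩ := hQ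
  obtain ⟨-, hmem, -⟩ := hACT K S Λ B.gens B.lam g hg P B.pair
  rcases hmem with ⟨a, b⟩ | ⟨a, b⟩
  · rw [a, b]; exact ⟨B.gact g hg _ B.mem1, B.gact g hg _ B.mem2⟩
  · rw [a, b]; exact ⟨B.gact g hg _ B.mem2, B.gact g hg _ B.mem1⟩

private theorem mu1_LMN (S : Set (Equiv.Perm ℝ)) (Q : PG) : mu S Q ≤ wt S Q.1 := min_le_left _ _

private theorem mu2_LMN (S : Set (Equiv.Perm ℝ)) (Q : PG) : mu S Q ≤ wt S Q.2 := min_le_right _ _

private theorem one_LMN (hACT : StACT) (hGEO : StGEO) (hWTC : StWTC) (hCST : StCST)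
    (hINQ : StINQ) {K : ℝ} {S : Set (Equiv.Perm ℝ)} {Λ : Set ℝ}
    {G : Set (ℝ × ℝ)} {P : PG} {L h m : ℝ} (B : Bse K S Λ G P L h m) {Q R : PG}
    (hQ : Sta S P Q) (hR : Sta S P R) (hcQ : cst S P Q < 25 * L) (hcR : cst S P R < 25 * L)
    (h2 : Q.1.2 < R.2.1) (hle : R.1.2 ≤ Q.1.2) : Q = R ∨ Nst Q R ∨ Nst R Q := by
  obtain ⟨c1, -⟩ := hCST K S Λ B.gens B.lam P B.pair
  have hQp : IsPair Λ Q := (c1 Q hQ).1
  have hRp : IsPair Λ R := (c1 R hR).1
  by_cases hQR : Q = R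
  · exact Or.inl hQR
  right
  by_cases h3 : Q.2.1 ≤ R.2.1
  · exact Or.inl ⟨hle, h3, hQR⟩
  push Not at h3
  rcases hle.lt_or_eq with h4 | h4
  · exfalso
    obtain ⟨-, -, -, -, g5, g6⟩ := hGEO K S Λ B.gens B.lam
    have a1 := hINQ K S Λ G P L h m B R hR hcR Q.1 (mem_LMN hACT B hQ).1 (g5 Q R hQp hRp h4) h2
    have a2 := hINQ K S Λ G P L h m B Q hQ hcQ R.2 (mem_LMN hACT B hR).2 h2 (g6 R Q hRp hQp h3)
    obtain ⟨hpos, -⟩ := hWTC K S Λ B.K1 B.gens B.lam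
    have p1 := (hpos Q hQp).1
    have m1 := mu1_LMN S Q
    have m2 := mu2_LMN S R
    linarith
  · exact Or.inr ⟨h4.symm.le, h3.le, fun e => hQR e.symm⟩

theorem tLMN : StLAM → StACT → StGEO → StWAY → StWTC → StCST → StINQ → StLMN := by
  intro _ hACT hGEO _ hWTC hCST hINQ K S Λ G P L h m B Q R hQ hR hcQ hcR
  have hP := B.pair
  obtain ⟨c1, c2, -⟩ := hCST K S Λ B.gens B.lam P hP
  have hQp : IsPair Λ Q := (c1 Q hQ).1
  have hRp : IsPair Λ R := (c1 R hR).1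
  obtain ⟨g1, -, g3, -, g5, g6⟩ := hGEO K S Λ B.gens B.lam
  refine ⟨?_, ?_⟩
  · rintro ⟨x, hx, hx'⟩
    rcases le_total R.1.2 Q.1.2 with hle | hle
    · exact one_LMN hACT hGEO hWTC hCST hINQ B hQ hR hcQ hcR (hx.1.trans hx'.2) hle
    · rcases one_LMN hACT hGEO hWTC hCST hINQ B hR hQ hcR hcQ (hx'.1.trans hx.2) hle with
        e | e | e
      · exact Or.inl e.symm
      · exact Or.inr (Or.inr e)
      · exact Or.inr (Or.inl e)
  · rintro ⟨n1, n2, n3⟩
    obtain ⟨hpos, hWT⟩ := hWTC K S Λ B.K1 B.gens B.lam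
    have hmQ : Q.1.2 < Q.2.1 := by
      have := (g1 Q hQp).1
      unfold mid at this
      linarith
    have hmu : 5 * mu S Q ≤ 3 * mu S R := by
      rcases n1.lt_or_eq with h4 | h4
      · have a1 := hINQ K S Λ G P L h m B R hR hcR Q.1 (mem_LMN hACT B hQ).1
          (g5 Q R hQp hRp h4) (hmQ.trans_le n2)
        have m1 := mu1_LMN S Q
        linarith
      · have h5 : Q.2.1 < R.2.1 := by
          rcases n2.lt_or_eq with h5 | h5
          · exact h5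
          · exact absurd (g3 Q R hQp hRp h4.symm h5) n3
        have a1 := hINQ K S Λ G P L h m B R hR hcR Q.2 (mem_LMN hACT B hQ).2
          (by rw [h4]; exact hmQ) (g6 Q R hQp hRp h5)
        have m1 := mu2_LMN S Q
        linarith
    refine ⟨hmu, ?_⟩
    obtain ⟨g, c, hw, hcL, rfl⟩ := (c2 Q (25 * L) hQ).1 hcQ
    obtain ⟨g', c', hw', hcL', rfl⟩ := (c2 R (25 * L) hR).1 hcR
    have hK := B.K1
    have key : ∀ t : ℝ, t < 25 * L → 400 * K * t ≤ 1 := by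
      intro t ht
      have h1 : 400 * K * t ≤ 400 * K * (25 * L) := by
        apply mul_le_mul_of_nonneg_left ht.le
        linarith
      linarith [B.KL]
    obtain ⟨-, -, -, -, w5⟩ := hWT P g c hP hw (key c hcL)
    obtain ⟨-, -, -, w4', -⟩ := hWT P g' c' hP hw' (key c' hcL')
    have hsP : 0 < span P := (g1 P hP).1.trans (g1 P hP).2.1
    have hmP := (hpos P hP).1
    have e1 : (5 * mu S (pact g P)) * span P ≤ (3 * mu S (pact g' P)) * span P :=
      mul_le_mul_of_nonneg_right hmu hsP.le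
    have e2 : 0 ≤ span (pact g' P) * mu S P := by
      have q2 := g1 (pact g' P) hRp
      exact mul_nonneg (q2.1.trans q2.2.1).le hmP.le
    have e3 : (8 * span (pact g P)) * mu S P ≤ (5 * span (pact g' P)) * mu S P := by
      linarith
    exact le_of_mul_le_mul_right e3 hmP

end Pool.Agent.Helper39.HS
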