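import Pool.Agent.Helper39.HS.St3

/-!
# Project HS (MP_10ef18_an), module LVL: a level set of the supremum of derivatives
-/

set_option autoImplicit false

namespace Pool.Agent.Helper39.HS

open Set MeasureTheory Filter Topology Pool.Agent.Helper82.HG Pool.Agent.Helper82.HC
  Pool.Agent.Helper21.HN

private theorem chain_LVL {f g : Equiv.Perm ℝ} (hf : Differentiable ℝ f) (hg : Differentiable ℝ g)
    (x : ℝ) : deriv (⇑(f * g)) x = deriv (⇑f) (g x) * deriv (⇑g) x := by
  have h1 : (⇑(f * g) : ℝ → ℝ) = ⇑f ∘ ⇑g := by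
    funext y
    rfl
  rw [h1, deriv_comp x (hf _) (hg _)]

private theorem cont_LVL (hBAS : StBAS) {K : ℝ} {S : Set (Equiv.Perm ℝ)} (hS : Gens K S)
    (g : Equiv.Perm ℝ) (hg : g ∈ Gr S) : Continuous (fun x => |deriv (⇑g) x|) := by
  induction hg using Subgroup.closure_induction with
  | mem s hs =>
    rcases hs with hs | hs
    · subst hs
      have h1 : (⇑T : ℝ → ℝ) = fun x => x + 1 := by
        funext y
        rfl
      have h2 : (fun x => |deriv (⇑T) x|) = fun _ => (1 : ℝ) := by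
        funext x
        rw [h1]
        simp
      rw [h2]
      exact continuous_const
    · have hn := hS.nice s hs
      have h1 : Continuous (fun x => Real.log (|deriv (⇑s) x|)) := by
        refine (LipschitzWith.of_dist_le_mul (K := Real.toNNReal K) ?_).continuous
        intro x y
        rw [Real.dist_eq, Real.dist_eq]
        refine (hn.lip x y).trans ?_
        refine mul_le_mul_of_nonneg_right ?_ (abs_nonneg _)
        exact Real.le_coe_toNNReal K
      have h2 : (fun x => |deriv (⇑s) x|) = fun x => Real.exp (Real.log (|deriv (⇑s) x|)) := by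
        funext x
        rw [Real.exp_log (abs_pos.mpr (hn.ne x))]
      rw [h2]
      exact Real.continuous_exp.comp h1
  | one =>
    have h1 : (⇑(1 : Equiv.Perm ℝ) : ℝ → ℝ) = fun x => x := by
      funext y
      rfl
    have h2 : (fun x => |deriv (⇑(1 : Equiv.Perm ℝ)) x|) = fun _ => (1 : ℝ) := by
      funext x
      rw [h1]
      simp
    rw [h2]
    exact continuous_const
  | mul x y hx hy ihx ihy =>
    obtain ⟨dx, -, -, -⟩ := hBAS K S hS x hx
    obtain ⟨dy, -, -, -⟩ := hBAS K S hS y hy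
    have h2 : (fun t => |deriv (⇑(x * y)) t|) = fun t => |deriv (⇑x) (y t)| * |deriv (⇑y) t| := by
      funext t
      rw [chain_LVL dx dy, abs_mul]
    rw [h2]
    exact (ihx.comp dy.continuous).mul ihy
  | inv x hx ihx =>
    obtain ⟨dx, nx, -, -⟩ := hBAS K S hS x hx
    obtain ⟨dy, -, -, -⟩ := hBAS K S hS x⁻¹ ((Gr S).inv_mem hx)
    have h2 : (fun t => |deriv (⇑x⁻¹) t|) = fun t => (|deriv (⇑x) (x⁻¹ t)|)⁻¹ := by
      funext t
      have h3 := chain_LVL dx dy t
      have h4 : (⇑(x * x⁻¹) : ℝ → ℝ) = fun y => y := by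
        funext y
        simp
      rw [h4] at h3
      simp only [deriv_id''] at h3
      have h5 : |deriv (⇑x) (x⁻¹ t)| * |deriv (⇑x⁻¹) t| = 1 := by
        rw [← abs_mul, ← h3, abs_one]
      have h6 : |deriv (⇑x) (x⁻¹ t)| ≠ 0 := abs_ne_zero.mpr (nx _)
      field_simp
      linarith [h5]
    rw [h2]
    exact (ihx.comp dy.continuous).inv₀ (fun t => abs_ne_zero.mpr (nx _))

/-- the set of points where all derivatives are at most `a` -/
private def Bd_LVL (S : Set (Equiv.Perm ℝ)) (a : ℝ) : Set ℝ :=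
  {x | ∀ g ∈ Gr S, |deriv (⇑g) x| ≤ a}

private theorem closed_LVL (hBAS : StBAS) {K : ℝ} {S : Set (Equiv.Perm ℝ)} (hS : Gens K S)
    (a : ℝ) : IsClosed (Bd_LVL S a) := by
  have h1 : Bd_LVL S a = ⋂ g ∈ Gr S, {x | |deriv (⇑g) x| ≤ a} := by
    ext x
    simp [Bd_LVL]
  rw [h1]
  exact isClosed_biInter fun g hg => isClosed_le (cont_LVL hBAS hS g hg) continuous_const

theorem tLVL : StBAS → StLVL := by
  intro hBAS K S hS E hE hpos
  set r : ℝ := 101 / 100 with hr
  have hr1 : (1 : ℝ) < r := by rw [hr]; norm_num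
  -- some level has positive measure
  have hex : ∃ j : ℕ, volume (E ∩ Bd_LVL S (r ^ j)) ≠ 0 := by
    by_contra hcon
    push Not at hcon
    apply hpos
    have hsub : E ∩ {x | ∃ C : ℝ, ∀ g ∈ Gr S, |deriv (⇑g) x| ≤ C} ⊆
        ⋃ j : ℕ, E ∩ Bd_LVL S (r ^ j) := by
      rintro x ⟨hx, C, hC⟩
      obtain ⟨n, hn⟩ := pow_unbounded_of_one_lt C hr1
      refine mem_iUnion.mpr ⟨n, hx, ?_⟩
      intro g hg
      exact (hC g hg).trans hn.le
    exact measure_mono_null hsub (measure_iUnion_null hcon)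
  classical
  obtain ⟨j, hj, hmin⟩ : ∃ j : ℕ, volume (E ∩ Bd_LVL S (r ^ j)) ≠ 0 ∧
      ∀ i < j, volume (E ∩ Bd_LVL S (r ^ i)) = 0 := by
    refine ⟨Nat.find hex, Nat.find_spec hex, ?_⟩
    intro i hi
    by_contra hne
    exact Nat.find_min hex hi hne
  cases j with
  | zero =>
    refine ⟨E ∩ Bd_LVL S (r ^ 0), 1, hE.inter (closed_LVL hBAS hS _).measurableSet,
      inter_subset_left, hj, ?_, ?_⟩
    · intro x hx g hg
      have := hx.2 g hg
      simpa using this
    · intro x hx g hg _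
      have := hx.2 g hg
      rw [pow_zero] at this
      linarith
  | succ k =>
    have h0 : volume (E ∩ Bd_LVL S (r ^ k)) = 0 := hmin k (Nat.lt_succ_self k)
    refine ⟨(E ∩ Bd_LVL S (r ^ (k + 1))) \ (E ∩ Bd_LVL S (r ^ k)), r ^ (k + 1), ?_, ?_, ?_, ?_, ?_⟩
    · exact (hE.inter (closed_LVL hBAS hS _).measurableSet).diff
        (hE.inter (closed_LVL hBAS hS _).measurableSet)
    · exact fun x hx => hx.1.1
    · rw [measure_sdiff_null h0]
      exact hj
    · intro x hx g hg
      exact hx.1.2 g hg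
    · intro x hx g hg hgx
      have h1 : g x ∉ Bd_LVL S (r ^ k) := fun h => hgx.2 ⟨hgx.1.1, h⟩
      have h2 : ∃ h ∈ Gr S, r ^ k < |deriv (⇑h) (g x)| := by
        by_contra hcon
        push Not at hcon
        exact h1 hcon
      obtain ⟨h, hh, hlt⟩ := h2
      have h3 := hx.1.2 (h * g) ((Gr S).mul_mem hh hg)
      rw [chain_LVL (hBAS K S hS h hh).1 (hBAS K S hS g hg).1, abs_mul] at h3
      have hk : (0 : ℝ) < r ^ k := pow_pos (by linarith) k
      have h4 : r ^ k * |deriv (⇑g) x| ≤ r ^ k * r := by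
        calc r ^ k * |deriv (⇑g) x| ≤ |deriv (⇑h) (g x)| * |deriv (⇑g) x| :=
              mul_le_mul_of_nonneg_right hlt.le (abs_nonneg _)
          _ ≤ r ^ (k + 1) := h3
          _ = r ^ k * r := pow_succ r k
      exact le_of_mul_le_mul_left h4 hk

end Pool.Agent.Helper39.HS
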