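import Pool.Agent.Helper39.HS.St3

/-! # HS module LVR: a level set of an invariant density -/

set_option autoImplicit false

namespace Pool.Agent.Helper39.HS

open Set MeasureTheory Filter Topology Pool.Agent.Helper82.HG Pool.Agent.Helper82.HC
  Pool.Agent.Helper21.HN

theorem tLVR : StLVR := by
  intro S ρ hρ E hE hE0 hae
  rw [ae_restrict_iff' hE] at hae
  obtain ⟨N, hN⟩ : ∃ N : Set ℝ, N = toMeasurable volume
      {x | ¬ (x ∈ E → 0 < ρ x ∧ ∀ g ∈ Gr S, ρ (g x) * |deriv g x| = ρ x)} := ⟨_, rfl⟩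
  have hNm : MeasurableSet N := by rw [hN]; exact measurableSet_toMeasurable _ _
  have hN0 : volume N = 0 := by rw [hN, measure_toMeasurable]; exact hae
  have hNs : ∀ x ∈ E \ N, 0 < ρ x ∧ ∀ g ∈ Gr S, ρ (g x) * |deriv g x| = ρ x := by
    rintro x ⟨hx1, hx2⟩
    by_contra hcon
    apply hx2
    rw [hN]
    exact subset_toMeasurable _ _ (fun h => hcon (h hx1))
  have hEN : volume (E \ N) ≠ 0 := by
    intro h0
    apply hE0
    refine le_antisymm ?_ bot_le
    calc volume E ≤ volume (E \ N ∪ N) := measure_mono (fun x hx => by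
          by_cases hxN : x ∈ N
          · exact Or.inr hxN
          · exact Or.inl ⟨hx, hxN⟩)
      _ ≤ volume (E \ N) + volume N := measure_union_le _ _
      _ = 0 := by rw [h0, hN0, add_zero]
  obtain ⟨r, hr⟩ : ∃ r : ℝ, r = 101 / 100 := ⟨_, rfl⟩
  have hr1 : 1 < r := by rw [hr]; norm_num
  have hr0 : 0 < r := by linarith
  let Z : ℤ → Set ℝ := fun j => (E \ N) ∩ ρ ⁻¹' (Ioc (r ^ j) (r ^ (j + 1)))
  have hcov : E \ N ⊆ ⋃ j : ℤ, Z j := by
    intro x hx
    obtain ⟨j, hj⟩ := exists_mem_Ioc_zpow (hNs x hx).1 hr1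
    exact mem_iUnion.2 ⟨j, hx, hj⟩
  obtain ⟨j, hj⟩ : ∃ j : ℤ, volume (Z j) ≠ 0 := by
    by_contra hcon
    push Not at hcon
    apply hEN
    refine le_antisymm ((measure_mono hcov).trans ?_) bot_le
    rw [measure_iUnion_null hcon]
  refine ⟨Z j, (hE.diff hNm).inter (hρ measurableSet_Ioc), ?_, hj, ?_⟩
  · intro x hx
    exact hx.1.1
  · rintro x ⟨hx1, hx2⟩ g hg ⟨hx3, hx4⟩
    have h1 := (hNs x hx1).2 g hg
    have h2 : 0 < ρ (g x) := (hNs (g x) hx3).1
    have h3 : ρ x ≤ r ^ (j + 1) := hx2.2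
    have h4 : r ^ j < ρ (g x) := hx4.1
    have h5 : r ^ (j + 1) = r * r ^ j := by
      rw [zpow_add_one₀ hr0.ne']; ring
    have h6 : ρ (g x) * |deriv g x| ≤ ρ (g x) * (101 / 100) := by
      rw [h1, ← hr]
      rw [h5] at h3
      nlinarith
    exact le_of_mul_le_mul_left h6 h2

end Pool.Agent.Helper39.HS
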