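import Pool.Agent.Helper39.HS.St3

/-!
# MP_10ef18_an (Hector), project HS, module MDS: total length of the cores
-/

set_option autoImplicit false

namespace Pool.Agent.Helper39.HS

open Set MeasureTheory Filter Topology Pool.Agent.Helper82.HG Pool.Agent.Helper82.HC
  Pool.Agent.Helper21.HN

private theorem T_app_MDS (x : ℝ) : T x = x + 1 := rfl

private theorem Tinv_app_MDS (x : ℝ) : T⁻¹ x = x - 1 := by
  have h : T (x - 1) = x := by rw [T_app_MDS]; ring
  calc T⁻¹ x = T⁻¹ (T (x - 1)) := by rw [h]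
    _ = x - 1 := Equiv.symm_apply_apply T (x - 1)

private theorem T_MDS (m : ℤ) : ∀ x : ℝ, (T ^ m) x = x + m := by
  induction m using Int.induction_on with
  | zero => intro x; simp
  | succ n ih =>
    intro x
    rw [zpow_add, zpow_one, Equiv.Perm.mul_apply, T_app_MDS, ih]
    push_cast
    ring
  | pred n ih =>
    intro x
    rw [zpow_sub, zpow_one, Equiv.Perm.mul_apply, Tinv_app_MDS, ih]
    push_cast
    ring

private lemma shne_MDS (m : ℤ) (Q R : PG) (hQ0 : 0 ≤ Q.1.1) (hQ1 : Q.1.1 < 1) (hR0 : 0 ≤ R.1.1)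
    (hR1 : R.1.1 < 1) (h : Q = sh m R) : Q = R ∧ m = 0 := by
  have h1 : Q.1.1 = R.1.1 + m := congrArg (fun X : PG => X.1.1) h
  have hm : m = 0 := by
    have e1 : ((m : ℤ) : ℝ) < 1 := by linarith
    have e2 : (-1 : ℝ) < (m : ℝ) := by linarith
    have e3 : m < 1 := by exact_mod_cast e1
    have e4 : -1 < m := by exact_mod_cast e2
    omega
  refine ⟨?_, hm⟩
  rw [h, hm]
  unfold sh
  simp

theorem tMDS (hPAC : StPAC) (hGEO : StGEO) (hWAY : StWAY) (hCST : StCST) (hPER : StPER)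
    (hFIL : StFIL) (hDJN : StDJN) : StMDS := by
  intro K hK
  obtain ⟨δ₀, hδ₀, hδ₁, hD⟩ := hDJN K hK
  refine ⟨min δ₀ (Real.exp (-(24 * K)) / 10), lt_min hδ₀ (by positivity),
    (min_le_left _ _).trans hδ₁, ?_⟩
  intro S Λ G P h th A hSys hth hIso F hF
  have hGens := hSys.gens
  have hLam := hSys.lam
  have hP := hSys.pair
  obtain ⟨geo1, -⟩ := hGEO K S Λ hGens hLam
  obtain ⟨c1, c2, -⟩ := hCST K S Λ hGens hLam P hP
  obtain ⟨w1, -, -, -⟩ := hWAY K S Λ hGens hLam P hP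
  obtain ⟨-, p2, p3, -, -, -, p7⟩ := hPAC K S Λ hGens hLam
  have hmid : 0 < mid P := (geo1 P hP).1
  set δ := min δ₀ (Real.exp (-(24 * K)) / 10) with hδ
  have hIso' : Iso S P A δ₀ := by
    refine ⟨hIso.meas, hIso.sub, hIso.fill.trans ?_, hIso.iso⟩
    exact mul_le_mul_of_nonneg_right (min_le_left _ _) hmid.le
  have hth' : 1000 * K * th ≤ δ₀ := hth.trans (min_le_left _ _)
  have hex : ∀ Q : PG, ∃ (u : Equiv.Perm ℝ) (c : ℝ), Q ∈ F → (Way S P u c ∧ c < 12 ∧ Q = pact u P) := by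
    intro Q
    by_cases hQ : Q ∈ F
    · obtain ⟨q1, q2, -, -⟩ := hF Q hQ
      obtain ⟨g, c, hw, hc, hg⟩ := (c2 Q 12 q1).1 q2
      exact ⟨g, c, fun _ => ⟨hw, hc, hg⟩⟩
    · exact ⟨1, 0, fun h => absurd h hQ⟩
  choose u c huc using hex
  have hvol : ∀ Q ∈ F, MeasurableSet (⇑(u Q) '' A) ∧
      9 / 10 * mid Q ≤ (volume (⇑(u Q) '' A)).toReal := by
    intro Q hQ
    obtain ⟨q1, q2, -, -⟩ := hF Q hQ
    obtain ⟨hw, hc, hg⟩ := huc Q hQ
    obtain ⟨f1, f2, f3⟩ := hFIL K S Λ hK hGens hLam P (u Q) (c Q) hP hw hc.le A δ hIso.meas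
      hIso.sub hIso.fill
    rw [← hg] at f2 f3
    refine ⟨f1, ?_⟩
    obtain ⟨g1, -, -⟩ := geo1 Q (c1 Q q1).1
    have hle : Real.exp (24 * K) * δ ≤ 1 / 10 := by
      have h1 : δ ≤ Real.exp (-(24 * K)) / 10 := min_le_right _ _
      calc Real.exp (24 * K) * δ ≤ Real.exp (24 * K) * (Real.exp (-(24 * K)) / 10) :=
            mul_le_mul_of_nonneg_left h1 (Real.exp_pos _).le
        _ = Real.exp (24 * K + -(24 * K)) / 10 := by rw [Real.exp_add]; ring
        _ = 1 / 10 := by rw [add_neg_cancel, Real.exp_zero]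
    have hcore : volume (core Q) = ENNReal.ofReal (mid Q) := by
      unfold core mid
      rw [Real.volume_Ioo]
    have hfin : volume (core Q) ≠ ⊤ := by rw [hcore]; exact ENNReal.ofReal_ne_top
    have hU : volume (⇑(u Q) '' A) ≠ ⊤ := ne_top_of_le_ne_top hfin (measure_mono f2)
    have hDf : volume (core Q \ ⇑(u Q) '' A) ≠ ⊤ :=
      ne_top_of_le_ne_top hfin (measure_mono sdiff_subset)
    have h2 : volume (core Q) ≤ volume (⇑(u Q) '' A) + volume (core Q \ ⇑(u Q) '' A) := by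
      refine (measure_mono ?_).trans (measure_union_le _ _)
      intro x hx
      by_cases hxu : x ∈ ⇑(u Q) '' A
      · exact Or.inl hxu
      · exact Or.inr ⟨hx, hxu⟩
    have h3 := ENNReal.toReal_mono (ENNReal.add_ne_top.2 ⟨hU, hDf⟩) h2
    rw [ENNReal.toReal_add hU hDf, hcore, ENNReal.toReal_ofReal g1.le] at h3
    have h4 : Real.exp (24 * K) * δ * mid Q ≤ 1 / 10 * mid Q :=
      mul_le_mul_of_nonneg_right hle g1.le
    linarith
  have hsum := hPER univ MeasurableSet.univ (fun x => by simp) PG F (fun Q => ⇑(u Q) '' A)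
    (fun Q hQ => ⟨(hvol Q hQ).1, subset_univ _⟩) (by
      intro Q hQ R hR m hne
      obtain ⟨-, -, q3, q4⟩ := hF Q hQ
      obtain ⟨r1, -, r3, r4⟩ := hF R hR
      obtain ⟨hw, hc, hg⟩ := huc Q hQ
      obtain ⟨hw', hc', hg'⟩ := huc R hR
      have himg : (fun x : ℝ => x + m) '' (⇑(u R) '' A) = ⇑(T ^ m * u R) '' A := by
        rw [Equiv.Perm.coe_mul, image_comp]
        refine image_congr fun x _ => ?_
        rw [T_MDS]
      show Disjoint (⇑(u Q) '' A) ((fun x : ℝ => x + m) '' (⇑(u R) '' A))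
      rw [himg]
      refine hD S Λ G P h th A hSys hth' hIso' (u Q) (T ^ m * u R) (c Q) (c R) hw
        (Way.tr m hw') hc.le hc'.le ?_
      rw [p2 (T ^ m) (p7 m) (u R) (w1 _ _ hw').1 P hP, ← hg', (p3 m R (c1 R r1).1).1, ← hg]
      intro heq
      obtain ⟨e1, e2⟩ := shne_MDS m Q R q3 q4 r3 r4 heq
      rcases hne with h | h
      · exact h e1
      · exact h e2)
  rw [univ_inter, Real.volume_Icc, sub_zero, ENNReal.ofReal_one, ENNReal.toReal_one] at hsum
  have h5 : ∑ Q ∈ F, 9 / 10 * mid Q ≤ 1 :=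
    (Finset.sum_le_sum fun Q hQ => (hvol Q hQ).2).trans hsum
  rw [← Finset.mul_sum] at h5
  linarith

end Pool.Agent.Helper39.HS
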