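import Pool.Agent.Helper39.HS.St2

set_option autoImplicit false

namespace Pool.Agent.Helper39.HS

open Set MeasureTheory Pool.Agent.Helper82.HG Pool.Agent.Helper82.HC Pool.Agent.Helper21.HN

theorem tMEA : StPER → StMEA := by
  intro hPER K S Λ G P L h m hB F U hF hdis
  obtain ⟨N, hN1, hN2, hN3, -, hN5⟩ := hB.meas
  have key := hPER N hN1 hN2 PG F U ?_ hdis
  · exact key.trans hN3
  · intro Q hQ
    obtain ⟨hs, hc, hm, hU⟩ := hF Q hQ
    exact ⟨hm, hU.trans (hN5 Q hs hc)⟩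

end Pool.Agent.Helper39.HS
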