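import Pool.Agent.Helper39.HS.St3

/-! # HS module MNS: the main theorem -/

set_option autoImplicit false

namespace Pool.Agent.Helper39.HS

open Set MeasureTheory Filter Topology Pool.Agent.Helper82.HG Pool.Agent.Helper82.HC
  Pool.Agent.Helper21.HN

theorem tMNS : StSYS → StBIG → StLIM → StLVL → StLVR → StDEN → StPUL → StFNS → StMNS := by
  intro hY hBg hLm hLv hLr hDn hPu hF K S Λ hK hG hL ρ hρ hae
  by_contra hno
  have hK0 : 0 < K := by linarith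
  obtain ⟨L, hLdef⟩ : ∃ L : ℝ, L = 1 / (10000 * K) := ⟨_, rfl⟩
  have hL0 : 0 < L := by rw [hLdef]; positivity
  have hKL : 10000 * K * L = 1 := by
    rw [hLdef]
    field_simp
  obtain ⟨δ, hδ0, hF1⟩ := hF K S Λ hK hG hL
  obtain ⟨h₀, hh₀, hBg1⟩ := hBg K S Λ hK hG hL L (L / 400) hL0 hKL.le (by linarith)
  obtain ⟨h₁, hh₁⟩ : ∃ h₁ : ℝ, h₁ = min h₀ δ := ⟨_, rfl⟩
  have hh₁0 : 0 < h₁ := by rw [hh₁]; exact lt_min hh₀ hδ0
  have hpos : ∀ n : ℕ, 0 < h₁ / ((n : ℝ) + 1) := fun n => by positivity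
  choose G P hSys using fun n : ℕ => hY K S Λ hK hG hL hno (h₁ / ((n : ℝ) + 1)) δ (hpos n) hδ0
  have hlim : Tendsto (fun n : ℕ => h₁ / ((n : ℝ) + 1)) atTop (𝓝 0) := by
    have h1 := (tendsto_one_div_add_atTop_nhds_zero_nat (𝕜 := ℝ)).const_mul h₁
    rw [mul_zero] at h1
    refine h1.congr (fun n => ?_)
    ring
  have hle : ∀ n : ℕ, h₁ / ((n : ℝ) + 1) ≤ h₁ := by
    intro n
    apply div_le_self hh₁0.le
    have : (0 : ℝ) ≤ n := Nat.cast_nonneg n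
    linarith
  have hKt : 400 * K * (25 * L) ≤ 1 := by
    calc 400 * K * (25 * L) = 10000 * K * L := by ring
      _ ≤ 1 := hKL.le
  have hb : L / 200 - L / 400 = L / 400 := by ring
  obtain ⟨E, hEm, hEs, hEv, hEf⟩ := hLm K S Λ hK hG hL G P _ δ (25 * L) (L / 400) hSys hlim
    (by linarith) hKt (fun n => by
      have := hBg1 (G n) (P n) _ δ (hSys n) ((hle n).trans (by rw [hh₁]; exact min_le_left _ _))
      rwa [hb] at this)
  have hE0 : volume E ≠ 0 := by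
    intro h0
    rw [h0] at hEv
    have h1 : 0 < ENNReal.ofReal (L / 400) := ENNReal.ofReal_pos.2 (by linarith)
    exact absurd hEv (not_le.2 h1)
  have hEL : E ⊆ Λ := fun x hx => (hEs hx).1
  -- the level set
  obtain ⟨Z, hZm, hZE, hZ0, hZi⟩ : ∃ Z : Set ℝ, MeasurableSet Z ∧ Z ⊆ E ∧ volume Z ≠ 0 ∧
      (∀ x ∈ Z, ∀ g ∈ Gr S, g x ∈ Z → |deriv g x| ≤ 101 / 100) := by
    by_cases hEC : volume (E ∩ {x | ∃ C : ℝ, ∀ g ∈ Gr S, |deriv g x| ≤ C}) = 0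
    · refine hLr S ρ hρ E hEm hE0 ?_
      rw [ae_restrict_iff' hEm]
      rw [ae_restrict_iff' hL.closed.measurableSet] at hae
      have h1 : ∀ᵐ x ∂(volume : Measure ℝ),
          ¬ (x ∈ E ∩ {x | ∃ C : ℝ, ∀ g ∈ Gr S, |deriv g x| ≤ C}) := by
        rw [ae_iff]
        simp only [not_not]
        exact hEC
      filter_upwards [hae, h1] with x hx1 hx2 hxE
      rcases hx1 (hEL hxE) with h | h
      · exact absurd ⟨hxE, h⟩ hx2
      · exact h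
    · obtain ⟨Z, a, h1, h2, h3, -, h5⟩ := hLv K S hG E hEm hEC
      exact ⟨Z, h1, h2, h3, h5⟩
  obtain ⟨n, hn, Q, hQ1, hQ2, hQ3⟩ := hDn K S Λ hK hG hL G P _ δ (25 * L) hSys hlim hKt Z hZm hZ0
    (fun x hx => hEf x (hZE hx)) (δ / 2) 0 (by linarith)
  obtain ⟨A, hA, hAL⟩ := hPu K S Λ (G n) (P n) Q _ δ (25 * L) (δ / 2) Z (hSys n) hKt hZm
    (hZE.trans hEL) hZi hQ1 hQ2 hQ3
  have h2δ : 2 * (δ / 2) = δ := by ring
  rw [h2δ] at hA
  exact hF1 (G n) (P n) _ A ((hle n).trans (by rw [hh₁]; exact min_le_right _ _)) (hSys n) hA hAL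

end Pool.Agent.Helper39.HS
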