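import Pool.Agent.Helper39.HS.St3

/-! # HS module PUL: pull back to the base pair -/

set_option autoImplicit false

namespace Pool.Agent.Helper39.HS

open Set MeasureTheory Filter Topology Pool.Agent.Helper82.HG Pool.Agent.Helper82.HC
  Pool.Agent.Helper21.HN

private theorem deriv_mul_PUL {s g : Equiv.Perm ℝ} (hs : Differentiable ℝ s)
    (hg : Differentiable ℝ g) (y : ℝ) :
    deriv (⇑(s * g)) y = deriv s (g y) * deriv g y := by
  have h : ⇑(s * g) = ⇑s ∘ ⇑g := rfl
  rw [h]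
  exact deriv_comp y (hs (g y)) (hg y)

private theorem ratio_PUL {a b t : ℝ} (ha : 0 < a) (hb : 0 < b)
    (h : |Real.log a - Real.log b| ≤ t) : a ≤ Real.exp t * b := by
  have h1 : Real.log a ≤ t + Real.log b := by linarith [(abs_le.1 h).2]
  have h2 := Real.exp_le_exp.2 h1
  rwa [Real.exp_log ha, Real.exp_add, Real.exp_log hb] at h2

private theorem exp_PUL {x : ℝ} (hx : x ≤ 1 / 400) : Real.exp x ≤ 400 / 399 := by
  have h0 : Real.exp x ≤ Real.exp (1 / 400) := Real.exp_le_exp.2 hx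
  have h1 := Real.add_one_le_exp (-(1 / 400) : ℝ)
  rw [Real.exp_neg] at h1
  have h2 := Real.exp_pos (1 / 400 : ℝ)
  have h3 : (399 / 400 : ℝ) * Real.exp (1 / 400) ≤ 1 := by
    have h4 : (399 / 400 : ℝ) ≤ (Real.exp (1 / 400))⁻¹ := by linarith
    calc (399 / 400 : ℝ) * Real.exp (1 / 400) ≤ (Real.exp (1 / 400))⁻¹ * Real.exp (1 / 400) :=
          mul_le_mul_of_nonneg_right h4 h2.le
      _ = 1 := inv_mul_cancel₀ h2.ne'
  linarith

theorem tPUL : StBAS → StLAM → StACT → StPAC → StGEO → StWAY → StCST → StVOL → StDST →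
    StPUL := by
  intro hB hLA hA hP hGe hW hC hV hD K S Λ G P Q h th t e Z hSys hKt hZm hZL hZi hSt hct hfill
  have hK := hSys.K1
  have hG := hSys.gens
  have hL := hSys.lam
  have hPP := hSys.pair
  obtain ⟨u, c, hw, hct', rfl⟩ := ((hC K S Λ hG hL P hPP).2.1 Q t hSt).1 hct
  obtain ⟨huG, hc0, -⟩ := (hW K S Λ hG hL P hPP).1 u c hw
  obtain ⟨hd, hne, hmo, -⟩ := hB K S hG u huG
  have hinj : Function.Injective u := u.injective
  have hcore := (hP K S Λ hG hL).2.2.2.1 u huG P hPP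
  obtain ⟨hQQ, -, hspan, hmid, -⟩ := hA K S Λ hG hL u huG P hPP
  obtain ⟨hmid0, hms, -⟩ := (hGe K S Λ hG hL).1 P hPP
  obtain ⟨hmidQ, hmsQ, -⟩ := (hGe K S Λ hG hL).1 _ hQQ
  have hspan0 : 0 < span P := by linarith
  have hspanQ : 0 < span (pact u P) := by linarith
  have h1 := hPP.1.1
  have h2 := hPP.2.1.1
  have h3 := hPP.2.2.1
  have hDS := hD K S Λ hK hG hL P u c hPP hw
  have hsub : core P ⊆ Icc P.1.1 P.2.2 := by
    intro x hx
    unfold core at hx
    exact ⟨by linarith [hx.1], by linarith [hx.2]⟩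
  have hKc4 : 400 * K * c ≤ 1 := by nlinarith
  have hKc : K * c ≤ 1 / 400 := by linarith
  have hE := exp_PUL hKc
  have hE0 := Real.exp_pos (K * c)
  set E : ℝ := Real.exp (K * c) with hEdef
  set σ : ℝ := span (pact u P) with hσ
  have he0 : 0 ≤ e := by
    by_contra hcon
    push Not at hcon
    have h4 : e * mid (pact u P) < 0 := mul_neg_of_neg_of_pos hcon hmidQ
    have h5 : 0 ≤ (volume (core (pact u P) \ Z)).toReal := ENNReal.toReal_nonneg
    linarith
  have hσh : σ ≤ h := hSys.sml u c hw hKc4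
  have hmeas : MeasurableSet (core P ∩ u ⁻¹' Z) :=
    measurableSet_Ioo.inter (hd.continuous.measurable hZm)
  refine ⟨core P ∩ u ⁻¹' Z, ⟨hmeas, inter_subset_left, ?_, ?_⟩, ?_⟩
  · -- fill
    have hsm : MeasurableSet (core P \ (core P ∩ u ⁻¹' Z)) :=
      MeasurableSet.diff measurableSet_Ioo hmeas
    have hcorev : volume (core P) ≠ ⊤ := by
      unfold core
      rw [Real.volume_Ioo]
      exact ENNReal.ofReal_ne_top
    have hfin : volume (core P \ (core P ∩ u ⁻¹' Z)) ≠ ⊤ :=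
      ne_top_of_le_ne_top hcorev (measure_mono sdiff_subset)
    have hder : ∀ x ∈ core P \ (core P ∩ u ⁻¹' Z), DifferentiableAt ℝ u x ∧
        σ / (E * span P) ≤ |deriv u x| ∧ |deriv u x| ≤ E * σ / span P := by
      intro x hx
      obtain ⟨-, -, -, -, h5, h6⟩ := hDS x (hsub hx.1) x (hsub hx.1)
      refine ⟨hd x, ?_, ?_⟩
      · rw [div_le_iff₀ (mul_pos hE0 hspan0)]
        calc σ ≤ E * (|deriv u x| * span P) := h6
          _ = _ := by ring
      · rw [le_div_iff₀ hspan0]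
        exact h5
    have hvv := (hV u _ _ _ hsm hinj.injOn (div_nonneg hspanQ.le (mul_pos hE0 hspan0).le)
      hder hfin).2.2.1
    have himg : u '' (core P \ (core P ∩ u ⁻¹' Z)) = core (pact u P) \ Z := by
      rw [hcore]
      ext x
      constructor
      · rintro ⟨y, ⟨hy1, hy2⟩, rfl⟩
        exact ⟨⟨y, hy1, rfl⟩, fun hx => hy2 ⟨hy1, hx⟩⟩
      · rintro ⟨⟨y, hy1, rfl⟩, hx⟩
        exact ⟨y, ⟨hy1, fun hy => hx hy.2⟩, rfl⟩
    rw [himg] at hvv
    have hy : P.2.1 ∈ Icc P.1.1 P.2.2 := ⟨by linarith, by linarith⟩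
    have hz : P.1.2 ∈ Icc P.1.1 P.2.2 := ⟨by linarith, by linarith⟩
    have h6 := (hDS P.2.1 hy P.1.2 hz).2.2.1
    rw [← hmid, abs_of_nonneg (show 0 ≤ P.2.1 - P.1.2 by linarith)] at h6
    change mid (pact u P) * span P ≤ E * (σ * mid P) at h6
    set v : ℝ := (volume (core P \ (core P ∩ u ⁻¹' Z))).toReal with hv
    have h7 : σ / (E * span P) * v ≤ e * mid (pact u P) := hvv.trans hfill
    have h8 : σ * v ≤ e * mid (pact u P) * (E * span P) := by
      have h9 := mul_le_mul_of_nonneg_right h7 (mul_pos hE0 hspan0).le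
      calc σ * v = σ / (E * span P) * v * (E * span P) := by
            field_simp
        _ ≤ _ := h9
    have h10 : σ * v ≤ σ * (E * E * e * mid P) := by
      calc σ * v ≤ e * mid (pact u P) * (E * span P) := h8
        _ = (e * E) * (mid (pact u P) * span P) := by ring
        _ ≤ (e * E) * (E * (σ * mid P)) :=
            mul_le_mul_of_nonneg_left h6 (mul_nonneg he0 hE0.le)
        _ = _ := by ring
    have h11 : v ≤ E * E * e * mid P := le_of_mul_le_mul_left h10 hspanQ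
    have hEE : E * E ≤ 2 := by nlinarith
    calc v ≤ E * E * e * mid P := h11
      _ = (E * E) * (e * mid P) := by ring
      _ ≤ 2 * (e * mid P) := mul_le_mul_of_nonneg_right hEE (mul_nonneg he0 hmid0.le)
      _ = 2 * e * mid P := by ring
  · -- iso
    rintro y ⟨hyc, hyZ⟩ w hwG ⟨hwyc, hwyZ⟩
    obtain ⟨hwd, hwne, -, -⟩ := hB K S hG w hwG
    have hgG : u * w * u⁻¹ ∈ Gr S := mul_mem (mul_mem huG hwG) (inv_mem huG)
    obtain ⟨hgd, hgne, -, -⟩ := hB K S hG _ hgG
    have happ : (u * w * u⁻¹) (u y) = u (w y) := by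
      simp [Equiv.Perm.mul_apply]
    have hg1 := hZi (u y) hyZ _ hgG (by rw [happ]; exact hwyZ)
    have hcomp : (u * w * u⁻¹) * u = u * w := by group
    have e1 := deriv_mul_PUL hgd hd y
    have e2 := deriv_mul_PUL hd hwd y
    rw [hcomp, e2] at e1
    have e3 : |deriv u (w y)| * |deriv w y| = |deriv (⇑(u * w * u⁻¹)) (u y)| * |deriv u y| := by
      rw [← abs_mul, ← abs_mul, e1]
    have e4 := ratio_PUL (abs_pos.2 (hne y)) (abs_pos.2 (hne (w y)))
      (hDS y (hsub hyc) (w y) (hsub hwyc)).1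
    have hpos := abs_pos.2 (hne (w y))
    have e5 : |deriv u (w y)| * |deriv w y| ≤ |deriv u (w y)| * (101 / 100 * E) := by
      rw [e3]
      calc _ ≤ 101 / 100 * (E * |deriv u (w y)|) :=
            mul_le_mul hg1 e4 (abs_nonneg _) (by norm_num)
        _ = _ := by ring
    have e6 := le_of_mul_le_mul_left e5 hpos
    linarith
  · -- in `Λ`
    rintro y ⟨-, hyZ⟩
    exact ((hLA K S Λ hG hL).1 u huG y).1 (hZL hyZ)

end Pool.Agent.Helper39.HS
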