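import Pool.Agent.Helper39.HS.St3

/-!
# MP_10ef18_an (Hector), project HS: module SYS
-/

set_option autoImplicit false

namespace Pool.Agent.Helper39.HS

open Set MeasureTheory Filter Topology Pool.Agent.Helper82.HG Pool.Agent.Helper82.HC
  Pool.Agent.Helper21.HN

private lemma sact_one_SYS (u : ℝ × ℝ) (h : u.1 < u.2) : sact 1 u = u := by
  unfold sact
  simp only [Equiv.Perm.coe_one, id_eq, min_eq_left h.le, max_eq_right h.le]

private lemma sact_mul_SYS (g k : Equiv.Perm ℝ) (u : ℝ × ℝ) :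
    sact g (sact k u) = sact (g * k) u := by
  unfold sact
  simp only [Equiv.Perm.coe_mul, Function.comp_apply]
  rcases le_total (k u.1) (k u.2) with h | h
  · rw [min_eq_left h, max_eq_right h]
  · rw [min_eq_right h, max_eq_left h, min_comm, max_comm]

theorem tSYS : StLAM → StWGT → StFIN → StMIN' → StSML → StTOA → StTHK → StSYS := by
  intro hLAM hWGT hFIN hMIN hSML hTOA hTHK K S Λ hK hG hL hinf h th hh hth
  have hK0 : 0 < K := by linarith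
  obtain ⟨e, he⟩ : ∃ e : ℝ, e = min (th / 2) (1 / (2048 * K)) := ⟨_, rfl⟩
  have he0 : 0 < e := by rw [he]; exact lt_min (by linarith) (by positivity)
  have he1 : 2 * e ≤ th := by
    have : e ≤ th / 2 := by rw [he]; exact min_le_left _ _
    linarith
  have he2 : 1024 * K * (2 * e) ≤ 1 := by
    have h1 : e ≤ 1 / (2048 * K) := by rw [he]; exact min_le_right _ _
    rw [le_div_iff₀ (by positivity)] at h1
    linarith
  obtain ⟨r, hr, hr2⟩ := hTHK Λ hL.closed e he0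
  obtain ⟨h', hh'⟩ : ∃ h' : ℝ, h' = min h r := ⟨_, rfl⟩
  have hh'0 : 0 < h' := by rw [hh']; exact lt_min hh hr
  have hh'h : h' ≤ h := by rw [hh']; exact min_le_left _ _
  have hh'r : h' ≤ r := by rw [hh']; exact min_le_right _ _
  have hmeas := hr2 h' hh'0 hh'r
  -- the first pair
  obtain ⟨P₁, hP₁, hW1, hW2, hsp⟩ : ∃ P₁ : PG, IsPair Λ P₁ ∧ W S P₁.1 ≤ 2 * (P₁.1.2 - P₁.1.1) ∧
      W S P₁.2 ≤ 2 * (P₁.2.2 - P₁.2.1) ∧ span P₁ < h' / 7 := by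
    by_contra hcon
    push Not at hcon
    exact hinf (hFIN K S Λ hG hL ⟨h' / 7, by positivity, fun P hP h1 h2 => hcon P hP h1 h2⟩)
  obtain ⟨-, -, -, -, -, -, hgap, -⟩ := hLAM K S Λ hG hL
  have wgt := hWGT K S Λ hG hL
  obtain ⟨p1pos, -, -, p1inv, -⟩ := wgt P₁.1 hP₁.1
  obtain ⟨p2pos, -, -, p2inv, -⟩ := wgt P₁.2 hP₁.2.1
  have q1 : P₁.1.1 < P₁.1.2 := hP₁.1.1
  have q2 : P₁.2.1 < P₁.2.2 := hP₁.2.1.1
  have q3 : P₁.1.2 ≤ P₁.2.1 := hP₁.2.2.1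
  have one_mem : (1 : Equiv.Perm ℝ) ∈ Gr S := Subgroup.one_mem _
  have hm1 : P₁.1 ∈ Orb2 S P₁.1 P₁.2 := ⟨1, one_mem, Or.inl (sact_one_SYS _ q1).symm⟩
  have hm2 : P₁.2 ∈ Orb2 S P₁.1 P₁.2 := ⟨1, one_mem, Or.inr (sact_one_SYS _ q2).symm⟩
  have hgaps : ∀ x ∈ Orb2 S P₁.1 P₁.2, Gap Λ x.1 x.2 := by
    rintro u ⟨g, hg, rfl | rfl⟩
    · exact hgap _ _ hP₁.1 g hg
    · exact hgap _ _ hP₁.2.1 g hg
  have hw : ∀ x ∈ Orb2 S P₁.1 P₁.2, W S x ≤ h' := by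
    unfold span at hsp
    rintro u ⟨g, hg, rfl | rfl⟩
    · rw [p1inv g hg]; linarith
    · rw [p2inv g hg]; linarith
  have hinv : ∀ g ∈ Gr S, ∀ x ∈ Orb2 S P₁.1 P₁.2, sact g x ∈ Orb2 S P₁.1 P₁.2 := by
    rintro g hg u ⟨k, hk, rfl | rfl⟩
    · exact ⟨g * k, mul_mem hg hk, Or.inl (sact_mul_SYS _ _ _)⟩
    · exact ⟨g * k, mul_mem hg hk, Or.inr (sact_mul_SYS _ _ _)⟩
  have htot : ∀ u ∈ Orb2 S P₁.1 P₁.2, Tot S u (2 * e) := by
    intro u hu s hs1 hs2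
    have := hTOA K S Λ hG hL h' u hh'0 (hgaps u hu) (hw u hu) s hs1 hs2
    linarith
  obtain ⟨P, hP, hP1, hP2, hmin⟩ := hMIN K S Λ hK hG hL (2 * e) P₁ hP₁ he2 htot
  refine ⟨Orb2 S P₁.1 P₁.2, P, ⟨hK, hG, hL, hh, hP, hP1, hP2, hinv, hgaps, ?_, ?_, hmin, ?_⟩⟩
  · intro x hx
    have h1 := (wgt x (hgaps x hx)).2.2.1
    have h2 := hw x hx
    linarith
  · intro x hx s hs1 hs2
    have := htot x hx s hs1 hs2
    linarith
  · intro g c hway hc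
    have := hSML K S Λ hK hG hL P₁ P hP₁ hW1 hW2 hP hP1 hP2 (hmin P₁ hP₁ hm1 hm2) g c hway hc
    linarith

end Pool.Agent.Helper39.HS
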