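import Pool.Agent.Helper39.HS.St3

/-!
# MP_10ef18_an (Hector), project HS, module THK: measure of the neighbourhood minus the set
-/

set_option autoImplicit false

namespace Pool.Agent.Helper39.HS

open Set MeasureTheory Filter Topology Pool.Agent.Helper82.HG Pool.Agent.Helper82.HC
  Pool.Agent.Helper21.HN

theorem tTHK : StTHK := by
  intro Λ hcl e he
  set μ : Measure ℝ := (volume : Measure ℝ).restrict (Icc (0 : ℝ) 1) with hμ
  haveI : IsFiniteMeasure μ := by
    rw [hμ]
    infer_instance
  have h1 : Tendsto (fun r => μ (Metric.cthickening r Λ)) (𝓝 0) (𝓝 (μ Λ)) :=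
    tendsto_measure_cthickening_of_isClosed ⟨1, one_pos, measure_ne_top _ _⟩ hcl
  have hlt : μ Λ < μ Λ + ENNReal.ofReal e :=
    ENNReal.lt_add_right (measure_ne_top _ _) (ENNReal.ofReal_pos.2 he).ne'
  have h2 := (tendsto_order.1 h1).2 _ hlt
  obtain ⟨r, hr, hr2⟩ := Metric.eventually_nhds_iff.1 h2
  refine ⟨r / 2, by positivity, fun h hh hhr => ?_⟩
  have h3 := hr2 (y := h) (by
    rw [Real.dist_eq, sub_zero, abs_of_pos hh]
    linarith)
  have hsub : Λ ⊆ Metric.cthickening h Λ := Metric.self_subset_cthickening Λ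
  have h4 : volume ((Metric.cthickening h Λ \ Λ) ∩ Icc (0 : ℝ) 1) = μ (Metric.cthickening h Λ \ Λ) := by
    rw [hμ, Measure.restrict_apply (Metric.isClosed_cthickening.measurableSet.diff hcl.measurableSet)]
  rw [h4, measure_diff hsub hcl.measurableSet.nullMeasurableSet (measure_ne_top _ _)]
  apply ENNReal.toReal_le_of_le_ofReal he.le
  rw [tsub_le_iff_left]
  exact h3.le

end Pool.Agent.Helper39.HS
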