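import Pool.Agent.Helper39.HS.St3

/-!
# MP_10ef18_an (Hector), project HS: module TNY
-/

set_option autoImplicit false

namespace Pool.Agent.Helper39.HS

open Set MeasureTheory Filter Topology Pool.Agent.Helper82.HG Pool.Agent.Helper82.HC
  Pool.Agent.Helper21.HN

private lemma small_TNY (K th δ l : ℝ) (hδ : 0 < δ) (hδ1 : δ ≤ 1) (h : 1000 * K * th ≤ δ)
    (hl : 0 < l) : 64 * K * th * (l + 2 * (4 * l / δ)) ≤ l := by
  obtain ⟨r, hr⟩ : ∃ r : ℝ, r = l / δ := ⟨_, rfl⟩
  have hr0 : 0 < r := by rw [hr]; positivity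
  have hl2 : l = δ * r := by rw [hr]; field_simp
  have h4 : 4 * l / δ = 4 * r := by rw [hr]; ring
  rw [h4, hl2]
  have h5 : K * th ≤ δ / 1000 := by linarith
  have h6 : 0 ≤ 64 * (δ * r + 2 * (4 * r)) := by positivity
  have h7 := mul_le_mul_of_nonneg_right h5 h6
  have h8 : δ / 1000 * (64 * (δ * r + 2 * (4 * r))) ≤ δ * r := by
    have : 0 ≤ δ * r := by positivity
    nlinarith
  nlinarith

theorem tTNY : StLAM → StWGT → Pool.Agent.Helper82.HG.StSEP → StINS → StTNY := by
  intro _ hWGT hSEP hINS K S Λ G P h th δ hB hδ hδ1 hKδ g hg X hX hV1 hV2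
  have hXG : X ∈ G := by
    rcases hX with rfl | rfl
    · exact hB.mem1
    · exact hB.mem2
  have hVG : sact g X ∈ G := hB.gact g hg X hXG
  have gX := hB.ggap X hXG
  have gV := hB.ggap _ hVG
  have hins := hINS K S Λ G P h th hB _ hVG hV1 hV2
  obtain ⟨wpos, -, -, winv, -⟩ := hWGT K S Λ hB.gens hB.lam X gX
  have hWV : W S (sact g X) = W S X := winv g hg
  have hmu : mu S P ≤ wt S X := by
    rcases hX with rfl | rfl
    · exact min_le_left _ _
    · exact min_le_right _ _
  have e1 : wt S (sact g X) * W S X = (sact g X).2 - (sact g X).1 := by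
    unfold wt; rw [hWV]; field_simp
  have e2 : wt S X * W S X = X.2 - X.1 := by
    unfold wt; field_simp
  have first : 9 * ((sact g X).2 - (sact g X).1) ≤ 5 * (X.2 - X.1) := by
    rw [← e1, ← e2]
    have : 9 * wt S (sact g X) ≤ 5 * wt S X := by linarith
    nlinarith
  refine ⟨first, ?_⟩
  have hth : 0 ≤ th := by
    have := hB.tot X hXG ∅ (by simp) (by simp)
    simpa using this
  have hV0 : 0 < (sact g X).2 - (sact g X).1 := by linarith [gV.1]
  have hX0 : 0 < X.2 - X.1 := by linarith [gX.1]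
  have s1 := small_TNY K th δ _ hδ hδ1 hKδ hV0
  have s2 := small_TNY K th δ _ hδ hδ1 hKδ hX0
  have hρV : 0 < 4 * ((sact g X).2 - (sact g X).1) / δ := by positivity
  have hρX : 0 < 4 * (X.2 - X.1) / δ := by positivity
  have hmin : ((sact g X).2 - (sact g X).1) / δ ≤
      min (4 * ((sact g X).2 - (sact g X).1) / δ) (4 * (X.2 - X.1) / δ) / 4 := by
    rw [le_div_iff₀ (by norm_num)]
    refine le_min ?_ ?_
    · apply le_of_eq; ring
    · rw [div_mul_eq_mul_div]
      exact div_le_div_of_nonneg_right (by linarith) hδ.le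
  have hK0 : 0 ≤ K := by linarith [hB.K1]
  have hm : mid P = P.2.1 - P.1.2 := rfl
  have hfin : ((sact g X).2 - (sact g X).1) / δ ≤ mid P := by
    rcases hX with rfl | rfl
    · have := hSEP K S Λ hK0 hB.gens hB.lam P.1.1 P.1.2 (sact g P.1).1 (sact g P.1).2 th th
        _ _ gX gV hV1 (hB.tot P.1 hXG) (hB.tot _ hVG) hρX hρV s2 s1
      rw [min_comm] at this
      rw [hm]
      linarith
    · have := hSEP K S Λ hK0 hB.gens hB.lam (sact g P.2).1 (sact g P.2).2 P.2.1 P.2.2 th th
        _ _ gV gX hV2 (hB.tot _ hVG) (hB.tot P.2 hXG) hρV hρX s1 s2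
      rw [hm]
      linarith
  rw [div_le_iff₀ hδ] at hfin
  linarith

end Pool.Agent.Helper39.HS
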