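import Pool.Agent.Helper39.HS.St3

/-!
# MP_10ef18_an (Hector), project HS: module VOL
-/

set_option autoImplicit false

namespace Pool.Agent.Helper39.HS

open Set MeasureTheory Filter Topology Pool.Agent.Helper82.HG Pool.Agent.Helper82.HC
  Pool.Agent.Helper21.HN

theorem tVOL : StVOL := by
  intro f s c C hs hinj hc hf hfin
  have hcont : ContinuousOn f s := fun x hx => (hf x hx).1.continuousAt.continuousWithinAt
  have hm : MeasurableSet (f '' s) := hs.image_of_continuousOn_injOn hcont hinj
  have hint := lintegral_image_eq_lintegral_abs_deriv_mul (f := f) (f' := deriv f) hs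
    (fun x hx => (hf x hx).1.hasDerivAt.hasDerivWithinAt) hinj (fun _ => 1)
  simp only [mul_one, lintegral_one, Measure.restrict_apply MeasurableSet.univ, univ_inter] at hint
  rcases s.eq_empty_or_nonempty with rfl | ⟨x₀, hx₀⟩
  · simp
  have hC : 0 ≤ C := by
    have := hf x₀ hx₀
    linarith [this.2.1, this.2.2]
  have hup : volume (f '' s) ≤ ENNReal.ofReal C * volume s := by
    rw [hint]
    calc ∫⁻ x in s, ENNReal.ofReal |deriv f x| ≤ ∫⁻ _x in s, ENNReal.ofReal C :=
          setLIntegral_mono' hs fun x hx => ENNReal.ofReal_le_ofReal (hf x hx).2.2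
      _ = ENNReal.ofReal C * volume s := by
          rw [setLIntegral_const]
  have hlo : ENNReal.ofReal c * volume s ≤ volume (f '' s) := by
    rw [hint]
    calc ENNReal.ofReal c * volume s = ∫⁻ _x in s, ENNReal.ofReal c := by
          rw [setLIntegral_const]
      _ ≤ ∫⁻ x in s, ENNReal.ofReal |deriv f x| :=
          setLIntegral_mono' hs fun x hx => ENNReal.ofReal_le_ofReal (hf x hx).2.1
  have hfin2 : ENNReal.ofReal C * volume s ≠ ⊤ := ENNReal.mul_ne_top ENNReal.ofReal_ne_top hfin
  have hfin3 : volume (f '' s) ≠ ⊤ := ne_top_of_le_ne_top hfin2 hup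
  refine ⟨hm, hfin3, ?_, ?_⟩
  · have := ENNReal.toReal_mono hfin3 hlo
    rwa [ENNReal.toReal_mul, ENNReal.toReal_ofReal hc] at this
  · have := ENNReal.toReal_mono hfin2 hup
    rwa [ENNReal.toReal_mul, ENNReal.toReal_ofReal hC] at this

end Pool.Agent.Helper39.HS
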