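import Pool.Agent.Helper39.HS.St2

/-!
# MP_10ef18_an (Hector), project HS: bounded derivatives almost everywhere on the minimal set

THEOREM. Let `Λ` be an exceptional minimal set of a finitely generated group of `C²` circle
diffeomorphisms such that Lebesgue almost every `x ∈ Λ` is conical, or the derivatives `|g' x|`, `g` in
the group, are bounded, or `x` is in the set where a measurable function `ρ` is an invariant density.
Then there are only finitely many orbits of gaps.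

Each `StXX : Prop` is proved in the module `Pool/Agent/Helper39/HS/M_XX.lean` as `theorem tXX : StXX`
(or `theorem tXX : StYY → StXX`, see the docstring; more hypotheses than listed are not allowed, fewer
are fine). Statements `StBAS`, `StLAM`, `StCTL`, `HG.StSEP`, `StSUM` are in
`Pool/Agent/Helper82/HG/St.lean`; `StWGT`, `StACT`, `StFAR`, `StFIN` in `Pool/Agent/Helper82/HC/St.lean`;
`StPAC`, `StGEO`, `StWAY`, `StNEA`, `StWTC`, `StCST`, `StCOV`, `StPER`, `StTOT`, `StMIN'`, `StSML` in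
`Pool/Agent/Helper21/HN/St.lean`; all of them are proved. `StSEP`, `StSUM`, `StMIN` exist in several
namespaces; here `HG.StSEP` is the separation of two gaps.
-/

set_option autoImplicit false

namespace Pool.Agent.Helper39.HS

open Set MeasureTheory Filter Topology Pool.Agent.Helper82.HG Pool.Agent.Helper82.HC
  Pool.Agent.Helper21.HN

/-- MODULE VOL (`theorem tVOL : StVOL`). Change of variables with bounds.
PROOF. `f '' s` is measurable: `MeasurableSet.image_of_continuousOn_injOn` (differentiable, hence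
continuous). `lintegral_image_eq_lintegral_abs_deriv_mul` with `g = 1`:
`volume (f '' s) = ∫⁻ x in s, ENNReal.ofReal |deriv f x|`, between `ofReal c * volume s` and
`ofReal C * volume s` (if `s` is empty everything is `0`, otherwise `0 ≤ c ≤ C`). -/
def StVOL : Prop :=
  ∀ (f : ℝ → ℝ) (s : Set ℝ) (c C : ℝ), MeasurableSet s → InjOn f s → 0 ≤ c →
    (∀ x ∈ s, DifferentiableAt ℝ f x ∧ c ≤ |deriv f x| ∧ |deriv f x| ≤ C) → volume s ≠ ⊤ →
    MeasurableSet (f '' s) ∧ volume (f '' s) ≠ ⊤ ∧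
    c * (volume s).toReal ≤ (volume (f '' s)).toReal ∧
    (volume (f '' s)).toReal ≤ C * (volume s).toReal

/-- MODULE ABS (`theorem tABS : StVOL → StABS`). The analytic core of the disjointness argument.
PROOF. `C := (13/10) exp M`, `δ := 1 / (100 M C²)` (`C ≥ 13/10`). `deriv k y > 0` (`k` is strictly
monotone, the derivative is not zero).
(0) For `y ∈ Icc c₀ d₀` with `k y ∈ Icc c₁ d₁` the distortion between `y` and `x` gives
`1/C ≤ deriv k y ≤ C`.
(1) Choice of `e ∈ (q, b₀]` with `q < e`, `k e ≤ b₁`: in the first case (`b₁ ≤ k b₀`) `e` is the point of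
`(q, b₀]` with `k e = b₁` (intermediate value theorem, `k q = a₁ < b₁`), and
`m = k e - k q ≤ C (e - q)`. In the second case `e = b₀`. There the mean value theorem gives
`ξ ∈ (p, q)` with `deriv k ξ = (a₁ - c₁)/(q - p) ≥ 9/5` and `ξ' ∈ (b₀, d₀)` with
`deriv k ξ' = (k d₀ - k b₀)/(d₀ - b₀) ≤ 5/9`; `log (9/5) - log (5/9) ≥ 1`, so
`l ≤ M (|ξ - ξ'| + |k ξ - k ξ'|) ≤ M (1 + C) (d₀ - p)` (all of `[p, d₀]` is mapped into `[c₁, b₁]`), and
`d₀ - p = (q - p) + (b₀ - q) + (d₀ - b₀) ≤ δ m + (b₀ - q) + C δ m`. As `m ≤ l` and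
`M (1 + C)² δ ≤ 1/2` this gives `b₀ - q ≥ m / (2 M (1 + C))`. In both cases
`e - q ≥ m / (2 M (1 + C)) ≥ 4 C δ m`.
(2) `J := Ioo q (q + 4 C δ m)` is inside `Ioo a₀ b₀`, `k '' J` inside `Ioo a₁ b₁`. `J \ A₀` has measure
`≤ δ m`; `B := J \ k ⁻¹' A₁` is mapped into `Ioo a₁ b₁ \ A₁`, so StVOL (`c = 1/C`) gives
`volume B ≤ C δ m`. As `δ m + C δ m < 4 C δ m` there is `y ∈ J ∩ A₀` with `k y ∈ A₁`; `deriv k y ≤ 13/10`.
(3) With `ξ ∈ (p, q)` as above (mean value theorem), `log (deriv k ξ) - log (deriv k y) ≥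
log (18/13) ≥ 1 - 13/18 = 5/18`; but `|ξ - y| ≤ δ m + 4 C δ m ≤ 5 C δ m`, `|k ξ - k y| ≤ 5 C² δ m`, so
`(5/18) l ≤ M (5 C δ m + 5 C² δ m) ≤ 10 M C² δ m = m/10 ≤ l/10`, a contradiction (`l ≥ m > 0`). -/
def StABS : Prop :=
  ∀ M : ℝ, 1 ≤ M → ∃ δ : ℝ, 0 < δ ∧ δ ≤ 1 ∧
    ∀ (c₀ a₀ b₀ d₀ c₁ a₁ b₁ d₁ m l p q x : ℝ) (k : ℝ → ℝ) (A₀ A₁ : Set ℝ),
    c₀ < a₀ → a₀ < b₀ → b₀ < d₀ → c₁ < a₁ → a₁ < b₁ → b₁ < d₁ → b₀ - a₀ = m → b₁ - a₁ = m →
    m ≤ l → StrictMono k → Differentiable ℝ k → (∀ y, deriv k y ≠ 0) →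
    (∀ y ∈ Icc c₀ d₀, ∀ z ∈ Icc c₀ d₀, k y ∈ Icc c₁ d₁ → k z ∈ Icc c₁ d₁ →
      |Real.log (|deriv k y|) - Real.log (|deriv k z|)| ≤ M ∧
      |Real.log (|deriv k y|) - Real.log (|deriv k z|)| * l ≤ M * (|y - z| + |k y - k z|)) →
    MeasurableSet A₀ → MeasurableSet A₁ → A₀ ⊆ Ioo a₀ b₀ → A₁ ⊆ Ioo a₁ b₁ →
    (volume (Ioo a₀ b₀ \ A₀)).toReal ≤ δ * m → (volume (Ioo a₁ b₁ \ A₁)).toReal ≤ δ * m →
    (∀ y ∈ A₀, k y ∈ A₁ → 10 / 13 ≤ |deriv k y| ∧ |deriv k y| ≤ 13 / 10) →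
    x ∈ A₀ → k x ∈ A₁ →
    a₀ < p → p < q → q < b₀ → k p = c₁ → k q = a₁ → q - p ≤ δ * m → 9 * (q - p) ≤ 5 * (a₁ - c₁) →
    (b₁ ≤ k b₀ ∨ (k d₀ < b₁ ∧ k d₀ - k b₀ ≤ δ * m ∧ 9 * (k d₀ - k b₀) ≤ 5 * (d₀ - b₀))) →
    False

/-- MODULE DST (`theorem tDST : StBAS → StACT → StPAC → StWAY → StDST`). Distortion along a way, on the
hull of `P`.
PROOF. Way (1): `g ∈ Gr S`, `0 ≤ c`. Elements of `Gr S` are differentiable with nonvanishing
derivative, strictly monotone or antitone; so for `y, z` in the hull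
`|g y - g z| ≤ |g P.2.2 - g P.1.1| = span (pact g P)` (StACT). First inequality by induction on the way:
`nil`: `deriv 1 = 1`; `tr m`: `T ^ m` is an integer translation (see `StPAC`), the derivative does not
change (`deriv (fun x => g x + m)`); `step s`: `deriv (s * g) y = deriv s (g y) * deriv g y`, `Nice K s`:
`|log|s'(g y)| - log|s'(g z)|| ≤ K |g y - g z| ≤ K span (pact g P)`. Fifth and sixth: mean value theorem
on the hull gives `ξ` with `|g' ξ| * span P = span (pact g P)`, and the first inequality for `y, ξ`.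
Third and fourth: mean value theorem between `y` and `z` and the fifth, sixth for the intermediate
point. Second: again induction on the way, in the step
`K |g y - g z| * span P ≤ K exp (K c) span (pact g P) |y - z|` (third inequality) and
`K c exp (K c) + K exp (K c) s ≤ K (c + s) exp (K (c + s))`, `s = span (pact g P) ≥ 0`. -/
def StDST : Prop :=
  ∀ (K : ℝ) (S : Set (Equiv.Perm ℝ)) (Λ : Set ℝ), 1 ≤ K → Gens K S → Lam S Λ →
    ∀ (P : PG) (g : Equiv.Perm ℝ) (c : ℝ), IsPair Λ P → Way S P g c →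
    ∀ y ∈ Icc P.1.1 P.2.2, ∀ z ∈ Icc P.1.1 P.2.2,
      |Real.log (|deriv g y|) - Real.log (|deriv g z|)| ≤ K * c ∧
      |Real.log (|deriv g y|) - Real.log (|deriv g z|)| * span P ≤
        K * c * Real.exp (K * c) * |y - z| ∧
      |g y - g z| * span P ≤ Real.exp (K * c) * (span (pact g P) * |y - z|) ∧
      span (pact g P) * |y - z| ≤ Real.exp (K * c) * (|g y - g z| * span P) ∧
      |deriv g y| * span P ≤ Real.exp (K * c) * span (pact g P) ∧
      span (pact g P) ≤ Real.exp (K * c) * (|deriv g y| * span P)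

/-- MODULE FIL (`theorem tFIL : StBAS → StACT → StPAC → StGEO → StWAY → StVOL → StDST → StFIL`). Good
parts of images.
PROOF. `core (pact g P) = g '' core P` (StPAC), so `core (pact g P) \ g '' A = g '' (core P \ A)`
(`g` injective). StVOL with `C = exp (K c) span (pact g P) / span P` (StDST, fifth; `c = 0` as lower
bound): its measure is `≤ exp (K c) (span (pact g P)/span P) e mid P`, and StDST (fourth) for the end
points of the core (`mid (pact g P) = |g P.2.1 - g P.1.2|`, StACT):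
`span (pact g P) mid P ≤ exp (K c) mid (pact g P) span P`. `exp (K c)² ≤ exp (24 K)`. (`0 ≤ e mid P`,
`mid P > 0` so `0 ≤ e`.) -/
def StFIL : Prop :=
  ∀ (K : ℝ) (S : Set (Equiv.Perm ℝ)) (Λ : Set ℝ), 1 ≤ K → Gens K S → Lam S Λ →
    ∀ (P : PG) (g : Equiv.Perm ℝ) (c : ℝ), IsPair Λ P → Way S P g c → c ≤ 12 →
    ∀ (A : Set ℝ) (e : ℝ), MeasurableSet A → A ⊆ core P →
      (volume (core P \ A)).toReal ≤ e * mid P →
      MeasurableSet (⇑g '' A) ∧ ⇑g '' A ⊆ core (pact g P) ∧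
      (volume (core (pact g P) \ ⇑g '' A)).toReal ≤ Real.exp (24 * K) * e * mid (pact g P)

/-- MODULE INS (`theorem tINS : StLAM → StGEO → StWTC → StINS`). Gaps of `G` inside the core of `P` are
light. PROOF. Same as `tINN` (`Pool/Agent/Helper39/HS/M_INN.lean`; only the fields `K1, gens, lam, pair,
mem1, mem2, ggap, psi` are used there). -/
def StINS : Prop :=
  ∀ (K : ℝ) (S : Set (Equiv.Perm ℝ)) (Λ : Set ℝ) (G : Set (ℝ × ℝ)) (P : PG) (h th : ℝ),
    Sys K S Λ G P h th → ∀ V ∈ G, P.1.2 < V.1 → V.2 < P.2.1 → 9 * wt S V ≤ 5 * mu S P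

/-- MODULE TNY (`theorem tTNY : StLAM → StWGT → HG.StSEP → StINS → StTNY`). Gaps in the orbit of an end
gap inside the core are tiny.
PROOF. `V := sact g X ∈ G`. StINS: `9 wt V ≤ 5 mu P ≤ 5 wt X`, and `W S V = W S X > 0` (StWGT), so
`9 |V| ≤ 5 |X|`. HG.StSEP for `X`, `V` (in the order of the line: `P.1` is on the left of `V`, `P.2` on
the right), `Θ = Θ' = th` (`tot`; `0 ≤ th` because of the empty finset), with `ρ = 4 |V|/δ` for `V` and
`ρ = 4 |X|/δ` for `X`: `64 K th (1 + 8/δ) ≤ (64/1000) (δ + 8) ≤ 1`. It gives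
`|V|/δ ≤` distance of `X` and `V`, which is `≤ mid P`. -/
def StTNY : Prop :=
  ∀ (K : ℝ) (S : Set (Equiv.Perm ℝ)) (Λ : Set ℝ) (G : Set (ℝ × ℝ)) (P : PG) (h th δ : ℝ),
    Sys K S Λ G P h th → 0 < δ → δ ≤ 1 → 1000 * K * th ≤ δ →
    ∀ g ∈ Gr S, ∀ X : ℝ × ℝ, (X = P.1 ∨ X = P.2) → P.1.2 < (sact g X).1 →
      (sact g X).2 < P.2.1 →
      9 * ((sact g X).2 - (sact g X).1) ≤ 5 * (X.2 - X.1) ∧
      (sact g X).2 - (sact g X).1 ≤ δ * mid P

/-- MODULE DJA (`theorem tDJA : StBAS → StLAM → StACT → StPAC → StGEO → StWAY → StABS → StDST → StTNY →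
StDJA`). First half of the disjointness.
PROOF. `M := 24 K exp (12 K)` (`≥ 1`), `δ` from StABS. Let `k := v⁻¹ * u`, `v ∘ k = u`, so
`log|k' y| = log|u' y| - log|v' (k y)|` (chain rule, derivatives do not vanish by StBAS). If `y, z` and
`k y, k z` are in the hull of `P`, StDST (first and second, for `u` at `y, z` and for `v` at `k y, k z`,
`c ≤ 12`) bounds the distortion of `k` by `24 K ≤ M` and by `12 K exp (12 K) (|y-z| + |k y - k z|)/span P`.
`10/13 ≤ |k' y| ≤ 13/10` if `y ∈ A`, `k y ∈ A` (`iso` for `k` and for `k⁻¹` at `k y`; `k ∈ Gr S`).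
Suppose that `V := sact k⁻¹ X = (p, q)` is inside the core; `k` maps `V` onto `X`; StTNY for `k⁻¹`:
`9 |V| ≤ 5 |X|`, `|V| ≤ δ mid P`. We apply StABS with `m = mid P`, `l = span P` to
`f = k` if `k` is increasing and `X = P.1`; `f y = - k y` (`A₁ = -A`, target hull reflected) if `k` is
decreasing and `X = P.2`; `f y = k (-y)` (source reflected) if `k` is decreasing and `X = P.1`;
`f y = - k (- y)` if `k` is increasing and `X = P.2`: in all cases `f` is increasing, the reflected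
gap `V` is mapped onto the left gap of the (reflected) target. Last hypothesis: let `Y` be the right
gap of the (reflected) source (`P.2` if the source is not reflected, otherwise `P.1`). `k` maps `Y` to a
gap `sact k Y` (StLAM (g)). If `f b₀ < b₁` then this gap, seen in the reflected target, has its left end
point `f b₀` between `a₁ = f q` and `b₁`; gaps are disjoint or equal (StLAM (h)), so its right end point
`f d₀` is `< b₁`, it is inside the core and StTNY for `k`, `Y` gives the other two inequalities. -/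
def StDJA : Prop :=
  ∀ K : ℝ, 1 ≤ K → ∃ δ : ℝ, 0 < δ ∧ δ ≤ 1 ∧
    ∀ (S : Set (Equiv.Perm ℝ)) (Λ : Set ℝ) (G : Set (ℝ × ℝ)) (P : PG) (h th : ℝ) (A : Set ℝ),
    Sys K S Λ G P h th → 1000 * K * th ≤ δ → Iso S P A δ →
    ∀ (u v : Equiv.Perm ℝ) (c c' : ℝ), Way S P u c → Way S P v c' → c ≤ 12 → c' ≤ 12 →
    ∀ x ∈ A, (v⁻¹ * u) x ∈ A → ∀ X : ℝ × ℝ, (X = P.1 ∨ X = P.2) →
      ¬ (P.1.2 < (sact (v⁻¹ * u)⁻¹ X).1 ∧ (sact (v⁻¹ * u)⁻¹ X).2 < P.2.1)

/-- MODULE DJN (`theorem tDJN : StBAS → StLAM → StACT → StPAC → StGEO → StWAY → StDJA → StDJN`). Good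
parts of different states are disjoint.
PROOF. `δ` from StDJA. Let `z = u x = v y`, `x, y ∈ A`; `w := v⁻¹ * u`, `w x = y`, `w ∈ Gr S`.
`R := pact w P ≠ P` (otherwise `pact u P = pact v (pact w P) = pact v P`). `y ∈ core R ∩ core P`
(StPAC), so `R.1.2 < P.2.1` and `P.1.2 < R.2.1`. By StGEO (3) `R.1.2 ≠ P.1.2` or `R.2.1 ≠ P.2.1`.
If `P.1.2 < R.1.2` then `P.1.2 < R.1.1` (StGEO (5)) and the gap `R.1` is inside the core of `P`; if
`R.2.1 < P.2.1` then `R.2.2 < P.2.1` (StGEO (6)) and `R.2` is inside. `R.1`, `R.2` are `sact w P.1`,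
`sact w P.2` in some order (StACT), and `w = (u⁻¹ * v)⁻¹`: contradiction to StDJA for `(v, u)`, `x := y`.
If `R.1.2 < P.1.2` then (StGEO (5)) `R.1.2 < P.1.1`, `P.1.2 < R.2.1`: the gap `P.1` is inside the core of `R`; apply
`w⁻¹`: `sact w⁻¹ P.1` is inside the core of `P = pact w⁻¹ R` (`w⁻¹` maps `core R` onto `core P`, and the
closed gap `P.1` into the open interval), contradiction to StDJA for `(u, v)`, `x`, `X = P.1`. Same for
`P.2.1 < R.2.1` with `P.2`. -/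
def StDJN : Prop :=
  ∀ K : ℝ, 1 ≤ K → ∃ δ : ℝ, 0 < δ ∧ δ ≤ 1 ∧
    ∀ (S : Set (Equiv.Perm ℝ)) (Λ : Set ℝ) (G : Set (ℝ × ℝ)) (P : PG) (h th : ℝ) (A : Set ℝ),
    Sys K S Λ G P h th → 1000 * K * th ≤ δ → Iso S P A δ →
    ∀ (u v : Equiv.Perm ℝ) (c c' : ℝ), Way S P u c → Way S P v c' → c ≤ 12 → c' ≤ 12 →
      pact u P ≠ pact v P → Disjoint (⇑u '' A) (⇑v '' A)

/-- MODULE MDS (`theorem tMDS : StBAS → StACT → StPAC → StGEO → StWAY → StCST → StPER → StFIL → StDJN →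
StMDS`). Total length of the cores of normalised states of cost less than 12.
PROOF. `δ := min (δ of StDJN) (exp (-24 K) / 10)` (`Iso` and the condition on `th` are monotone in `δ`).
For `Q ∈ F` choose (StCST (2)) a way `u_Q` of cost `< 12` with `Q = pact u_Q P` and let
`U Q := u_Q '' A`. StFIL: `U Q` is measurable, inside `core Q`, and
`volume (core Q \ U Q) ≤ (1/10) mid Q`, so `volume (U Q) ≥ (9/10) mid Q`. StPER with `N = univ`:
`∑ volume (U Q) ≤ volume (Icc 0 1) = 1`; disjointness: `(fun x => x + m) '' U R = (T^m * u_R) '' A`,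
`Way.tr m` is a way of the same cost to `sh m R`, and `Q ≠ sh m R` if `Q ≠ R` or `m ≠ 0`
(`0 ≤ Q.1.1, R.1.1 < 1`; see `shne_EGP` in `M_EGP.lean`): StDJN. -/
def StMDS : Prop :=
  ∀ K : ℝ, 1 ≤ K → ∃ δ : ℝ, 0 < δ ∧ δ ≤ 1 ∧
    ∀ (S : Set (Equiv.Perm ℝ)) (Λ : Set ℝ) (G : Set (ℝ × ℝ)) (P : PG) (h th : ℝ) (A : Set ℝ),
    Sys K S Λ G P h th → 1000 * K * th ≤ δ → Iso S P A δ →
    ∀ F : Finset PG, (∀ Q ∈ F, Sta S P Q ∧ cst S P Q < 12 ∧ 0 ≤ Q.1.1 ∧ Q.1.1 < 1) →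
      ∑ Q ∈ F, mid Q ≤ 10 / 9

/-- MODULE EGS (`theorem tEGS : StBAS → StLAM → StACT → StPAC → StGEO → StWAY → StCST → StPER → StDST →
StFIL → StDJN → StEGS`). Total length of the end gaps of normalised states of cost less than 12.
PROOF. Close to `tEGP` (`M_EGP.lean`), with `N = univ` in StPER (so the total length of different gaps
modulo translation is `≤ 1`) and the following replacement of the lemmas `two`, `key` there:
`δ := min (δ of StDJN) (exp (-72 K) / 4)`. Let `Q ≠ R` be states of cost `< 12`, `Q = pact u P`,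
`R = pact v P` (ways of cost `< 12`), with the same left gap `V = sact u X = sact v X`, `X ∈ {P.1, P.2}`.
The cores start at the same point; suppose `Q.2.1 ≤ R.2.1` (otherwise exchange), so `core Q ⊆ core R`.
StDST (third, fourth) for the end points of `X`: `|V| span P ≤ exp (12 K) span Q |X|` and
`span R |X| ≤ exp (12 K) |V| span P`, so `span R ≤ exp (24 K) span Q`. Same for the cores:
`mid R span P ≤ exp (12 K) span R mid P`, `span Q mid P ≤ exp (12 K) mid Q span P`, so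
`mid R ≤ exp (24 K) (span R/span Q) mid Q ≤ exp (48 K) mid Q`. StFIL: `volume (core Q \ u '' A) ≤
exp (24 K) δ mid Q` and `volume (core R \ v '' A) ≤ exp (24 K) δ mid R ≤ exp (72 K) δ mid Q`; the sum is
`≤ mid Q / 2 < volume (core Q)`, so `u '' A` and `v '' A` meet in `core Q`: contradiction to StDJN. Same
for the right gaps (the cores end at the same point). So each gap is the left gap of at most two
normalised states (one for `X = P.1`, one for `X = P.2`). -/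
def StEGS : Prop :=
  ∀ K : ℝ, 1 ≤ K → ∃ δ : ℝ, 0 < δ ∧ δ ≤ 1 ∧
    ∀ (S : Set (Equiv.Perm ℝ)) (Λ : Set ℝ) (G : Set (ℝ × ℝ)) (P : PG) (h th : ℝ) (A : Set ℝ),
    Sys K S Λ G P h th → 1000 * K * th ≤ δ → Iso S P A δ →
    ∀ F : Finset PG, (∀ Q ∈ F, Sta S P Q ∧ cst S P Q < 12 ∧ 0 ≤ Q.1.1 ∧ Q.1.1 < 1) →
      ∑ Q ∈ F, ((Q.1.2 - Q.1.1) + (Q.2.2 - Q.2.1)) ≤ 4

/-- MODULE EXS (`theorem tEXS : StCST → StEXS`). Exits. PROOF. Same as `tEXI` (`M_EXI.lean`). -/
def StEXS : Prop :=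
  ∀ (K : ℝ) (S : Set (Equiv.Perm ℝ)) (Λ : Set ℝ), Gens K S → Lam S Λ →
    ∀ P : PG, IsPair Λ P → ∀ t : ℝ, 0 ≤ t → (∃ Q, Sta S P Q ∧ t < cst S P Q) →
      ∃ Q, Sta S P Q ∧ 0 ≤ Q.1.1 ∧ Q.1.1 < 1 ∧ cst S P Q ≤ t ∧ t < cst S P Q + span Q

/-- MODULE CMP (`theorem tCMP : StLAM → StCMP`). Gaps everywhere.
PROOF. The function `s ↦ volume (Ioo s (s + r) \ Λ)` is periodic and bounded below by a positive number:
cover `[0,1]` by finitely many short intervals, each contains a piece of the complement of positive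
measure. -/
def StCMP : Prop :=
  ∀ (K : ℝ) (S : Set (Equiv.Perm ℝ)) (Λ : Set ℝ), Gens K S → Lam S Λ →
    ∀ r : ℝ, 0 < r → ∃ φ : ℝ, 0 < φ ∧ ∀ s : ℝ, φ ≤ (volume (Ioo s (s + r) \ Λ)).toReal

/-- MODULE FNS (`theorem tFNS : StLAM → StACT → StPAC → StGEO → StWAY → StCST → StCOV → StFAR → StFIL →
StMDS → StEGS → StEXS → StCMP → StFNS`). A good small system does not exist.
PROOF. Let `δ'` be the minimum of the `δ` of StMDS, StEGS; `η` from StFAR, `φ` from StCMP with `r = η/2`,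
`δ := min (min (1/2) (δ'/(1000 K))) (min (η/4) (exp (-24 K) φ/2))`. (a) All states have cost `< 12`:
otherwise StEXS gives for every `0 ≤ t < 12` a normalised state with `cst Q ≤ t < cst Q + span Q`, StCOV
gives a finite set `s` of normalised states of cost `< 12` with
`12 ≤ 2 ∑ span Q = 2 ∑ (mid Q + end gaps) ≤ 2 (10/9 + 4) < 12`. (b) StFAR: `g ∈ Gr S` with
`η ≤ span (pact g P)`. By (a) and StCST (2) `Q := pact g P = pact u P` with a way of cost `< 12`. The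
gaps `Q.1`, `Q.2` are in `G`, so of length `≤ h ≤ η/4`, and `mid Q ≥ η/2`. StFIL:
`volume (core Q \ u '' A) ≤ exp (24 K) δ mid Q ≤ φ/2`, and `u '' A ⊆ Λ`; but `core Q` contains
`Ioo Q.1.2 (Q.1.2 + η/2)`, so `volume (core Q \ Λ) ≥ φ`. -/
def StFNS : Prop :=
  ∀ (K : ℝ) (S : Set (Equiv.Perm ℝ)) (Λ : Set ℝ), 1 ≤ K → Gens K S → Lam S Λ →
    ∃ δ : ℝ, 0 < δ ∧ ∀ (G : Set (ℝ × ℝ)) (P : PG) (h : ℝ) (A : Set ℝ), h ≤ δ →
      Sys K S Λ G P h δ → Iso S P A δ → A ⊆ Λ → False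

/-- MODULE TOA (`theorem tTOA : StBAS → StLAM → StWGT → StPER → StTOA`). Total length of an orbit of
short gaps. PROOF. Same as `tTOT` (`Pool/Agent/Helper21/HN/M_TOT.lean`) with
`N = cthickening h Λ \ Λ` (measurable, periodic, contains the open gaps of length at most `h`). -/
def StTOA : Prop :=
  ∀ (K : ℝ) (S : Set (Equiv.Perm ℝ)) (Λ : Set ℝ), Gens K S → Lam S Λ →
    ∀ (h : ℝ) (u : ℝ × ℝ), 0 < h → Gap Λ u.1 u.2 → W S u ≤ h →
      Tot S u (2 * (volume ((Metric.cthickening h Λ \ Λ) ∩ Icc (0 : ℝ) 1)).toReal)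

/-- MODULE THK (`theorem tTHK : StTHK`). PROOF. `tendsto_measure_cthickening_of_isClosed` for
`volume.restrict (Icc 0 1)` (see `lim_MAI` in `Pool/Agent/Helper21/HN/M_MAI.lean`) and
`measure_diff`. -/
def StTHK : Prop :=
  ∀ Λ : Set ℝ, IsClosed Λ → ∀ e : ℝ, 0 < e → ∃ r : ℝ, 0 < r ∧ ∀ h : ℝ, 0 < h → h ≤ r →
    (volume ((Metric.cthickening h Λ \ Λ) ∩ Icc (0 : ℝ) 1)).toReal ≤ e

/-- MODULE SYS (`theorem tSYS : StLAM → StWGT → StFIN → StMIN' → StSML → StTOA → StTHK → StSYS`).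
Existence of small extremal pairs if there are infinitely many orbits of gaps.
PROOF. StTHK with `e = min (th/2) (1/(2048 K))` gives `r`; `h' := min h r`. StFIN: there is a pair `P₁`
with `W S P₁.i ≤ 2 |P₁.i|` and `span P₁ < h'/7`. As in `tMKB` (`Pool/Agent/Helper21/HN/M_MKB.lean`):
`G = Orb2 S P₁.1 P₁.2`, `W S x ≤ 2 span P₁ ≤ h'` for `x ∈ G`, StTOA (with `h'`) gives
`Tot S x (2 e)`, `2 e ≤ th`, `1024 K (2 e) ≤ 1`, StMIN' gives `P`, StSML the last field;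
`glen`: `x.2 - x.1 ≤ W S x` (StWGT). (`Tot` is monotone in its last argument.) -/
def StSYS : Prop :=
  ∀ (K : ℝ) (S : Set (Equiv.Perm ℝ)) (Λ : Set ℝ), 1 ≤ K → Gens K S → Lam S Λ →
    (¬ ∃ s : Finset (ℝ × ℝ), ∀ a b : ℝ, Gap Λ a b →
      ∃ p ∈ s, ∃ g ∈ Gr S, ⇑g '' Ioo p.1 p.2 = Ioo a b) →
    ∀ h th : ℝ, 0 < h → 0 < th → ∃ (G : Set (ℝ × ℝ)) (P : PG), Sys K S Λ G P h th

/-- MODULE BIG (`theorem tBIG : StLAM → StACT → StPAC → StCST → StFAR → StTHK → StFNL → StBIG`). The cheap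
states of a small system cover a set of definite measure.
PROOF. `η` from StFAR, `r` from StTHK with `e`; `h₀ := min (η/2) (min (L/200) r)`. Suppose that
`volume (Un ∩ [0,1]) < L/200 - e`, `Un := Un S P (25 L)`. `Un` is open (union of open intervals) and
periodic (StCST (4): `sh 1 Q`, `sh (-1) Q` are states of the same cost, `core (sh 1 Q) = core Q + 1`);
`N := Un ∪ (cthickening h₀ Λ \ Λ)` is measurable and periodic, `volume (N ∩ [0,1]) ≤ L/200 =: m`, the gaps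
of `G` have length `≤ h ≤ h₀`, so their interiors are in `cthickening h₀ Λ \ Λ`, and the cores of states
of cost `< 25 L` are in `Un`. So `Bse K S Λ G P L h m` (`sml`: `400 K c ≤ 10000 K L ≤ 1`), and StFNL
contradicts StFAR. (`volume (Un ∩ [0,1]) ≤ 1` is finite.) -/
def StBIG : Prop :=
  ∀ (K : ℝ) (S : Set (Equiv.Perm ℝ)) (Λ : Set ℝ), 1 ≤ K → Gens K S → Lam S Λ →
    ∀ L e : ℝ, 0 < L → 10000 * K * L ≤ 1 → 0 < e → ∃ h₀ : ℝ, 0 < h₀ ∧
      ∀ (G : Set (ℝ × ℝ)) (P : PG) (h th : ℝ), Sys K S Λ G P h th → h ≤ h₀ →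
        L / 200 - e ≤ (volume (Un S P (25 * L) ∩ Icc (0 : ℝ) 1)).toReal

/-- MODULE LIM (`theorem tLIM : StPAC → StGEO → StWAY → StCST → StLIM`). The limit superior.
PROOF. `E := ⋂ n, ⋃ m ≥ n, (Un S (P m) t ∩ Icc 0 1)` (`Un` is open). Continuity from above
(`tendsto_measure_iInter_atTop` or `measure_iInter_eq_iInf`): `volume E ≥ ofReal b`. `E ⊆ Λ`: if
`x ∈ core Q`, `Q` a state of `P m` of cost `< t`, `Q = pact g (P m)` with a way of cost `< t`
(StCST (2)), then `span Q ≤ h m` (`sml`), so `|x - Q.1.2| ≤ h m` and `Q.1.2 ∈ Λ`; `h m → 0`, `Λ` is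
closed. -/
def StLIM : Prop :=
  ∀ (K : ℝ) (S : Set (Equiv.Perm ℝ)) (Λ : Set ℝ), 1 ≤ K → Gens K S → Lam S Λ →
    ∀ (G : ℕ → Set (ℝ × ℝ)) (P : ℕ → PG) (h : ℕ → ℝ) (th t b : ℝ),
    (∀ n, Sys K S Λ (G n) (P n) (h n) th) → Tendsto h atTop (𝓝 0) → 0 < b → 400 * K * t ≤ 1 →
    (∀ n, b ≤ (volume (Un S (P n) t ∩ Icc (0 : ℝ) 1)).toReal) →
    ∃ E : Set ℝ, MeasurableSet E ∧ E ⊆ Λ ∩ Icc (0 : ℝ) 1 ∧ ENNReal.ofReal b ≤ volume E ∧
      ∀ x ∈ E, ∃ᶠ n in atTop, x ∈ Un S (P n) t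

/-- MODULE LVL (`theorem tLVL : StBAS → StLVL`). A level set.
PROOF. For `g ∈ Gr S` the function `x ↦ |deriv g x|` is continuous (closure induction: for `s ∈ S`
`log |deriv s|` is Lipschitz (`Nice`) and `|deriv s| = exp (log |deriv s|)`; products and inverses by the
chain rule, elements are differentiable with nonvanishing derivative by StBAS; `T` has derivative 1).
So `B a := {x | ∀ g ∈ Gr S, |deriv g x| ≤ a}` is closed. Let `r = 101/100`. The set
`E ∩ {x | ∃ C, ...} = ⋃ j, E ∩ B (r ^ j)` is not null. So `E ∩ B 1` or one of the sets `E ∩ (B (r^(j+1)) \ B (r^j))`,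
`j ∈ ℕ`, has positive measure (for `x ∈ B (r^n)` take the least `j` with `x ∈ B (r^j)`). In the first case
`Z := E ∩ B 1`, `a = 1`. In the second case `Z` is this set, `a = r^(j+1)`; if `x, g x ∈ Z` there is
`k ∈ Gr S` with `|k' (g x)| > r^j`, and `|(k g)' x| = |k' (g x)| |g' x| ≤ r^(j+1)`, so `|g' x| ≤ r`. -/
def StLVL : Prop :=
  ∀ (K : ℝ) (S : Set (Equiv.Perm ℝ)), Gens K S →
    ∀ E : Set ℝ, MeasurableSet E →
    volume (E ∩ {x | ∃ C : ℝ, ∀ g ∈ Gr S, |deriv g x| ≤ C}) ≠ 0 →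
    ∃ (Z : Set ℝ) (a : ℝ), MeasurableSet Z ∧ Z ⊆ E ∧ volume Z ≠ 0 ∧
      (∀ x ∈ Z, ∀ g ∈ Gr S, |deriv g x| ≤ a) ∧
      (∀ x ∈ Z, ∀ g ∈ Gr S, g x ∈ Z → |deriv g x| ≤ 101 / 100)

/-- MODULE DEN (`theorem tDEN : StGEO → StWAY → StCST → StDEN`). Density.
PROOF. Lebesgue's density theorem `IsUnifLocDoublingMeasure.ae_tendsto_measure_inter_div` for `Z` and
the constant `1`: as `volume Z ≠ 0` there is `x ∈ Z` such that for all centres `w j` and radii
`δ j → 0+` with `x ∈ closedBall (w j) (δ j)` the proportion of `Z` in the ball tends to 1. Choose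
(`Frequently`, `extraction_of_frequently_atTop`) a strictly increasing sequence `n j` with
`x ∈ core Q_j`, `Q_j` a state of `P (n j)` of cost `< t`; the closed core is the closed ball with centre
`(Q.1.2 + Q.2.1)/2` and radius `mid Q/2`, `0 < mid Q < span Q ≤ h (n j) → 0` (StGEO (1), StCST (2),
`sml`). So for large `j` `volume (Z ∩ closed core) ≥ (1 - ε) mid Q_j`, hence
`volume (core Q_j \ Z) ≤ ε mid Q_j`. -/
def StDEN : Prop :=
  ∀ (K : ℝ) (S : Set (Equiv.Perm ℝ)) (Λ : Set ℝ), 1 ≤ K → Gens K S → Lam S Λ →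
    ∀ (G : ℕ → Set (ℝ × ℝ)) (P : ℕ → PG) (h : ℕ → ℝ) (th t : ℝ),
    (∀ n, Sys K S Λ (G n) (P n) (h n) th) → Tendsto h atTop (𝓝 0) → 400 * K * t ≤ 1 →
    ∀ Z : Set ℝ, MeasurableSet Z → volume Z ≠ 0 → (∀ x ∈ Z, ∃ᶠ n in atTop, x ∈ Un S (P n) t) →
    ∀ (e : ℝ) (N : ℕ), 0 < e → ∃ n, N ≤ n ∧ ∃ Q, Sta S (P n) Q ∧ cst S (P n) Q < t ∧
      (volume (core Q \ Z)).toReal ≤ e * mid Q

/-- MODULE LVR (`theorem tLVR : StLVR`). A level set of an invariant density.
PROOF. Let `N` be a measurable null set containing the exceptional points of `E`; `r = 101/100`. The sets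
`(E \ N) ∩ {x | r ^ j < ρ x ≤ r ^ (j+1)}`, `j ∈ ℤ`, cover `E \ N`, so one of them, `Z`, has positive measure. If
`x, g x ∈ Z` then `|g' x| = ρ x / ρ (g x) ≤ r`. -/
def StLVR : Prop :=
  ∀ (S : Set (Equiv.Perm ℝ)) (ρ : ℝ → ℝ), Measurable ρ → ∀ E : Set ℝ, MeasurableSet E →
    volume E ≠ 0 →
    (∀ᵐ x ∂(volume.restrict E), 0 < ρ x ∧ ∀ g ∈ Gr S, ρ (g x) * |deriv g x| = ρ x) →
    ∃ Z : Set ℝ, MeasurableSet Z ∧ Z ⊆ E ∧ volume Z ≠ 0 ∧
      (∀ x ∈ Z, ∀ g ∈ Gr S, g x ∈ Z → |deriv g x| ≤ 101 / 100)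

/-- MODULE PUL (`theorem tPUL : StBAS → StLAM → StACT → StPAC → StGEO → StWAY → StCST → StVOL → StDST →
StPUL`). Pulling back to the base pair.
PROOF. `Q = pact u P` with a way of cost `c < t` (StCST (2)); `K c ≤ 1/400`, `exp (K c) ≤ 401/400`
(`exp x ≤ 1/(1-x)`: `≤ 400/399`). `A := core P ∩ u ⁻¹' Z` (in `Λ` if `Z ⊆ Λ`). StDST: on the hull of `P`
`|u'| = (span Q/span P)` up to the factor `exp (K c)` both ways. `fill`: `u` maps `core P \ A` into
`core Q \ Z`; StVOL with the lower bound `c₀ = exp (-K c) span Q/span P`: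
`volume (core P \ A) ≤ exp (K c) (span P/span Q) e mid Q ≤ exp (K c)² e mid P ≤ 2 e mid P`
(`mid Q span P ≤ exp (K c) span Q mid P`, StDST (third) at the end points of the core, StACT). `iso`: `y, w y ∈ A`: `g := u * w * u⁻¹`
maps `u y ∈ Z` to `u (w y) ∈ Z`, so `|g' (u y)| ≤ 101/100`; `g ∘ u = u ∘ w`, so
`|w' y| = |g' (u y)| |u' y|/|u' (w y)| ≤ (101/100) exp (K c)² ≤ 13/10`. -/
def StPUL : Prop :=
  ∀ (K : ℝ) (S : Set (Equiv.Perm ℝ)) (Λ : Set ℝ) (G : Set (ℝ × ℝ)) (P Q : PG)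
    (h th t e : ℝ) (Z : Set ℝ), Sys K S Λ G P h th → 400 * K * t ≤ 1 → MeasurableSet Z → Z ⊆ Λ →
    (∀ x ∈ Z, ∀ g ∈ Gr S, g x ∈ Z → |deriv g x| ≤ 101 / 100) →
    Sta S P Q → cst S P Q < t → (volume (core Q \ Z)).toReal ≤ e * mid Q →
    ∃ A : Set ℝ, Iso S P A (2 * e) ∧ A ⊆ Λ

/-- the hypothesis of the main theorem at the point `x`: bounded derivatives, or the function `ρ` is an
invariant density -/
def Reg (H : Subgroup (Equiv.Perm ℝ)) (ρ : ℝ → ℝ) (x : ℝ) : Prop :=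
  (∃ C : ℝ, ∀ g ∈ H, |deriv (⇑g) x| ≤ C) ∨
    (0 < ρ x ∧ ∀ g ∈ H, ρ (g x) * |deriv (⇑g) x| = ρ x)

/-- MODULE MNS (`theorem tMNS : StSYS → StBIG → StLIM → StLVL → StLVR → StDEN → StPUL → StFNS → StMNS`).
The main theorem.
PROOF. Suppose not. `L := 1/(10000 K)`, `e := L/400`, `b := L/400`; `t := 25 L`, `δ` from StFNS, `h₀` from
StBIG, `h n := min h₀ δ/(n+1)`; StSYS with `h n` and `th = δ` gives `G n`, `P n`; StBIG, StLIM give `E ⊆ Λ`
with `volume E ≥ ofReal b > 0`. If `E ∩ {x | ∃ C, ...}` is not null StLVL gives `Z`, otherwise StLVR. StDEN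
with `e = δ/2`; StPUL; StFNS. -/
def StMNS : Prop :=
  ∀ (K : ℝ) (S : Set (Equiv.Perm ℝ)) (Λ : Set ℝ), 1 ≤ K → Gens K S → Lam S Λ →
    ∀ ρ : ℝ → ℝ, Measurable ρ → (∀ᵐ x ∂(volume.restrict Λ), Reg (Gr S) ρ x) →
    ∃ s : Finset (ℝ × ℝ), ∀ a b : ℝ, Gap Λ a b →
      ∃ p ∈ s, ∃ g ∈ Gr S, ⇑g '' Ioo p.1 p.2 = Ioo a b

/-- `x` is a conical point: arbitrarily short intervals around `x` are mapped by elements of the group
to intervals of definite length with bounded distortion -/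
def Con (H : Subgroup (Equiv.Perm ℝ)) (x : ℝ) : Prop :=
  ∃ r C : ℝ, 0 < r ∧ ∀ ε : ℝ, 0 < ε → ∃ g ∈ H, ∃ p q : ℝ, p < x ∧ x < q ∧ q - p ≤ ε ∧
    r ≤ |g q - g p| ∧ ∀ y ∈ Icc p q, ∀ z ∈ Icc p q, |deriv g y| ≤ C * |deriv g z|

/-- MODULE CNC (`theorem tCNC : StBAS → StLAM → StVOL → StCNC`). Almost no point of `Λ` is conical.
PROOF. Let `x` be a density point of `Λ` in the strong sense of
`IsUnifLocDoublingMeasure.ae_tendsto_measure_inter_div` (constant `1`: all small closed intervals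
containing `x`), which holds for almost every point of `Λ`. Suppose `Con (Gr S) x`. For `ε < 1` small the interval
`I = [p, q]` satisfies `volume (I \ Λ) ≤ e (q - p)`, `e` as small as we want. `g` is injective and
preserves `Λ` (StLAM (a)), mean value theorem: some `ξ ∈ I` has `|g' ξ| (q - p) = |g q - g p|`, so
`|g'| ≤ C |g q - g p|/(q - p)` on `I`, StVOL: `volume (g '' (I \ Λ)) ≤ C e |g q - g p| ≤ C e`
(`|g q - g p| ≤ 1` because `q - p < 1`, `g (p+1) = g p ± 1`, monotonicity). But `g '' I` is a closed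
interval of length `≥ r` and `g '' (I \ Λ) = g '' I \ Λ`. The function `φ s = volume (Icc s (s + r) \ Λ)` is
continuous, periodic with period one (`Λ + 1 = Λ`) and positive (`interior Λ = ∅`, `Λ` closed: the open
set `Ioo s (s+r) \ Λ` is nonempty), so it has a positive lower bound `φ₀`, and `φ₀ ≤ C e`. Contradiction
for small `e`. (Instead of continuity: cover `[0,1]` by the finitely many intervals
`[j r/2, (j+1) r/2]`, each contains a piece of the complement of positive measure; every interval of length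
`≥ r` contains an integer translate of one of them.) -/
def StCNC : Prop :=
  ∀ (K : ℝ) (S : Set (Equiv.Perm ℝ)) (Λ : Set ℝ), Gens K S → Lam S Λ →
    ∀ᵐ x ∂(volume.restrict Λ), ¬ Con (Gr S) x

end Pool.Agent.Helper39.HS
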